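import Pool.Agent.LR.B7.CrNum

/-! # 7.9: the numbers (helper94), energies in the rings and of the cut charges -/

set_option autoImplicit false
set_option linter.unusedSectionVars false
set_option linter.unusedVariables false

noncomputable section

open scoped BigOperators Topology
open MeasureTheory Filter Set

namespace Pool.Agent.LR.Cr

section Gen

variable {W : Type*} [DecidableEq W] {M M' : BF W} {O : Finset W}

/-- the energy functional only depends on the form on functions supported in `O` -/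
theorem En_congr (h : ∀ φ, Supp O φ → M φ φ = M' φ φ) {f : W → ℝ} (hf : Supp O f) :
    En M O f = En M' O f := by
  have hw : ∀ (k : W → ℝ), Supp O k → ∀ ψ : O → ℤ, wt M O k ψ = wt M' O k ψ := fun k hk ψ => by
    unfold wt
    rw [h _ ((supp_emb ψ).sub hk)]
  have hT : ∀ (k : W → ℝ), Supp O k → Th M O k = Th M' O k := fun k hk => by
    unfold Th
    exact tsum_congr (hw k hk)
  unfold En
  rw [hT f hf, hT 0 supp_zero]

/-- polarised version of agreement of two forms on `O` -/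
theorem form_congr (hM : IsForm M) (hM' : IsForm M') (h : ∀ φ, Supp O φ → M φ φ = M' φ φ)
    {f g : W → ℝ} (hf : Supp O f) (hg : Supp O g) : M f g = M' f g := by
  have h1 := h _ (hf.add hg)
  rw [hM.add_sq, hM'.add_sq, h f hf, h g hg] at h1
  linarith

/-- Bound of the dual norm on `O \ A`-type lattices from an approximate potential `k`:
`q ≈ M k`, and every field equal to `k` on `A` has energy `≥ e`. -/
theorem nsq_cut (hM : IsForm M) {O' : Finset W} {q k : W → ℝ} {C e : ℝ}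
    (hC : 0 ≤ C) (he : C ^ 2 ≤ e)
    (hb : ∀ φ, Supp O' φ → |pr O' q φ - M k φ| ≤ C * Real.sqrt (M φ φ))
    (hcut : ∀ φ, Supp O' φ → e ≤ M (k - φ) (k - φ)) :
    nsq M O' q ≤ M k k - e + 2 * C * (Real.sqrt e + Real.sqrt (M k k)) := by
  refine nsq_le q fun φ hφ => ?_
  have h1 := hb φ hφ
  have h2 := hcut φ hφ
  have h3 := hM.sub_sq k φ
  have n1 := hM.nonneg (k - φ)
  have n2 := hM.nonneg k
  have e0 : 0 ≤ e := (sq_nonneg C).trans he
  have h4 : Real.sqrt (M φ φ) ≤ Real.sqrt (M (k - φ) (k - φ)) + Real.sqrt (M k k) := by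
    have := hM.tri k (φ - k)
    have e : M (φ - k) (φ - k) = M (k - φ) (k - φ) := by rw [← neg_sub, neg_sq']
    rw [add_sub_cancel, e] at this
    linarith
  set X := Real.sqrt (M (k - φ) (k - φ)) with hX
  have hXX : X ^ 2 = M (k - φ) (k - φ) := Real.sq_sqrt n1
  have hX0 : 0 ≤ X := Real.sqrt_nonneg _
  have hE : Real.sqrt e ≤ X := Real.sqrt_le_sqrt h2
  have hEE : Real.sqrt e ^ 2 = e := Real.sq_sqrt e0
  have hE0 := Real.sqrt_nonneg e
  have hCE : C ≤ Real.sqrt e := Real.le_sqrt_of_sq_le he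
  have hK0 := Real.sqrt_nonneg (M k k)
  have h5 := (abs_le.1 h1).2
  have h6 : pr O' q φ ≤ M k φ + C * (X + Real.sqrt (M k k)) := by nlinarith
  have h7 : 2 * pr O' q φ - M φ φ ≤ M k k - X ^ 2 + 2 * C * (X + Real.sqrt (M k k)) := by
    rw [hXX, h3]; linarith
  have h8 : X ^ 2 - 2 * C * X ≥ e - 2 * C * Real.sqrt e := by nlinarith
  linarith

end Gen

variable {α β κ : ℝ} {z₀ : P} {ρ M δ : ℝ}

/-- The ring energies: `Q(u) - 2 E_Y(u) ≥ (1-ε₀) x² D - ε`. -/
theorem ring_est (hα : 4 < α) (hβ : 0 < β) (z₀ : P) (hρ : 0 < ρ) {ε₀ : ℝ} (h0 : 0 ≤ ε₀)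
    (h1 : ε₀ ≤ 1)
    (hT : ∀ (Λ : Finset V) (h : V → ℝ), Supp Λ h → En (QD α β Λ) Λ h ≤ ε₀ / 2 * QD α β Λ h h)
    {C₁ : ℝ} (hC₁ : 0 < C₁) (c₂ : ℝ) {a : ℕ} (ha : a = 2 ∨ a = 4) {F : P → ℝ}
    (hF : ∀ z, F z ≠ 0 → (a + 1 / 4) * ρ < lenP (z - z₀) ∧ lenP (z - z₀) < (a + 3 / 4) * ρ)
    (x : ℝ) {ε : ℝ} (hε : 0 < ε) :
    ∃ η₀ > 0, ∀ η : ℝ, 0 < η → η ≤ η₀ → ∀ M δ : ℝ, 1 ≤ M → 0 < δ → δ ≤ ρ / 8 → ∀ H : P → ℝ,
      Prof α β z₀ ρ M δ c₂ C₁ a F η H →
      ∀ᶠ n : ℕ in atTop, ∀ u : V → ℝ,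
        IsPot (QF α β (SS z₀ ρ n)) (ringL z₀ ρ a n) (x • chg F n) u →
        (1 - ε₀) * (x ^ 2 * (cc α β * Dir H)) - ε ≤
          QF α β (SS z₀ ρ n) u u - 2 * En (QF α β (SS z₀ ρ n)) (ringL z₀ ρ a n) u := by
  have ha5 : a ≤ 5 := by rcases ha with rfl | rfl <;> norm_num
  set B : ℝ := C₁ * β + 1 with hB
  have hB0 : 0 < B := by positivity
  set Kc : ℝ := x ^ 2 * (2 * Real.sqrt B + 1) + 1 with hKc
  have hKc0 : 0 < Kc := by positivity
  refine ⟨min 1 (ε / 2 / Kc), by positivity, fun η hη hηle M δ hM hδ hδρ H Pf => ?_⟩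
  have hη1 : η ≤ 1 := hηle.trans (min_le_left _ _)
  have hη2 : η * Kc ≤ ε / 2 := by
    have := hηle.trans (min_le_right _ _)
    calc η * Kc ≤ ε / 2 / Kc * Kc := mul_le_mul_of_nonneg_right this hKc0.le
      _ = ε / 2 := by field_simp
  have hsup : ∀ z ∈ tsupport H, InR z₀ ρ z := fun z hz => by
    have := Pf.supp z hz
    rcases ha with rfl | rfl
    · left; push_cast at this; constructor <;> linarith [this.1, this.2]
    · right; push_cast at this; constructor <;> linarith [this.1, this.2]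
  obtain ⟨Cp, hCp, hp⟩ := B5.poinc hα hβ z₀ hρ
  -- bound of the energy of the charge, used for the mass term
  set E₁ : ℝ := x ^ 2 * (Real.sqrt B + 1) ^ 2 + 1 with hE₁
  have hE₁0 : 0 < E₁ := by positivity
  have hε' : 0 < ε / 2 / (Cp * E₁) := by positivity
  filter_upwards [mp_lim hα hβ z₀ hρ hM hδ hδρ Pf.smooth Pf.comp hsup hη, Pf.near,
    hp M δ hM hδ hδρ, mass_small (z₀ := z₀) hα hβ hρ hε', eventually_gt_atTop 0]
    with n g1 g2 g3 g4 hn u hu
  have hMod := mod_of_poinc (δ := δ) hβ (by linarith : 0 ≤ M) hn g3 hCp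
  have hFo : IsForm (MP α β z₀ ρ M δ n) := by
    rw [MP_eq]
    exact (isForm_QF hβ.le _).add hMod.Nf
  have hPD : PDef (MP α β z₀ ρ M δ n) (SS z₀ ρ n) := hMod.pd
  have hFQ : IsForm (QF α β (SS z₀ ρ n)) := isForm_QF hβ.le _
  have hagree : ∀ φ, Supp (ringL z₀ ρ a n) φ →
      MP α β z₀ ρ M δ n φ φ = QF α β (SS z₀ ρ n) φ φ := fun φ hφ => by
    rw [MP_eq, LinearMap.add_apply, LinearMap.add_apply, pinF_ringL hρ hδ ha hφ, add_zero]
    rfl
  have hPDQ : PDef (QF α β (SS z₀ ρ n)) (ringL z₀ ρ a n) := fun φ hφ hne => by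
    rw [← hagree φ hφ]
    exact hPD φ (hφ.mono ringL_sub) hne
  -- lower bound of `Q(u)`
  set h : V → ℝ := smp H n with hh
  have hhR : Supp (ringL z₀ ρ a n) h := supp_smp hn hρ ha5 Pf.supp
  set m : ℝ := MP α β z₀ ρ M δ n h h with hm
  have hm0 : 0 ≤ m := hFo.nonneg h
  have hmB : m ≤ B := by
    have := (abs_le.1 g1).2
    have := Pf.up
    linarith
  have hmD : cc α β * Dir H - η ≤ m := by have := (abs_le.1 g1).1; linarith
  have hchgR : Supp (ringL z₀ ρ a n) (chg F n) := supp_chg hn hρ ha5 hF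
  have hprR : ∀ φ, pr (SS z₀ ρ n) (chg F n) φ = pr (ringL z₀ ρ a n) (chg F n) φ := fun φ => by
    rw [pr_comm, pr_comm (O := ringL z₀ ρ a n)]
    exact (pr_eq_of_supp ringL_sub φ hchgR).symm
  have hQu : x ^ 2 * (m - 2 * (η * Real.sqrt m)) ≤ QF α β (SS z₀ ρ n) u u := by
    have k1 := le_nsq hFQ hPDQ (x • chg F n) (hhR.smul x)
    rw [hu.nsq_eq hFQ, pr_smul_left, pr_smul_right, smul_sq, ← hprR, ← hagree h hhR] at k1
    have k2 := (abs_le.1 (g2 h)).1
    nlinarith [sq_nonneg x]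
  have hsm : Real.sqrt m ≤ Real.sqrt B := Real.sqrt_le_sqrt hmB
  have hsm0 := Real.sqrt_nonneg m
  have hQu2 : x ^ 2 * (cc α β * Dir H) - ε / 2 ≤ QF α β (SS z₀ ρ n) u u := by
    have k3 : x ^ 2 * (cc α β * Dir H) - η * Kc ≤ x ^ 2 * (m - 2 * (η * Real.sqrt m)) := by
      have : x ^ 2 * (η * Real.sqrt m) ≤ x ^ 2 * (η * Real.sqrt B) :=
        mul_le_mul_of_nonneg_left (mul_le_mul_of_nonneg_left hsm hη.le) (sq_nonneg x)
      have k4 : x ^ 2 * (cc α β * Dir H - η) ≤ x ^ 2 * m :=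
        mul_le_mul_of_nonneg_left hmD (sq_nonneg x)
      have k5 : η * Kc = 2 * (x ^ 2 * (η * Real.sqrt B)) + x ^ 2 * η + η := by rw [hKc]; ring
      rw [k5]
      nlinarith [sq_nonneg x]
    linarith
  -- upper bound of `Q(u)` for the mass term
  have hnu : QF α β (SS z₀ ρ n) u u ≤ E₁ := by
    rw [← hu.nsq_eq hFQ]
    refine (nsq_le_of_sq hFQ hPDQ _ (r := x ^ 2 * (Real.sqrt B + 1) ^ 2) (by positivity)
      fun φ hφ => ?_).trans (by rw [hE₁]; linarith)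
    rw [pr_smul_left, ← hprR, ← hagree φ hφ, mul_pow]
    have k1 := g2 φ
    have k2 := hFo.abs_le h φ
    have k3 : |pr (SS z₀ ρ n) (chg F n) φ| ≤
        (Real.sqrt B + 1) * Real.sqrt (MP α β z₀ ρ M δ n φ φ) := by
      have r0 := Real.sqrt_nonneg (MP α β z₀ ρ M δ n φ φ)
      have k4 : |pr (SS z₀ ρ n) (chg F n) φ| ≤
          |pr (SS z₀ ρ n) (chg F n) φ - MP α β z₀ ρ M δ n h φ| + |MP α β z₀ ρ M δ n h φ| := by
        have := abs_add_le (pr (SS z₀ ρ n) (chg F n) φ - MP α β z₀ ρ M δ n h φ)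
          (MP α β z₀ ρ M δ n h φ)
        rwa [sub_add_cancel] at this
      refine k4.trans ((add_le_add k1 k2).trans ?_)
      have k5 : η * Real.sqrt (MP α β z₀ ρ M δ n φ φ) ≤ 1 * Real.sqrt (MP α β z₀ ρ M δ n φ φ) :=
        mul_le_mul_of_nonneg_right hη1 r0
      have k6 : Real.sqrt m * Real.sqrt (MP α β z₀ ρ M δ n φ φ) ≤
          Real.sqrt B * Real.sqrt (MP α β z₀ ρ M δ n φ φ) := mul_le_mul_of_nonneg_right hsm r0
      rw [← hm]
      linarith
    have k7 : (pr (SS z₀ ρ n) (chg F n) φ) ^ 2 ≤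
        (Real.sqrt B + 1) ^ 2 * MP α β z₀ ρ M δ n φ φ := by
      rw [← sq_abs]
      refine (pow_le_pow_left₀ (abs_nonneg _) k3 2).trans (le_of_eq ?_)
      rw [mul_pow, Real.sq_sqrt (hFo.nonneg φ)]
    nlinarith [mul_le_mul_of_nonneg_left k7 (sq_nonneg x)]
  -- upper bound of the ring energy
  have hEn : 2 * En (QF α β (SS z₀ ρ n)) (ringL z₀ ρ a n) u ≤
      ε₀ * QF α β (SS z₀ ρ n) u u + ε / 2 := by
    set Dm : BF V := massF (SS z₀ ρ n) (kil α β (SS z₀ ρ n)) with hDm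
    have hDf : IsForm Dm := isForm_massF fun v _ => kil_nonneg hβ.le _ v
    have k1 : En (QF α β (SS z₀ ρ n)) (ringL z₀ ρ a n) u ≤
        En (QF α β (SS z₀ ρ n) + Dm) (ringL z₀ ρ a n) u := En_add_form hFQ hPDQ hDf u
    have k2 : ∀ φ, Supp (ringL z₀ ρ a n) φ →
        (QF α β (SS z₀ ρ n) + Dm) φ φ = QD α β (ringL z₀ ρ a n) φ φ := fun φ hφ => by
      rw [QD_eq_of_subset (by linarith : 2 < α) hβ.le (ringL_sub (z₀ := z₀) (ρ := ρ)) hφ]
      rfl
    have k3 : En (QF α β (SS z₀ ρ n) + Dm) (ringL z₀ ρ a n) u =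
        En (QD α β (ringL z₀ ρ a n)) (ringL z₀ ρ a n) u := En_congr k2 hu.1
    have k4 := hT (ringL z₀ ρ a n) u hu.1
    have k5 : QD α β (ringL z₀ ρ a n) u u = QF α β (SS z₀ ρ n) u u + Dm u u := by
      rw [← k2 u hu.1]; rfl
    have k6 : Dm u u ≤ ε / 2 := by
      have m1 := g4 u fun v hv => by
        have hv' : v ∈ ringL z₀ ρ a n := by
          by_contra hc
          exact hv (hu.1 v hc)
        have := (mem_ringL.1 hv').2.2
        have : (a : ℝ) ≤ 5 := by exact_mod_cast ha5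
        nlinarith
      have m2 := g3 u
      rw [hagree u hu.1] at m2
      refine m1.trans ?_
      have m3 : (∑ v ∈ SS z₀ ρ n, u v ^ 2) / (n : ℝ) ^ 2 ≤ Cp * E₁ :=
        m2.trans (mul_le_mul_of_nonneg_left hnu hCp.le)
      refine (mul_le_mul_of_nonneg_left m3 hε'.le).trans (le_of_eq ?_)
      field_simp
    have k7 : 0 ≤ Dm u u := hDf.nonneg u
    nlinarith
  have hQ0 := hFQ.nonneg u
  nlinarith

/-- The cut charges: if `A` crosses the ring by a chain, `‖x f‖²_{S \ A} ≤ x² (D - c₂ β) + ε`. -/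
theorem cut_est (hα : 4 < α) (hβ : 0 < β) (z₀ : P) (hρ : 0 < ρ) {C₁ c₂ : ℝ} (hC₁ : 0 < C₁)
    (hc₂ : 0 < c₂) {a : ℕ} (ha : a = 2 ∨ a = 4) {F : P → ℝ}
    {x : ℝ} (hx : 0 < x) {ε : ℝ} (hε : 0 < ε) {t : ℝ} (ht : t < 1) :
    ∃ η₀ > 0, ∀ η : ℝ, 0 < η → η ≤ η₀ → ∀ M δ : ℝ, 1 ≤ M → 0 < δ → δ ≤ ρ / 8 → ∀ H : P → ℝ,
      Prof α β z₀ ρ M δ c₂ C₁ a F η H →
      ∀ᶠ n : ℕ in atTop, ∀ A : Finset V,
        (∃ v w, lenP (sc n v - z₀) ≤ a * ρ ∧ (a + 1) * ρ ≤ lenP (sc n w - z₀) ∧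
          chainIn ((n : ℝ) ^ t) A v w) →
        nsq (MP α β z₀ ρ M δ n) (SS z₀ ρ n \ A) (x • chg F n) ≤
          x ^ 2 * (cc α β * Dir H - c₂ * β) + ε := by
  set e : ℝ := c₂ * β with he
  have he0 : 0 < e := mul_pos hc₂ hβ
  set B : ℝ := C₁ * β + 1 with hB
  have hB0 : 0 < B := by positivity
  set Kc : ℝ := x ^ 2 * (1 + 2 * (Real.sqrt e + Real.sqrt B)) with hKc
  have hKc0 : 0 < Kc := by positivity
  refine ⟨min (min 1 (Real.sqrt e)) (ε / Kc), by positivity,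
    fun η hη hηle M δ hM hδ hδρ H Pf => ?_⟩
  have hη1 : η ≤ 1 := (hηle.trans (min_le_left _ _)).trans (min_le_left _ _)
  have hηe : η ≤ Real.sqrt e := (hηle.trans (min_le_left _ _)).trans (min_le_right _ _)
  have hη2 : η * Kc ≤ ε := by
    have := hηle.trans (min_le_right _ _)
    calc η * Kc ≤ ε / Kc * Kc := mul_le_mul_of_nonneg_right this hKc0.le
      _ = ε := by field_simp
  have hsup : ∀ z ∈ tsupport H, InR z₀ ρ z := fun z hz => by
    have := Pf.supp z hz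
    rcases ha with rfl | rfl
    · left; push_cast at this; constructor <;> linarith [this.1, this.2]
    · right; push_cast at this; constructor <;> linarith [this.1, this.2]
  filter_upwards [mp_lim hα hβ z₀ hρ hM hδ hδρ Pf.smooth Pf.comp hsup hη, Pf.near,
    Pf.cross t ht] with n g1 g2 g3 A hA
  have hFo : IsForm (MP α β z₀ ρ M δ n) := by
    rw [MP_eq]
    exact (isForm_QF hβ.le _).add (isForm_pinF z₀ ρ δ n (by linarith))
  set h : V → ℝ := smp H n with hh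
  have hsx : Real.sqrt (x ^ 2 * e) = x * Real.sqrt e := by
    rw [Real.sqrt_mul (sq_nonneg x), Real.sqrt_sq hx.le]
  have key := nsq_cut (M := MP α β z₀ ρ M δ n) (O' := SS z₀ ρ n \ A) (q := x • chg F n)
    (k := x • h) (C := x * η) (e := x ^ 2 * e) hFo (by positivity) (by
      have : η ^ 2 ≤ e := by
        have := pow_le_pow_left₀ hη.le hηe 2
        rwa [Real.sq_sqrt he0.le] at this
      nlinarith [sq_nonneg x])
    (fun φ hφ => by
      have k1 := g2 φ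
      have k2 : pr (SS z₀ ρ n \ A) (x • chg F n) φ = x * pr (SS z₀ ρ n) (chg F n) φ := by
        rw [pr_smul_left, pr_eq_of_supp (Finset.sdiff_subset) _ hφ]
      have k3 : MP α β z₀ ρ M δ n (x • h) φ = x * MP α β z₀ ρ M δ n h φ := by
        simp only [map_smul, LinearMap.smul_apply, smul_eq_mul]
      rw [k2, k3, ← mul_sub, abs_mul, abs_of_pos hx, mul_assoc]
      exact mul_le_mul_of_nonneg_left k1 hx.le)
    (fun φ hφ => by
      have k1 := g3 A hA (h - x⁻¹ • φ) (fun v hv => by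
        have : φ v = 0 := hφ v (by simp [hv])
        simp [this])
      have k2 : x • h - φ = x • (h - x⁻¹ • φ) := by
        rw [smul_sub, smul_smul, mul_inv_cancel₀ hx.ne', one_smul]
      rw [k2, smul_sq]
      exact mul_le_mul_of_nonneg_left k1 (sq_nonneg x))
  rw [smul_sq, hsx] at key
  set m : ℝ := MP α β z₀ ρ M δ n h h with hm
  have hm0 : 0 ≤ m := hFo.nonneg h
  have hmD := (abs_le.1 g1).2
  have hmB : m ≤ B := by have := Pf.up; linarith
  have hsm : Real.sqrt (x ^ 2 * m) ≤ x * Real.sqrt B := by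
    rw [Real.sqrt_mul (sq_nonneg x), Real.sqrt_sq hx.le]
    exact mul_le_mul_of_nonneg_left (Real.sqrt_le_sqrt hmB) hx.le
  refine key.trans ?_
  have k1 : 2 * (x * η) * (x * Real.sqrt e + Real.sqrt (x ^ 2 * m)) ≤
      2 * (x * η) * (x * Real.sqrt e + x * Real.sqrt B) :=
    mul_le_mul_of_nonneg_left (by linarith) (by positivity)
  have k2 : x ^ 2 * m ≤ x ^ 2 * (cc α β * Dir H + η) :=
    mul_le_mul_of_nonneg_left (by linarith) (sq_nonneg x)
  have k3 : η * Kc = x ^ 2 * η + 2 * (x * η) * (x * Real.sqrt e + x * Real.sqrt B) := by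
    rw [hKc]; ring
  nlinarith

end Pool.Agent.LR.Cr
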