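import Pool.Agent.LR.B7.CrPar
import Pool.Agent.LR.B7.CrRing
import Pool.Agent.LR.B6F.Feed
import Pool.Agent.LR.B6F.Long
import Pool.Agent.LR.B6F.Geo

/-! # 7.9: the crossing estimate (helper94) -/

set_option autoImplicit false
set_option linter.unusedSectionVars false
set_option linter.unusedVariables false

noncomputable section

open scoped BigOperators Topology
open MeasureTheory Filter Set

namespace Pool.Agent.LR.Cr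

/-- bound of the exponent of the ratio formula -/
theorem half_sq {B η Bb : ℝ} (hB : B ≤ Bb) (hBb : 0 ≤ Bb) (hη : 0 < η)
    (h : η ≤ 1 / (16 * (Bb + 1))) (hB0 : 0 ≤ B) :
    1 / 2 * (Real.sqrt B + Real.sqrt η) ^ 2 ≤ 1 / 2 * B + 1 / 2 := by
  have h1 : Real.sqrt B * Real.sqrt η ≤ 1 / 4 := by
    rw [← Real.sqrt_mul hB0]
    have h2 : B * η ≤ (1 / 4) ^ 2 := by
      have h3 : B * η ≤ (Bb + 1) * η := mul_le_mul_of_nonneg_right (by linarith) hη.le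
      have h4 : (Bb + 1) * η ≤ (Bb + 1) * (1 / (16 * (Bb + 1))) :=
        mul_le_mul_of_nonneg_left h (by linarith)
      have h5 : (Bb + 1) * (1 / (16 * (Bb + 1))) = (1 / 4) ^ 2 := by
        field_simp; norm_num
      linarith
    calc Real.sqrt (B * η) ≤ Real.sqrt ((1 / 4) ^ 2) := Real.sqrt_le_sqrt h2
      _ = 1 / 4 := Real.sqrt_sq (by norm_num)
  have h6 : η ≤ 1 / 16 := by
    refine h.trans ?_
    apply one_div_le_one_div_of_le (by norm_num)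
    nlinarith
  have h7 := Real.sq_sqrt hB0
  have h8 := Real.sq_sqrt hη.le
  nlinarith

section Num

variable {ε₀ X Y a b D₂ D₄ k e : ℝ}

theorem num_a {L r p Xp : ℝ} (hk : 0 ≤ k * p) (hp : ε₀ * p ≤ ε₀ * Xp) (he : e ≤ 1 / 8)
    (hL : |L - (1 - k) / 2 * p| ≤ e) (hr : (1 - ε₀) * p - e ≤ r) :
    2 * L - r ≤ ε₀ * Xp + 1 := by
  have := (abs_le.1 hL).2
  nlinarith

theorem num_a2 {Lp Lm L r p q Xq : ℝ} (hk : 0 ≤ k * q) (hq : ε₀ * q ≤ ε₀ * Xq) (he : e ≤ 1 / 8)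
    (hLp : |Lp - (1 - k) / 2 * (p + q)| ≤ e) (hLm : |Lm - (1 - k) / 2 * (p + q)| ≤ e)
    (hL : |L - (1 - k) / 2 * p| ≤ e) (hr : (1 - ε₀) * q - e ≤ r) :
    Lp + Lm - 2 * L - r ≤ ε₀ * Xq + 1 := by
  have h1 := (abs_le.1 hLp).2
  have h2 := (abs_le.1 hLm).2
  have h3 := (abs_le.1 hL).1
  nlinarith

theorem num_b {L S p Xp yy : ℝ} (hk : k * p ≤ ε₀ * Xp) (he : e ≤ 1 / 8)
    (hL : |L - (1 - k) / 2 * p| ≤ e) (hS : S ≤ 1 / 2 * (p - yy + e) + 1 / 2) :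
    1 + S - L ≤ 2 + 1 / 2 * (ε₀ * Xp) - 1 / 2 * yy := by
  have h1 := (abs_le.1 hL).1
  nlinarith

theorem num_b2 {L Lp S p q Xq yy : ℝ} (hk : k * q ≤ ε₀ * Xq) (he : e ≤ 1 / 8)
    (hL : |L - (1 - k) / 2 * p| ≤ e) (hLp : |Lp - (1 - k) / 2 * (p + q)| ≤ e)
    (hS : S ≤ 1 / 2 * (q - yy + e) + 1 / 2) :
    1 + S + L - Lp ≤ 2 + 1 / 2 * (ε₀ * Xq) - 1 / 2 * yy := by
  have h1 := (abs_le.1 hL).2
  have h2 := (abs_le.1 hLp).1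
  nlinarith

theorem num_c {L L2 p Xp : ℝ} (hk : 0 ≤ k * p) (hp0 : 0 ≤ p) (hp : p ≤ Xp) (he : e ≤ 1 / 8)
    (hL : |L - (1 - k) / 2 * p| ≤ e) (hL2 : |L2 - (1 - k) / 2 * (4 * p)| ≤ e) :
    L2 / 2 - L ≤ Xp + 1 := by
  have h1 := (abs_le.1 hL).1
  have h2 := (abs_le.1 hL2).2
  nlinarith

theorem num_c2 {L Lp L2 p q Xq : ℝ} (hk : 0 ≤ k * q) (hq0 : 0 ≤ q) (hq : q ≤ Xq) (he : e ≤ 1 / 8)
    (hL : |L - (1 - k) / 2 * p| ≤ e) (hLp : |Lp - (1 - k) / 2 * (p + q)| ≤ e)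
    (hL2 : |L2 - (1 - k) / 2 * (p + 4 * q)| ≤ e) :
    (L2 + L) / 2 - Lp ≤ Xq + 1 := by
  have h1 := (abs_le.1 hL).2
  have h2 := (abs_le.1 hL2).2
  have h3 := (abs_le.1 hLp).1
  nlinarith

theorem num_d {L Lt p q t Xq eθ : ℝ} (hk : 0 ≤ k * (t ^ 2 * q)) (hq : t ^ 2 * q ≤ t ^ 2 * Xq)
    (he : 2 * e ≤ eθ)
    (hL : |L - (1 - k) / 2 * p| ≤ e) (hLt : |Lt - (1 - k) / 2 * (p + t ^ 2 * q)| ≤ e) :
    Lt - L ≤ 1 / 2 * (t ^ 2 * Xq) + eθ := by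
  have h1 := (abs_le.1 hL).1
  have h2 := (abs_le.1 hLt).2
  nlinarith

end Num

/-- master inequality with the numbers put in -/
theorem master_num {W : Type*} [DecidableEq W] {J : W → W → ℝ} {N : BF W} {S R T : Finset W}
    {f g : W → ℝ} (hM : Mod J N S) (hR : R ⊆ S) (hT : T ⊆ S) (hd : Disjoint R T)
    {Y₁ Y₂ : Finset W} (hY₁ : Y₁ ⊆ S) (hY₂ : Y₂ ⊆ S)
    (hN₁ : ∀ φ χ : W → ℝ, Supp Y₁ φ → N φ χ = 0) (hN₂ : ∀ φ χ : W → ℝ, Supp Y₂ φ → N φ χ = 0)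
    (hf : Supp Y₁ f) (hg : Supp Y₂ g) (f0 : ∀ x, 0 ≤ f x) (g0 : ∀ x, 0 ≤ g x)
    (hfY : ∀ x ∈ Y₂, f x = 0) {u₁ u₂ : W → ℝ} (hu₁ : IsPot (Qfr J S) Y₁ f u₁)
    (hu₂ : IsPot (Qfr J S) Y₂ g u₂) (s : W → W → Prop)
    {K K' a b t η ε₁ ε₂ ε₀ X Y k e eθ p q Bb η₀ : ℝ} (hK : 0 < K) (hK' : 0 < K') (hη : 0 < η)
    (ht : 0 < t) (hk0 : 0 ≤ k) (hkε : k ≤ ε₀) (hε₀ : 0 ≤ ε₀) (he0 : 0 ≤ e) (he8 : e ≤ 1 / 8)
    (heθ : 2 * e ≤ eθ)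
    (hpX : p ≤ a ^ 2 * X) (hqX : q ≤ b ^ 2 * X) (hpY : a ^ 2 * Y ≤ p) (hqY : b ^ 2 * Y ≤ q)
    (hY0 : 0 ≤ Y) (hBb : a ^ 2 * X + b ^ 2 * X + 1 ≤ Bb)
    (hηB : η ≤ 1 / (16 * (Bb + 1)))
    (cut₁ : ∀ A, A ⊆ S → (A ∩ T).Nonempty → Chn s (seeds S R 0) A →
      nsq (MM J N S) (S \ A) f ≤ p - a ^ 2 * Y + e)
    (cut₂ : ∀ A, A ⊆ S → (A ∩ R).Nonempty → Chn s (seeds S ∅ f) A →
      nsq (MM J N S) (S \ A) g ≤ q - b ^ 2 * Y + e)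
    (v₁ : |La (MM J N S) S f - (1 - k) / 2 * p| ≤ e)
    (v₂ : |La (MM J N S) S ((2 : ℝ) • f) - (1 - k) / 2 * (4 * p)| ≤ e)
    (v₃ : |La (MM J N S) S (f + g) - (1 - k) / 2 * (p + q)| ≤ e)
    (v₄ : |La (MM J N S) S (f - g) - (1 - k) / 2 * (p + q)| ≤ e)
    (v₅ : |La (MM J N S) S (f + (2 : ℝ) • g) - (1 - k) / 2 * (p + 4 * q)| ≤ e)
    (v₆ : |La (MM J N S) S (f + t • g) - (1 - k) / 2 * (p + t ^ 2 * q)| ≤ e)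
    (y₁ : (1 - ε₀) * p - e ≤ Qfr J S u₁ u₁ - 2 * En (Qfr J S) Y₁ u₁)
    (y₂ : (1 - ε₀) * q - e ≤ Qfr J S u₂ u₂ - 2 * En (Qfr J S) Y₂ u₂)
    (p₁ : PrA J N S R 0 0 (NC s (seeds S R 0)) ≤ ε₁)
    (q₁ : PrA J N S R 0 0 (FBad J N S s (seeds S R 0) η) ≤ ε₁)
    (p₂ : PrA J N S ∅ f f (NC s (seeds S ∅ f)) ≤ ε₂)
    (q₂ : PrA J N S ∅ f f (FBad J N S s (seeds S ∅ f) η) ≤ ε₂)
    (hfin : 2 * (1 / K + K * Real.exp (al ε₀ X a) * bd1 (be ε₀ X Y a) (ga X a) ε₁ K' (al ε₀ X b)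
          (bd2 (be ε₀ X Y b) (ga X b) (th X b t eθ) η t ε₂)) ≤ η₀) :
    PrA J N S R 0 0 (hits T) ≤ η₀ := by
  have ha2 : 0 ≤ a ^ 2 := sq_nonneg a
  have hb2 : 0 ≤ b ^ 2 := sq_nonneg b
  have hp0 : 0 ≤ p := (mul_nonneg ha2 hY0).trans hpY
  have hq0 : 0 ≤ q := (mul_nonneg hb2 hY0).trans hqY
  have haY : 0 ≤ a ^ 2 * Y := mul_nonneg ha2 hY0
  have hbY : 0 ≤ b ^ 2 * Y := mul_nonneg hb2 hY0
  have hkp : k * p ≤ ε₀ * (a ^ 2 * X) :=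
    (mul_le_mul_of_nonneg_right hkε hp0).trans (mul_le_mul_of_nonneg_left hpX hε₀)
  have hkq : k * q ≤ ε₀ * (b ^ 2 * X) :=
    (mul_le_mul_of_nonneg_right hkε hq0).trans (mul_le_mul_of_nonneg_left hqX hε₀)
  have hBb0 : 0 ≤ Bb := by linarith
  refine le_trans (master (T := T) hM hR hT hd hY₁ hY₂ hN₁ hN₂ hf hg f0 g0 hfY hu₁ hu₂ s
    (K := K) (K' := K') (α₁ := al ε₀ X a) (α₂ := al ε₀ X b) (β₁ := be ε₀ X Y a)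
    (β₂ := be ε₀ X Y b) (γ₁ := ga X a) (γ₂ := ga X b) (θ := th X b t eθ) (η := η) (t := t)
    (ε₁ := ε₁) (ε₂ := ε₂) hK hK' hη.le ht cut₁ cut₂
    (num_a (mul_nonneg hk0 hp0) (mul_le_mul_of_nonneg_left hpX hε₀) he8 v₁ y₁)
    (num_a2 (mul_nonneg hk0 hq0) (mul_le_mul_of_nonneg_left hqX hε₀) he8 v₃ v₄ v₁ y₂)
    (num_b hkp he8 v₁ (half_sq (by linarith) hBb0 hη hηB (by linarith)))
    (num_b2 hkq he8 v₁ v₃ (half_sq (by linarith) hBb0 hη hηB (by linarith)))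
    (num_c (mul_nonneg hk0 hp0) hp0 hpX he8 v₁ v₂)
    (num_c2 (mul_nonneg hk0 hq0) hq0 hqX he8 v₁ v₃ v₅)
    (num_d (mul_nonneg hk0 (mul_nonneg (sq_nonneg t) hq0))
      (mul_le_mul_of_nonneg_left hqX (sq_nonneg t)) heθ v₁ v₆) p₁ q₁ p₂ q₂) hfin

/-- `κ ≤ ε₀ c` -/
theorem kap_le_eps {α β κ ε₀ : ℝ} (hα : 4 < α) (hβ : 0 < β) (hκ : KapSpec α β κ)
    (hT : ∀ (Λ : Finset V) (h : V → ℝ), Supp Λ h → En (QD α β Λ) Λ h ≤ ε₀ / 2 * QD α β Λ h h)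
    (z₀ : P) {ρ : ℝ} (hρ : 0 < ρ) {H : P → ℝ} (hH : ContDiff ℝ 2 H) (hc : HasCompactSupport H)
    (hs : ∀ z ∈ tsupport H, InR z₀ ρ z) (hD : 0 < Dir H) : κ ≤ ε₀ * cc α β := by
  have hΛ : ∀ᶠ n in atTop, Supp (SS z₀ ρ n) (smp H n) := by
    filter_upwards [eventually_gt_atTop 0] with n hn using supp_SS_smp hρ hs hn
  have hq := (qd_smp hα hβ H hH hc (SS z₀ ρ) hΛ).const_mul (ε₀ / 2)
  have key : ∀ ε > 0, κ / 2 * Dir H - ε ≤ ε₀ / 2 * (cc α β * Dir H) := fun ε hε => by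
    refine ge_of_tendsto hq ?_
    filter_upwards [hκ.lowD H (hH.of_le (by norm_num)) hc (SS z₀ ρ) hΛ ε hε, hΛ] with n h1 h2
    exact h1.trans (hT _ _ h2)
  have h3 : κ / 2 * Dir H ≤ ε₀ / 2 * (cc α β * Dir H) := by
    refine le_of_forall_pos_le_add fun ε hε => ?_
    linarith [key ε hε]
  have h4 : κ * Dir H ≤ ε₀ * cc α β * Dir H := by nlinarith
  exact le_of_mul_le_mul_right h4 hD

end Pool.Agent.LR.Cr
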