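import Pool.Agent.LR.Forms
import Pool.Agent.LR.FKDefs

/-! # 7.9: geometry of the rings, pins and of the killing masses (helper94) -/

set_option autoImplicit false
set_option linter.unusedSectionVars false
set_option linter.unusedVariables false

noncomputable section

open scoped BigOperators Topology
open MeasureTheory Filter Set

namespace Pool.Agent.LR.Cr

variable {z₀ : P} {ρ M δ : ℝ} {n : ℕ}

theorem lenP_nonneg (z : P) : 0 ≤ lenP z := Real.sqrt_nonneg _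

theorem abs_fst_le_lenP (z : P) : |z.1| ≤ lenP z :=
  Real.abs_le_sqrt (by nlinarith [sq_nonneg z.2])

theorem abs_snd_le_lenP (z : P) : |z.2| ≤ lenP z :=
  Real.abs_le_sqrt (by nlinarith [sq_nonneg z.1])

theorem mem_bx' {a b c d : ℝ} {n : ℕ} (hn : 0 < n) (x : V) :
    x ∈ bx a b c d n ↔ (a ≤ (sc n x).1 ∧ (sc n x).1 ≤ b) ∧ (c ≤ (sc n x).2 ∧ (sc n x).2 ≤ d) := by
  have hn' : (0 : ℝ) < n := by exact_mod_cast hn
  unfold bx sc
  rw [Finset.mem_product, Finset.mem_Icc, Finset.mem_Icc, Int.ceil_le, Int.le_floor, Int.ceil_le,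
    Int.le_floor]
  simp only [le_div_iff₀ hn', div_le_iff₀ hn', mul_comm (n : ℝ)]

theorem mem_SS_of_lenP (hn : 0 < n) {x : V} (hx : lenP (sc n x - z₀) ≤ 13 * ρ) :
    x ∈ SS z₀ ρ n := by
  have h1 := (abs_le.1 ((abs_fst_le_lenP (sc n x - z₀)).trans hx))
  have h2 := (abs_le.1 ((abs_snd_le_lenP (sc n x - z₀)).trans hx))
  simp only [Prod.fst_sub, Prod.snd_sub] at h1 h2
  unfold SS
  rw [mem_bx' hn]
  exact ⟨⟨by linarith [h1.1], by linarith [h1.2]⟩, ⟨by linarith [h2.1], by linarith [h2.2]⟩⟩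

/-- sites outside the box are far from the centre -/
theorem not_mem_SS (hn : 0 < n) {y : V} (hy : y ∉ SS z₀ ρ n) :
    13 * ρ < |(sc n y).1 - z₀.1| ∨ 13 * ρ < |(sc n y).2 - z₀.2| := by
  by_contra hc
  rw [not_or, not_lt, not_lt] at hc
  apply hy
  unfold SS
  rw [mem_bx' hn]
  have h1 := abs_le.1 hc.1
  have h2 := abs_le.1 hc.2
  exact ⟨⟨by linarith [h1.1], by linarith [h1.2]⟩, ⟨by linarith [h2.1], by linarith [h2.2]⟩⟩

theorem sc_mem_cellP (hδ : 0 < δ) {i x : V} (hx : x ∈ blk z₀ ρ δ n i) :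
    sc n x ∈ cellP z₀ δ i := by
  have h : cel z₀ δ n x = i := (Finset.mem_filter.1 hx).2
  have h1 : ⌊((sc n x).1 - z₀.1) / δ⌋ = i.1 := congrArg Prod.fst h
  have h2 : ⌊((sc n x).2 - z₀.2) / δ⌋ = i.2 := congrArg Prod.snd h
  have a1 := Int.floor_le (((sc n x).1 - z₀.1) / δ)
  have b1 := Int.lt_floor_add_one (((sc n x).1 - z₀.1) / δ)
  have a2 := Int.floor_le (((sc n x).2 - z₀.2) / δ)
  have b2 := Int.lt_floor_add_one (((sc n x).2 - z₀.2) / δ)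
  rw [h1] at a1 b1
  rw [h2] at a2 b2
  rw [le_div_iff₀ hδ] at a1 a2
  rw [div_lt_iff₀ hδ] at b1 b2
  unfold cellP rct
  refine ⟨⟨?_, ?_⟩, ⟨?_, ?_⟩⟩ <;> linarith

/-- a pinned site lies in one of the shells `1, 3, 5` -/
theorem pinned_shell (hδ : 0 < δ) {i x : V} (hi : i ∈ pin z₀ ρ δ) (hx : x ∈ blk z₀ ρ δ n i) :
    ∃ a : ℕ, (a = 1 ∨ a = 3 ∨ a = 5) ∧ a * ρ ≤ lenP (sc n x - z₀) ∧
      lenP (sc n x - z₀) ≤ (a + 1) * ρ := by
  classical
  have hc := sc_mem_cellP hδ hx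
  have hi' : cellP z₀ δ i ⊆ shell z₀ ρ 1 ∨ cellP z₀ δ i ⊆ shell z₀ ρ 3 ∨
      cellP z₀ δ i ⊆ shell z₀ ρ 5 := by
    unfold pin at hi
    exact (Finset.mem_filter.1 hi).2
  rcases hi' with h | h | h
  · exact ⟨1, Or.inl rfl, (h hc).1, (h hc).2⟩
  · exact ⟨3, Or.inr (Or.inl rfl), (h hc).1, (h hc).2⟩
  · exact ⟨5, Or.inr (Or.inr rfl), (h hc).1, (h hc).2⟩

/-- the pins do not see functions supported in the rings -/
theorem avg_ring (hρ : 0 < ρ) (hδ : 0 < δ) {i : V} (hi : i ∈ pin z₀ ρ δ) {φ : V → ℝ}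
    (hφ : ∀ x, φ x ≠ 0 → (2 * ρ < lenP (sc n x - z₀) ∧ lenP (sc n x - z₀) < 3 * ρ) ∨
      (4 * ρ < lenP (sc n x - z₀) ∧ lenP (sc n x - z₀) < 5 * ρ)) :
    avg (blk z₀ ρ δ n i) φ = 0 := by
  rw [avg_apply]
  have : ∑ x ∈ blk z₀ ρ δ n i, φ x = 0 := by
    refine Finset.sum_eq_zero fun x hx => ?_
    by_contra h0
    obtain ⟨a, ha, h1, h2⟩ := pinned_shell hδ hi hx
    rcases ha with rfl | rfl | rfl <;> rcases hφ x h0 with h | h <;> push_cast at h1 h2 <;>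
      nlinarith [h.1, h.2]
  rw [this, mul_zero]

theorem pinF_apply (z₀ : P) (ρ M δ : ℝ) (n : ℕ) (φ χ : V → ℝ) :
    pinF z₀ ρ M δ n φ χ = ∑ i ∈ pin z₀ ρ δ, M * δ ^ 2 * avg (blk z₀ ρ δ n i) φ *
      avg (blk z₀ ρ δ n i) χ := by
  simp [pinF, LinearMap.sum_apply, rk_apply]

theorem isForm_pinF (z₀ : P) (ρ δ : ℝ) (n : ℕ) (hM : 0 ≤ M) : IsForm (pinF z₀ ρ M δ n) :=
  IsForm.sum _ fun i _ => isForm_rk (mul_nonneg hM (sq_nonneg δ)) _

theorem pinF_ring (hρ : 0 < ρ) (hδ : 0 < δ) {φ : V → ℝ}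
    (hφ : ∀ x, φ x ≠ 0 → (2 * ρ < lenP (sc n x - z₀) ∧ lenP (sc n x - z₀) < 3 * ρ) ∨
      (4 * ρ < lenP (sc n x - z₀) ∧ lenP (sc n x - z₀) < 5 * ρ)) (χ : V → ℝ) :
    pinF z₀ ρ M δ n φ χ = 0 := by
  rw [pinF_apply]
  refine Finset.sum_eq_zero fun i hi => ?_
  rw [avg_ring hρ hδ hi hφ]; ring

theorem MP_eq (α β : ℝ) (z₀ : P) (ρ M δ : ℝ) (n : ℕ) :
    MP α β z₀ ρ M δ n = Qfr (JJ α β) (SS z₀ ρ n) + pinF z₀ ρ M δ n := rfl

theorem mem_ringL {a : ℕ} {x : V} : x ∈ ringL z₀ ρ a n ↔ x ∈ SS z₀ ρ n ∧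
    a * ρ < lenP (sc n x - z₀) ∧ lenP (sc n x - z₀) < (a + 1) * ρ := by
  unfold ringL
  rw [Finset.mem_filter]

theorem supp_ringL {a : ℕ} (hn : 0 < n) (hρ : 0 < ρ) (ha : a ≤ 5) {φ : V → ℝ}
    (h : ∀ x, φ x ≠ 0 → a * ρ < lenP (sc n x - z₀) ∧ lenP (sc n x - z₀) < (a + 1) * ρ) :
    Supp (ringL z₀ ρ a n) φ := by
  intro x hx
  by_contra h0
  apply hx
  obtain ⟨h1, h2⟩ := h x h0
  refine mem_ringL.2 ⟨mem_SS_of_lenP hn ?_, h1, h2⟩
  have : (a : ℝ) ≤ 5 := by exact_mod_cast ha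
  nlinarith

theorem ringL_sub {a : ℕ} : ringL z₀ ρ a n ⊆ SS z₀ ρ n := Finset.filter_subset _ _

/-- pins vanish on functions supported in `ringL a`, `a = 2, 4` -/
theorem pinF_ringL (hρ : 0 < ρ) (hδ : 0 < δ) {a : ℕ} (ha : a = 2 ∨ a = 4) {φ : V → ℝ}
    (hφ : Supp (ringL z₀ ρ a n) φ) (χ : V → ℝ) : pinF z₀ ρ M δ n φ χ = 0 := by
  refine pinF_ring hρ hδ (fun x h0 => ?_) χ
  have hx : x ∈ ringL z₀ ρ a n := by
    by_contra h
    exact h0 (hφ x h)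
  obtain ⟨_, h1, h2⟩ := mem_ringL.1 hx
  rcases ha with rfl | rfl
  · left; push_cast at h1 h2; constructor <;> linarith
  · right; push_cast at h1 h2; constructor <;> linarith

theorem supp_chg {a : ℕ} (hn : 0 < n) (hρ : 0 < ρ) (ha : a ≤ 5) {F : P → ℝ}
    (hF : ∀ z, F z ≠ 0 → (a + 1 / 4) * ρ < lenP (z - z₀) ∧ lenP (z - z₀) < (a + 3 / 4) * ρ) :
    Supp (ringL z₀ ρ a n) (chg F n) := by
  refine supp_ringL hn hρ ha fun x h0 => ?_
  have h1 : F (sc n x) ≠ 0 := by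
    intro h
    apply h0
    simp [chg, h]
  obtain ⟨h2, h3⟩ := hF _ h1
  constructor <;> nlinarith

theorem chg_nonneg {F : P → ℝ} (hF : ∀ z, 0 ≤ F z) (n : ℕ) (x : V) : 0 ≤ chg F n x :=
  div_nonneg (hF _) (sq_nonneg _)

theorem supp_smp {a : ℕ} (hn : 0 < n) (hρ : 0 < ρ) (ha : a ≤ 5) {H : P → ℝ}
    (hH : ∀ z ∈ tsupport H, a * ρ < lenP (z - z₀) ∧ lenP (z - z₀) < (a + 1) * ρ) :
    Supp (ringL z₀ ρ a n) (smp H n) := by
  refine supp_ringL hn hρ ha fun x h0 => ?_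
  exact hH _ (subset_tsupport _ h0)

/-! ### killing masses -/

/-- the killing rate at distance `≥ R` from the complement is `o(R^{-2})` -/
theorem kil_small {α β : ℝ} (hα : 4 < α) (hβ : 0 < β) {ε : ℝ} (hε : 0 < ε) :
    ∃ R₀ : ℝ, ∀ R : ℝ, R₀ ≤ R → 0 < R → ∀ (S : Finset V) (x : V),
      (∀ y, y ∉ S → R ≤ len (x - y)) → kil α β S x ≤ ε / R ^ 2 := by
  have hs := summable_Jc_len_sq hα β
  -- finite set capturing the sum up to `ε`
  obtain ⟨T, hT⟩ := (summable_iff_vanishing_norm.1 hs) ε hε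
  obtain ⟨R₀, hR₀⟩ : ∃ R₀ : ℝ, ∀ v ∈ T, len v < R₀ := by
    obtain ⟨B, hB⟩ := (T.image len).bddAbove
    exact ⟨B + 1, fun v hv => lt_of_le_of_lt
      (hB (Finset.mem_coe.2 (Finset.mem_image_of_mem _ hv))) (by linarith)⟩
  refine ⟨R₀, fun R hR hR0 S x hx => ?_⟩
  have hR2 : (0 : ℝ) < R ^ 2 := by positivity
  unfold kil
  have hsum := summable_kil (α := α) (by linarith) hβ.le S x
  refine hsum.tsum_le_of_sum_le fun U => ?_
  -- reduce to a finite sum over `v = x - y`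
  have h1 : ∑ y ∈ U, (if y ∈ S then 0 else JJ α β x y) ≤
      ∑ y ∈ U.filter (fun y => y ∉ S), Jc α β (x - y) * len (x - y) ^ 2 / R ^ 2 := by
    rw [Finset.sum_filter]
    refine Finset.sum_le_sum fun y _ => ?_
    by_cases hy : y ∈ S
    · simp [hy]
    · simp only [hy, if_false, not_false_eq_true, if_true]
      rw [le_div_iff₀ hR2]
      have h2 := hx y hy
      have h3 : 0 ≤ Jc α β (x - y) := Jc_nonneg hβ.le _
      unfold JJ
      refine mul_le_mul_of_nonneg_left ?_ h3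
      exact pow_le_pow_left₀ hR0.le h2 2
  refine h1.trans ?_
  rw [← Finset.sum_div]
  refine div_le_div_of_nonneg_right ?_ hR2.le
  have h4 : ∑ y ∈ U.filter (fun y => y ∉ S), Jc α β (x - y) * len (x - y) ^ 2 =
      ∑ v ∈ (U.filter (fun y => y ∉ S)).image (fun y => x - y), Jc α β v * len v ^ 2 := by
    rw [Finset.sum_image]
    intro a _ b _ h
    exact sub_right_injective h
  rw [h4]
  have hdisj : Disjoint ((U.filter (fun y => y ∉ S)).image (fun y => x - y)) T := by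
    rw [Finset.disjoint_left]
    intro v hv hvT
    obtain ⟨y, hy, rfl⟩ := Finset.mem_image.1 hv
    have := hx y (Finset.mem_filter.1 hy).2
    have := hR₀ _ hvT
    linarith
  have := hT _ hdisj
  rw [Real.norm_eq_abs] at this
  exact (le_abs_self _).trans this.le

/-- the killing masses are negligible on functions supported in the ball of radius `6ρ` -/
theorem mass_small {α β : ℝ} (hα : 4 < α) (hβ : 0 < β) (z₀ : P) (hρ : 0 < ρ) {ε : ℝ} (hε : 0 < ε) :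
    ∀ᶠ n : ℕ in atTop, ∀ φ : V → ℝ, (∀ x, φ x ≠ 0 → lenP (sc n x - z₀) < 6 * ρ) →
      massF (SS z₀ ρ n) (kil α β (SS z₀ ρ n)) φ φ ≤
        ε * ((∑ x ∈ SS z₀ ρ n, φ x ^ 2) / (n : ℝ) ^ 2) := by
  obtain ⟨R₀, hR₀⟩ := kil_small hα hβ (mul_pos hε (by positivity : (0:ℝ) < (7 * ρ) ^ 2))
  have hev : ∀ᶠ n : ℕ in atTop, R₀ ≤ 7 * ρ * n := by
    have : Tendsto (fun n : ℕ => 7 * ρ * (n : ℝ)) atTop atTop :=
      tendsto_natCast_atTop_atTop.const_mul_atTop (by positivity)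
    exact this.eventually_ge_atTop R₀
  filter_upwards [hev, eventually_gt_atTop 0] with n hn hn0 φ hφ
  have hn' : (0 : ℝ) < n := by exact_mod_cast hn0
  rw [massF_apply, Finset.sum_div, Finset.mul_sum]
  refine Finset.sum_le_sum fun x _ => ?_
  by_cases h0 : φ x = 0
  · simp [h0]
  have hx := hφ x h0
  have hk : kil α β (SS z₀ ρ n) x ≤ ε * (7 * ρ) ^ 2 / (7 * ρ * n) ^ 2 := by
    refine hR₀ _ hn (by positivity) _ x fun y hy => ?_
    have hx1 := (abs_fst_le_lenP (sc n x - z₀)).trans hx.le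
    have hx2 := (abs_snd_le_lenP (sc n x - z₀)).trans hx.le
    simp only [Prod.fst_sub, Prod.snd_sub] at hx1 hx2
    rcases not_mem_SS hn0 hy with h | h
    · have h3 : 7 * ρ ≤ |(sc n x).1 - (sc n y).1| := by
        have := abs_sub_abs_le_abs_sub ((sc n y).1 - z₀.1) ((sc n x).1 - z₀.1)
        have h4 : (sc n y).1 - z₀.1 - ((sc n x).1 - z₀.1) = -((sc n x).1 - (sc n y).1) := by ring
        rw [h4, abs_neg] at this
        linarith
      have h5 : (sc n x).1 - (sc n y).1 = (((x - y).1 : ℤ) : ℝ) / n := by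
        simp only [sc, Prod.fst_sub]; push_cast; ring
      rw [h5, abs_div, abs_of_pos hn', le_div_iff₀ hn'] at h3
      exact h3.trans (abs_fst_le_len _)
    · have h3 : 7 * ρ ≤ |(sc n x).2 - (sc n y).2| := by
        have := abs_sub_abs_le_abs_sub ((sc n y).2 - z₀.2) ((sc n x).2 - z₀.2)
        have h4 : (sc n y).2 - z₀.2 - ((sc n x).2 - z₀.2) = -((sc n x).2 - (sc n y).2) := by ring
        rw [h4, abs_neg] at this
        linarith
      have h5 : (sc n x).2 - (sc n y).2 = (((x - y).2 : ℤ) : ℝ) / n := by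
        simp only [sc, Prod.snd_sub]; push_cast; ring
      rw [h5, abs_div, abs_of_pos hn', le_div_iff₀ hn'] at h3
      exact h3.trans (abs_snd_le_len _)
  have h6 : ε * (7 * ρ) ^ 2 / (7 * ρ * n) ^ 2 = ε / (n : ℝ) ^ 2 := by
    field_simp
  rw [h6] at hk
  calc kil α β (SS z₀ ρ n) x * φ x * φ x = kil α β (SS z₀ ρ n) x * φ x ^ 2 := by ring
    _ ≤ ε / (n : ℝ) ^ 2 * φ x ^ 2 := mul_le_mul_of_nonneg_right hk (sq_nonneg _)
    _ = ε * (φ x ^ 2 / (n : ℝ) ^ 2) := by ring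

end Pool.Agent.LR.Cr
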