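import Pool.Agent.LR.B7.Split

/-!
# B7: 7.7, the conditional FKG inequality
-/

set_option autoImplicit false
set_option linter.unusedSectionVars false

noncomputable section

open scoped BigOperators Topology
open Filter

namespace Pool.Agent.LR.B7

variable {W : Type*} [DecidableEq W]

theorem single_expand {L : (W → ℝ) →ₗ[ℝ] ℝ} {Y : Finset W} {φ : W → ℝ} (hφ : Supp Y φ) :
    L φ = pr Y (fun x => L (Pi.single x 1)) φ := by
  have e : φ = ∑ x ∈ Y, φ x • (Pi.single x 1 : W → ℝ) := by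
    funext y
    rw [Finset.sum_apply]
    by_cases hy : y ∈ Y
    · rw [Finset.sum_eq_single_of_mem y hy]
      · simp
      · intro x _ hxy
        simp [Ne.symm hxy]
    · rw [hφ y hy]
      symm
      refine Finset.sum_eq_zero fun x hx => ?_
      have : y ≠ x := fun h => hy (h ▸ hx)
      simp [this]
  conv_lhs => rw [e]
  rw [map_sum]
  simp only [map_smul, smul_eq_mul, pr]
  exact Finset.sum_congr rfl fun x _ => mul_comm _ _

private theorem exp_mul_neg' {M : BF W} {O : Finset W} (hM : IsForm M) (hP : PDef M O)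
    (b u : W → ℝ) :
    Real.exp (M u u - 2 * En M O u) ≤
      Ex M O b (fun ψ => Real.exp (M (emb O ψ - b) u)) *
        Ex M O b (fun ψ => Real.exp (-M (emb O ψ - b) u)) := by
  have h1 := Ex_exp hM hP b u
  have h2 := Ex_exp hM hP b (-u)
  have e : (fun ψ : O → ℤ => Real.exp (M (emb O ψ - b) (-u))) =
      fun ψ => Real.exp (-M (emb O ψ - b) u) := by
    funext ψ
    rw [map_neg]
  have e2 : M (-u) (-u) = M u u := by simp
  rw [e, e2, ← sub_eq_add_neg] at h2
  rw [h1, h2, ← Real.exp_add, Real.exp_le_exp]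
  have := En_rsd hM hP b u
  linarith

/-- The weight of the full model on a fibre. -/
theorem fiber {J : W → W → ℝ} {N : BF W} {S Y : Finset W} (J0 : ∀ x y, 0 ≤ J x y)
    (hM : IsForm (Qfr J S + N)) (hPY : PDef (Qfr J S) Y) (hY : Y ⊆ S)
    (hN : ∀ φ χ : W → ℝ, Supp Y φ → N φ χ = 0)
    {f g : W → ℝ} (hf : ∀ x ∈ Y, f x = 0) (hg : ∀ x ∈ S, x ∉ Y → g x = 0)
    (b : (S \ Y : Finset W) → ℤ) :
    ∃ (c : ℝ) (h : W → ℝ), 0 < c ∧ ∀ (t : ℝ) (η : Y → ℤ),
      wt (Qfr J S + N) S 0 (splitE hY (b, η)) *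
          Real.exp (pr S (f + t • g) (emb S (splitE hY (b, η)))) =
        c * (wt (Qfr J S) Y h η * Real.exp (t * pr Y g (emb Y η))) := by
  have hQ := Qfr_form J0 S
  set B : W → ℝ := emb (S \ Y) b with hB
  obtain ⟨v, hv⟩ := exists_pot hQ hPY (fun x => Qfr J S B (Pi.single x 1))
  refine ⟨Real.exp (-(1 / 2) * (Qfr J S B B + N B B - Qfr J S v v) + pr S f B), -v,
    Real.exp_pos _, fun t η => ?_⟩
  have hE : Supp Y (emb Y η) := supp_emb η
  have hNs : ∀ φ χ : W → ℝ, Supp Y χ → N φ χ = 0 := by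
    intro φ χ hχ
    have h1 := hM.symm φ χ
    have h2 := hQ.symm φ χ
    simp only [LinearMap.add_apply] at h1
    rw [h2, hN χ φ hχ] at h1
    linarith
  have hvE : Qfr J S v (emb Y η) = Qfr J S B (emb Y η) := by
    rw [hv.2 _ hE, ← single_expand hE]
  have hBY : ∀ x ∈ Y, B x = 0 := fun x hx =>
    emb_apply_not fun h => (Finset.mem_sdiff.1 h).2 hx
  have e1 : pr S f (emb Y η) = 0 := by
    refine Finset.sum_eq_zero fun x _ => ?_
    by_cases hx : x ∈ Y
    · rw [hf x hx, zero_mul]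
    · rw [hE x hx, mul_zero]
  have e2 : pr S g B = 0 := by
    refine Finset.sum_eq_zero fun x hxS => ?_
    by_cases hx : x ∈ Y
    · rw [hBY x hx, mul_zero]
    · rw [hg x hxS hx, zero_mul]
  have e3 : pr S g (emb Y η) = pr Y g (emb Y η) := by
    unfold pr
    symm
    refine Finset.sum_subset hY fun x _ hx => ?_
    rw [hE x hx, mul_zero]
  have q1 : Qfr J S (B + emb Y η) (B + emb Y η) =
      Qfr J S B B + 2 * Qfr J S B (emb Y η) + Qfr J S (emb Y η) (emb Y η) := by
    simp only [map_add, LinearMap.add_apply]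
    rw [hQ.symm (emb Y η) B]; ring
  have q2 : N (B + emb Y η) (B + emb Y η) = N B B := by
    simp only [map_add, LinearMap.add_apply]
    rw [hNs B _ hE, hNs _ _ hE, hN _ B hE]; ring
  have q3 : Qfr J S (emb Y η - -v) (emb Y η - -v) =
      Qfr J S v v + 2 * Qfr J S B (emb Y η) + Qfr J S (emb Y η) (emb Y η) := by
    rw [sub_neg_eq_add]
    simp only [map_add, LinearMap.add_apply]
    rw [hQ.symm (emb Y η) v, hvE]; ring
  rw [emb_split]
  simp only [wt, sub_zero]
  rw [emb_split, ← Real.exp_add, ← Real.exp_add, ← Real.exp_add]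
  congr 1
  simp only [LinearMap.add_apply]
  rw [q1, q2, q3, pr_add_left, pr_add_right, pr_smul_left, pr_add_right, e1, e2, e3]
  ring

theorem Su_one {M : BF W} {S : Finset W} (hM : IsForm M) (hP : PDef M S) (f : W → ℝ) :
    Su M S f (fun _ => 1) = Th M S 0 * Real.exp (La M S f) := by
  rw [exp_La hM hP]
  have h0 := (Th_pos hM hP (0 : W → ℝ)).ne'
  unfold Ex Su
  rw [mul_div_cancel₀ _ h0]
  simp

/-- Pointwise inequality on a fibre. -/
theorem fib_ineq {z A B Qs AQ s e : ℝ} (hz : 0 < z) (hA : 0 < A) (hB : 0 ≤ B) (hAQ : 0 ≤ AQ)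
    (hs : 0 < s) (he : 0 < e) (hQz : Qs ≤ z) (h1 : Qs * A ≤ z * AQ) (h2 : e * z ^ 2 ≤ A * B) :
    Qs ≤ 1 / s * AQ + s / e * B := by
  rcases le_or_gt (s * z) A with h | h
  · have k1 : Qs ≤ z * AQ / A := (le_div_iff₀ hA).2 h1
    have k2 : z * AQ / A ≤ 1 / s * AQ := by
      rw [div_le_iff₀ hA, one_div, mul_assoc, inv_mul_eq_div, le_div_iff₀ hs]
      nlinarith
    have k3 : 0 ≤ s / e * B := by positivity
    linarith
  · have k1 : e * z ^ 2 ≤ s * z * B := h2.trans (mul_le_mul_of_nonneg_right h.le hB)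
    have k2 : e * z ≤ s * B := by
      have : z * (e * z) ≤ z * (s * B) := by nlinarith
      exact le_of_mul_le_mul_left this hz
    have k3 : z ≤ s / e * B := by
      rw [div_mul_eq_mul_div, le_div_iff₀ he]
      linarith
    have k4 : 0 ≤ 1 / s * AQ := by positivity
    linarith

/-- 7.7 for unnormalised sums, with a free threshold `s`. -/
theorem cond_fkg_su {J : W → W → ℝ} {N : BF W} {S Y : Finset W} (J0 : ∀ x y, 0 ≤ J x y)
    (hM : IsForm (Qfr J S + N)) (hP : PDef (Qfr J S + N) S) (hY : Y ⊆ S)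
    (hN : ∀ φ χ : W → ℝ, Supp Y φ → N φ χ = 0)
    {f g u : W → ℝ} (hf : ∀ x ∈ Y, f x = 0) (hg : ∀ x ∈ S, x ∉ Y → g x = 0)
    (hg0 : ∀ x ∈ Y, 0 ≤ g x) (hu : IsPot (Qfr J S) Y g u)
    (q : (W → ℝ) → ℝ) (hq0 : ∀ φ, 0 ≤ q φ) (hq1 : ∀ φ, q φ ≤ 1)
    (hq : ∀ φ φ' : W → ℝ, (∀ x ∈ S, φ x ≤ φ' x) → q φ ≤ q φ')
    {s : ℝ} (hs : 0 < s) :
    Su (Qfr J S + N) S f (fun ψ => q (emb S ψ)) ≤
      1 / s * Su (Qfr J S + N) S (f + g) (fun ψ => q (emb S ψ)) +
        s / Real.exp (Qfr J S u u - 2 * En (Qfr J S) Y u) *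
          Su (Qfr J S + N) S (f - g) (fun _ => 1) := by
  have hQ := Qfr_form J0 S
  have hPY : PDef (Qfr J S) Y := by
    intro φ hφ h0
    have h1 := hP φ (hφ.mono hY) h0
    simp only [LinearMap.add_apply] at h1
    rwa [hN φ φ hφ, add_zero] at h1
  set M := Qfr J S + N with hMdef
  set E := Real.exp (Qfr J S u u - 2 * En (Qfr J S) Y u) with hE
  have hE0 : 0 < E := Real.exp_pos _
  -- summability
  have hsum : ∀ (t : ℝ) (F : (S → ℤ) → ℝ), Tame F →
      Summable fun ψ => wt M S 0 ψ * Real.exp (pr S (f + t • g) (emb S ψ)) * F ψ := by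
    intro t F hF
    refine (summable_wt_mul hM hP 0 (Tame.mul (tame_exp_pr (f + t • g)) hF)).congr fun ψ => ?_
    rw [mul_assoc]
  have hqt : Tame (fun ψ : S → ℤ => q (emb S ψ)) :=
    tame_bdd 1 fun ψ => by rw [abs_of_nonneg (hq0 _)]; exact hq1 _
  have h1t : Tame (fun _ : S → ℤ => (1 : ℝ)) := tame_const 1
  -- the three sums
  have key : ∀ b : (S \ Y : Finset W) → ℤ,
      (∑' η : Y → ℤ, wt M S 0 (splitE hY (b, η)) *
          Real.exp (pr S (f + (0 : ℝ) • g) (emb S (splitE hY (b, η)))) *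
            q (emb S (splitE hY (b, η)))) ≤
        1 / s * (∑' η : Y → ℤ, wt M S 0 (splitE hY (b, η)) *
          Real.exp (pr S (f + (1 : ℝ) • g) (emb S (splitE hY (b, η)))) *
            q (emb S (splitE hY (b, η)))) +
        s / E * (∑' η : Y → ℤ, wt M S 0 (splitE hY (b, η)) *
          Real.exp (pr S (f + (-1 : ℝ) • g) (emb S (splitE hY (b, η)))) * 1) := by
    intro b
    obtain ⟨c, h, hc, hfib⟩ := fiber J0 hM hPY hY hN hf hg b
    have hin : ∀ (t : ℝ) (F : (S → ℤ) → ℝ), (∑' η : Y → ℤ, wt M S 0 (splitE hY (b, η)) *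
          Real.exp (pr S (f + t • g) (emb S (splitE hY (b, η)))) * F (splitE hY (b, η))) =
        c * ∑' η : Y → ℤ, wt (Qfr J S) Y h η *
          (F (splitE hY (b, η)) * Real.exp (t * pr Y g (emb Y η))) := by
      intro t F
      rw [← tsum_mul_left]
      refine tsum_congr fun η => ?_
      rw [hfib t η]
      ring
    rw [hin 0 (fun ψ => q (emb S ψ)), hin 1 (fun ψ => q (emb S ψ)), hin (-1) (fun _ => 1)]
    simp only [zero_mul, Real.exp_zero, mul_one, one_mul, neg_mul]
    set F : (Y → ℤ) → ℝ := fun η => q (emb S (splitE hY (b, η))) with hF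
    have hFm : Monotone F := by
      intro η θ hle
      refine hq _ _ fun x _ => ?_
      rw [emb_split, emb_split]
      exact add_le_add (le_refl _) (emb_le hle x)
    have hFt : Tame F := tame_bdd 1 fun ψ => by rw [abs_of_nonneg (hq0 _)]; exact hq1 _
    have k1 := fkg_exp J0 hPY h g hg0 F (fun η => hq0 _) (fun η => hq1 _) hFm
    have k2 := exp_mul_neg' hQ hPY h u
    have hpr : ∀ η : Y → ℤ, Qfr J S (emb Y η - h) u = pr Y g (emb Y η) - Qfr J S h u := by
      intro η
      rw [← hu.2 _ (supp_emb η), hQ.symm u]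
      simp only [map_sub, LinearMap.sub_apply]
    have hz : 0 < ∑' η, wt (Qfr J S) Y h η := Th_pos hQ hPY h
    have hA : 0 < ∑' η, wt (Qfr J S) Y h η * Real.exp (pr Y g (emb Y η)) :=
      (summable_wt_mul hQ hPY h (tame_exp_pr g)).tsum_pos
        (fun η => mul_nonneg (wt_pos _ _ _ _).le (Real.exp_pos _).le) 0
        (mul_pos (wt_pos _ _ _ _) (Real.exp_pos _))
    have hB : 0 ≤ ∑' η, wt (Qfr J S) Y h η * Real.exp (-pr Y g (emb Y η)) :=
      tsum_nonneg fun η => mul_nonneg (wt_pos _ _ _ _).le (Real.exp_pos _).le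
    have hAQ : 0 ≤ ∑' η, wt (Qfr J S) Y h η * (F η * Real.exp (pr Y g (emb Y η))) :=
      tsum_nonneg fun η => mul_nonneg (wt_pos _ _ _ _).le
        (mul_nonneg (hq0 _) (Real.exp_pos _).le)
    have hQz : (∑' η, wt (Qfr J S) Y h η * F η) ≤ ∑' η, wt (Qfr J S) Y h η := by
      refine (summable_wt_mul hQ hPY h hFt).tsum_le_tsum (fun η => ?_) (summable_wt hQ hPY h)
      exact mul_le_of_le_one_right (wt_pos _ _ _ _).le (hq1 _)
    have k3 : E * (∑' η, wt (Qfr J S) Y h η) ^ 2 ≤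
        (∑' η, wt (Qfr J S) Y h η * Real.exp (pr Y g (emb Y η))) *
          ∑' η, wt (Qfr J S) Y h η * Real.exp (-pr Y g (emb Y η)) := by
      have e1 : Ex (Qfr J S) Y h (fun ψ => Real.exp (Qfr J S (emb Y ψ - h) u)) =
          Real.exp (-Qfr J S h u) *
            ((∑' η, wt (Qfr J S) Y h η * Real.exp (pr Y g (emb Y η))) /
              ∑' η, wt (Qfr J S) Y h η) := by
        unfold Ex Th
        rw [← mul_div_assoc, ← tsum_mul_left]
        congr 1
        refine tsum_congr fun η => ?_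
        simp only []
        rw [hpr η, sub_eq_add_neg, Real.exp_add]
        ring
      have e2 : Ex (Qfr J S) Y h (fun ψ => Real.exp (-Qfr J S (emb Y ψ - h) u)) =
          Real.exp (Qfr J S h u) *
            ((∑' η, wt (Qfr J S) Y h η * Real.exp (-pr Y g (emb Y η))) /
              ∑' η, wt (Qfr J S) Y h η) := by
        unfold Ex Th
        rw [← mul_div_assoc, ← tsum_mul_left]
        congr 1
        refine tsum_congr fun η => ?_
        simp only []
        rw [hpr η, neg_sub, sub_eq_add_neg, Real.exp_add]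
        ring
      rw [e1, e2] at k2
      have e3 : Real.exp (-Qfr J S h u) *
            ((∑' η, wt (Qfr J S) Y h η * Real.exp (pr Y g (emb Y η))) /
              ∑' η, wt (Qfr J S) Y h η) * (Real.exp (Qfr J S h u) *
            ((∑' η, wt (Qfr J S) Y h η * Real.exp (-pr Y g (emb Y η))) /
              ∑' η, wt (Qfr J S) Y h η)) =
          ((∑' η, wt (Qfr J S) Y h η * Real.exp (pr Y g (emb Y η))) *
            ∑' η, wt (Qfr J S) Y h η * Real.exp (-pr Y g (emb Y η))) /
              (∑' η, wt (Qfr J S) Y h η) ^ 2 := by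
        rw [Real.exp_neg]
        have := (Real.exp_pos (Qfr J S h u)).ne'
        field_simp
      rw [e3, le_div_iff₀ (by positivity)] at k2
      exact k2
    have k4 := fib_ineq hz hA hB hAQ hs hE0 hQz k1 k3
    calc c * (∑' η, wt (Qfr J S) Y h η * F η)
        ≤ c * (1 / s * (∑' η, wt (Qfr J S) Y h η * (F η * Real.exp (pr Y g (emb Y η)))) +
          s / E * ∑' η, wt (Qfr J S) Y h η * Real.exp (-pr Y g (emb Y η))) :=
          mul_le_mul_of_nonneg_left k4 hc.le
      _ = _ := by ring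
  have r0 : Su M S f (fun ψ => q (emb S ψ)) =
      ∑' b : (S \ Y : Finset W) → ℤ, ∑' η : Y → ℤ, wt M S 0 (splitE hY (b, η)) *
          Real.exp (pr S (f + (0 : ℝ) • g) (emb S (splitE hY (b, η)))) *
            q (emb S (splitE hY (b, η))) := by
    rw [← tsum_split hY _ (hsum 0 _ hqt)]
    simp only [zero_smul, add_zero]
    rfl
  have r1 : Su M S (f + g) (fun ψ => q (emb S ψ)) =
      ∑' b : (S \ Y : Finset W) → ℤ, ∑' η : Y → ℤ, wt M S 0 (splitE hY (b, η)) *
          Real.exp (pr S (f + (1 : ℝ) • g) (emb S (splitE hY (b, η)))) *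
            q (emb S (splitE hY (b, η))) := by
    rw [← tsum_split hY _ (hsum 1 _ hqt)]
    simp only [one_smul]
    rfl
  have r2 : Su M S (f - g) (fun _ => 1) =
      ∑' b : (S \ Y : Finset W) → ℤ, ∑' η : Y → ℤ, wt M S 0 (splitE hY (b, η)) *
          Real.exp (pr S (f + (-1 : ℝ) • g) (emb S (splitE hY (b, η)))) * 1 := by
    rw [← tsum_split hY _ (hsum (-1) _ h1t)]
    simp only [neg_smul, one_smul, ← sub_eq_add_neg]
    rfl
  rw [r0, r1, r2, ← tsum_mul_left, ← tsum_mul_left, ← Summable.tsum_add]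
  · refine (summable_split hY _ (hsum 0 _ hqt)).tsum_le_tsum key ?_
    exact ((summable_split hY _ (hsum 1 _ hqt)).mul_left _).add
      ((summable_split hY _ (hsum (-1) _ h1t)).mul_left _)
  · exact (summable_split hY _ (hsum 1 _ hqt)).mul_left _
  · exact (summable_split hY _ (hsum (-1) _ h1t)).mul_left _

/-- 7.7 conditional FKG. -/
theorem _root_.Pool.Agent.LR.cond_fkg {J : W → W → ℝ} {N : BF W} {S Y : Finset W} (J0 : ∀ x y, 0 ≤ J x y)
    (hM : IsForm (Qfr J S + N)) (hP : PDef (Qfr J S + N) S) (hY : Y ⊆ S)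
    (hN : ∀ φ χ : W → ℝ, Supp Y φ → N φ χ = 0)
    {f g u : W → ℝ} (hf : ∀ x ∈ Y, f x = 0) (hg : ∀ x ∈ S, x ∉ Y → g x = 0)
    (hg0 : ∀ x ∈ Y, 0 ≤ g x) (hu : IsPot (Qfr J S) Y g u)
    (q : (W → ℝ) → ℝ) (hq0 : ∀ φ, 0 ≤ q φ) (hq1 : ∀ φ, q φ ≤ 1)
    (hq : ∀ φ φ' : W → ℝ, (∀ x ∈ S, φ x ≤ φ' x) → q φ ≤ q φ')
    {K : ℝ} (hK : 0 < K) :
    Et (Qfr J S + N) S f (fun ψ => q (emb S ψ)) ≤ 1 / K +
      K * Real.exp (La (Qfr J S + N) S (f + g) + La (Qfr J S + N) S (f - g)
          - 2 * La (Qfr J S + N) S f - (Qfr J S u u - 2 * En (Qfr J S) Y u)) *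
        Et (Qfr J S + N) S (f + g) (fun ψ => q (emb S ψ)) := by
  set M := Qfr J S + N with hMdef
  set G := Qfr J S u u - 2 * En (Qfr J S) Y u with hG
  set s := Real.exp (G - La M S (f - g) + La M S f) / K with hs
  have hs0 : 0 < s := by positivity
  have h := cond_fkg_su J0 hM hP hY hN hf hg hg0 hu q hq0 hq1 hq hs0
  rw [← hMdef, ← hG] at h
  have hT := Th_pos hM hP (0 : W → ℝ)
  unfold Et
  have e0 := Su_one hM hP f
  have e1 := Su_one hM hP (f + g)
  have e2 := Su_one hM hP (f - g)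
  rw [e0, e1]
  rw [e2] at h
  set X := Su M S (f + g) (fun ψ => q (emb S ψ))
  set T := Th M S 0
  rw [div_le_iff₀ (by positivity)]
  refine h.trans (le_of_eq ?_)
  have x0 : s / Real.exp G * (T * Real.exp (La M S (f - g))) =
      1 / K * (T * Real.exp (La M S f)) := by
    rw [hs, Real.exp_add, Real.exp_sub]
    have := (Real.exp_pos G).ne'
    have := (Real.exp_pos (La M S (f - g))).ne'
    field_simp
  have x1 : 1 / s * X = K * Real.exp (La M S (f + g) + La M S (f - g) - 2 * La M S f - G) *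
      (X / (T * Real.exp (La M S (f + g)))) * (T * Real.exp (La M S f)) := by
    have y1 : Real.exp (La M S (f + g) + La M S (f - g) - 2 * La M S f - G) =
        Real.exp (La M S (f + g)) * Real.exp (La M S (f - g)) /
          (Real.exp (La M S f) * Real.exp (La M S f)) / Real.exp G := by
      rw [Real.exp_sub, Real.exp_sub, Real.exp_add, two_mul, Real.exp_add]
    rw [hs, y1, Real.exp_add, Real.exp_sub]
    have := (Real.exp_pos G).ne'
    have := (Real.exp_pos (La M S (f - g))).ne'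
    have := (Real.exp_pos (La M S (f + g))).ne'
    have := (Real.exp_pos (La M S f)).ne'
    field_simp
  rw [x0, x1]
  ring

end Pool.Agent.LR.B7
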