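import Pool.Agent.LR.B6.Ratio
import Pool.Agent.LR.B1.Rest
import Pool.Agent.LR.B7.Fkg
import Pool.Agent.LR.B7.CrGeo
import Pool.Agent.LR.IDefs

/-! # 7.9: the numbers (helper94): `Λ` and dual norms of the charges -/

set_option autoImplicit false
set_option linter.unusedSectionVars false
set_option linter.unusedVariables false

noncomputable section

open scoped BigOperators Topology
open MeasureTheory Filter Set

namespace Pool.Agent.LR.Cr

section Gen

variable {W : Type*} [DecidableEq W] {M : BF W} {O : Finset W}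

theorem pot_close (hM : IsForm M) {q u h : W → ℝ} (hu : IsPot M O q u) (hh : Supp O h) {C : ℝ}
    (hC : 0 ≤ C) (hb : ∀ φ, |pr O q φ - M h φ| ≤ C * Real.sqrt (M φ φ)) :
    Real.sqrt (M (u - h) (u - h)) ≤ C := by
  have h1 := hb (u - h)
  have h2 : pr O q (u - h) - M h (u - h) = M (u - h) (u - h) := by
    rw [← hu.2 (u - h) (hu.1.sub hh)]
    simp only [map_sub, LinearMap.sub_apply]
    ring
  rw [h2] at h1
  have h3 := hM.nonneg (u - h)
  have h4 := Real.sq_sqrt h3
  have h5 := Real.sqrt_nonneg (M (u - h) (u - h))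
  rw [abs_of_nonneg h3] at h1
  by_contra hc
  rw [not_le] at hc
  have h6 : 0 < Real.sqrt (M (u - h) (u - h)) := lt_of_le_of_lt hC hc
  nlinarith

theorem abs_sqrt_sub (hM : IsForm M) (u h : W → ℝ) :
    |Real.sqrt (M u u) - Real.sqrt (M h h)| ≤ Real.sqrt (M (u - h) (u - h)) := by
  rw [abs_le]
  constructor
  · have := hM.tri u (h - u)
    have e : M (h - u) (h - u) = M (u - h) (u - h) := by
      rw [← neg_sub, neg_sq']
    rw [add_sub_cancel, e] at this
    linarith
  · have := hM.tri h (u - h)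
    rw [add_sub_cancel] at this
    linarith

theorem sq_close {X Y E C B : ℝ} (hX : 0 ≤ X) (hY : 0 ≤ Y) (hEB : E ≤ B) (hB : 0 ≤ B)
    (hC0 : 0 ≤ C) (hC1 : C ≤ 1) (h1 : |Real.sqrt X - Real.sqrt Y| ≤ C) (h2 : |Y - E| ≤ C) :
    |X - E| ≤ C * (2 * Real.sqrt (B + 1) + 2) := by
  have hY1 : Y ≤ B + 1 := by have := (abs_le.1 h2).2; linarith
  have sX := Real.sq_sqrt hX
  have sY := Real.sq_sqrt hY
  have nX := Real.sqrt_nonneg X
  have nY := Real.sqrt_nonneg Y
  have hsY : Real.sqrt Y ≤ Real.sqrt (B + 1) := Real.sqrt_le_sqrt hY1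
  have hXY : |X - Y| ≤ C * (2 * Real.sqrt (B + 1) + 1) := by
    have e : X - Y = (Real.sqrt X - Real.sqrt Y) * (Real.sqrt X + Real.sqrt Y) := by
      nlinarith
    rw [e, abs_mul, abs_of_nonneg (add_nonneg nX nY)]
    have h3 := (abs_le.1 h1).2
    refine mul_le_mul h1 ?_ (add_nonneg nX nY) hC0
    linarith
  have : X - E = (X - Y) + (Y - E) := by ring
  rw [this]
  refine (abs_add_le _ _).trans ?_
  nlinarith

end Gen

/-! ### Dirichlet integral of a sum with disjoint supports -/

theorem fderiv_zero_of_notMem {H : P → ℝ} {z : P} (hz : z ∉ tsupport H) : fderiv ℝ H z = 0 := by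
  have h : H =ᶠ[𝓝 z] fun _ => 0 := notMem_tsupport_iff_eventuallyEq.1 hz
  rw [h.fderiv_eq]
  simp

theorem continuous_gsq {H : P → ℝ} (hH : ContDiff ℝ 2 H) : Continuous (gsq H) := by
  have h1 : Continuous (fderiv ℝ H) := hH.continuous_fderiv (by norm_num)
  unfold gsq
  fun_prop

theorem integrable_gsq {H : P → ℝ} (hH : ContDiff ℝ 2 H) (hc : HasCompactSupport H) :
    Integrable (gsq H) := by
  refine (continuous_gsq hH).integrable_of_hasCompactSupport ?_
  refine HasCompactSupport.of_support_subset_isCompact hc.isCompact ?_ 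
  intro z hz
  by_contra h
  apply hz
  simp [gsq, fderiv_zero_of_notMem h]

theorem Dir_add {H G : P → ℝ} (hH : ContDiff ℝ 2 H) (hG : ContDiff ℝ 2 G)
    (hHc : HasCompactSupport H) (hGc : HasCompactSupport G)
    (hd : ∀ z, z ∈ tsupport H → z ∉ tsupport G) (x y : ℝ) :
    Dir (fun z => x * H z + y * G z) = x ^ 2 * Dir H + y ^ 2 * Dir G := by
  unfold Dir
  rw [← integral_const_mul, ← integral_const_mul, ← integral_add]
  · refine integral_congr_ae (Filter.Eventually.of_forall fun z => ?_)
    have dH : DifferentiableAt ℝ H z := (hH.differentiable (by norm_num)) z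
    have dG : DifferentiableAt ℝ G z := (hG.differentiable (by norm_num)) z
    have e : fderiv ℝ (fun z => x * H z + y * G z) z = x • fderiv ℝ H z + y • fderiv ℝ G z := by
      rw [fderiv_fun_add (dH.const_mul x) (dG.const_mul y), fderiv_const_mul dH,
        fderiv_const_mul dG]
    simp only [gsq, e]
    by_cases hz : z ∈ tsupport H
    · rw [fderiv_zero_of_notMem (hd z hz)]
      simp; ring
    · rw [fderiv_zero_of_notMem hz]
      simp; ring
  · exact (integrable_gsq hH hHc).const_mul _
  · exact (integrable_gsq hG hGc).const_mul _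

theorem Dir_nonneg (H : P → ℝ) : 0 ≤ Dir H :=
  integral_nonneg fun z => add_nonneg (sq_nonneg _) (sq_nonneg _)

end Pool.Agent.LR.Cr
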