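import Pool.Agent.LR.B7.CrStepB

/-! # 7.9: master inequality (helper94), single model -/

set_option autoImplicit false
set_option linter.unusedSectionVars false
set_option linter.unusedVariables false

noncomputable section

open scoped BigOperators Topology
open MeasureTheory Filter Set

namespace Pool.Agent.LR.Cr

variable {W : Type*} [DecidableEq W]
variable {J : W → W → ℝ} {N : BF W} {S R T : Finset W} {f g : W → ℝ}

/-- Bound of `P_{f+g}(C meets R)`. -/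
def bd2 (β₂ γ₂ θ η t ε₂ : ℝ) : ℝ :=
  2 * (Real.exp γ₂ * Real.sqrt ε₂) + Real.exp β₂ +
    Real.exp γ₂ * Real.sqrt ((Real.exp (η / 2 + θ) - 1 + 2 * ε₂) / (Real.exp t - 1))

/-- Bound of `P_f(A meets T)`. -/
def bd1 (β₁ γ₁ ε₁ K' α₂ b₂ : ℝ) : ℝ :=
  2 * (Real.exp γ₁ * Real.sqrt ε₁) + Real.exp β₁ + 2 * (1 / K' + K' * Real.exp α₂ * b₂)

/-- The master inequality. -/
theorem master (hM : Mod J N S) (hR : R ⊆ S) (hT : T ⊆ S) (hd : Disjoint R T)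
    {Y₁ Y₂ : Finset W} (hY₁ : Y₁ ⊆ S) (hY₂ : Y₂ ⊆ S)
    (hN₁ : ∀ φ χ : W → ℝ, Supp Y₁ φ → N φ χ = 0) (hN₂ : ∀ φ χ : W → ℝ, Supp Y₂ φ → N φ χ = 0)
    (hf : Supp Y₁ f) (hg : Supp Y₂ g) (f0 : ∀ x, 0 ≤ f x) (g0 : ∀ x, 0 ≤ g x)
    (hfY : ∀ x ∈ Y₂, f x = 0) {u₁ u₂ : W → ℝ} (hu₁ : IsPot (Qfr J S) Y₁ f u₁)
    (hu₂ : IsPot (Qfr J S) Y₂ g u₂) (s : W → W → Prop)
    {K K' α₁ α₂ β₁ β₂ γ₁ γ₂ θ η t ε₁ ε₂ B₁ B₂ : ℝ} (hK : 0 < K) (hK' : 0 < K') (hη : 0 ≤ η)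
    (ht : 0 < t)
    (cut₁ : ∀ A, A ⊆ S → (A ∩ T).Nonempty → Chn s (seeds S R 0) A →
      nsq (MM J N S) (S \ A) f ≤ B₁)
    (cut₂ : ∀ A, A ⊆ S → (A ∩ R).Nonempty → Chn s (seeds S ∅ f) A →
      nsq (MM J N S) (S \ A) g ≤ B₂)
    (a₁ : 2 * La (MM J N S) S f - (Qfr J S u₁ u₁ - 2 * En (Qfr J S) Y₁ u₁) ≤ α₁)
    (a₂ : La (MM J N S) S (f + g) + La (MM J N S) S (f - g) - 2 * La (MM J N S) S f -
        (Qfr J S u₂ u₂ - 2 * En (Qfr J S) Y₂ u₂) ≤ α₂)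
    (b₁ : 1 + 1 / 2 * (Real.sqrt B₁ + Real.sqrt η) ^ 2 - La (MM J N S) S f ≤ β₁)
    (b₂ : 1 + 1 / 2 * (Real.sqrt B₂ + Real.sqrt η) ^ 2 + La (MM J N S) S f -
        La (MM J N S) S (f + g) ≤ β₂)
    (c₁ : La (MM J N S) S ((2 : ℝ) • f) / 2 - La (MM J N S) S f ≤ γ₁)
    (c₂ : (La (MM J N S) S (f + (2 : ℝ) • g) + La (MM J N S) S f) / 2 -
        La (MM J N S) S (f + g) ≤ γ₂)
    (dθ : La (MM J N S) S (f + t • g) - La (MM J N S) S f ≤ θ)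
    (p₁ : PrA J N S R 0 0 (NC s (seeds S R 0)) ≤ ε₁)
    (q₁ : PrA J N S R 0 0 (FBad J N S s (seeds S R 0) η) ≤ ε₁)
    (p₂ : PrA J N S ∅ f f (NC s (seeds S ∅ f)) ≤ ε₂)
    (q₂ : PrA J N S ∅ f f (FBad J N S s (seeds S ∅ f) η) ≤ ε₂) :
    PrA J N S R 0 0 (hits T) ≤
      2 * (1 / K + K * Real.exp α₁ *
        bd1 β₁ γ₁ ε₁ K' α₂ (bd2 β₂ γ₂ θ η t ε₂)) := by
  have f0S : ∀ x ∈ S, 0 ≤ f x := fun x _ => f0 x
  have z0S : ∀ x ∈ S, (0 : ℝ) ≤ (0 : W → ℝ) x := fun x _ => le_rfl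
  have hFm := isF hM
  have hPd := hM.pd
  have hE1 : 1 ≤ Real.exp t - 1 + 1 := by have := Real.add_one_le_exp t; linarith
  have het : 0 < Real.exp t - 1 := by have := Real.add_one_le_exp t; linarith
  -- P_f(G3)
  have G3f : PrA J N S ∅ f f (fun A φ => (Chn s (seeds S ∅ f) A ∧ FbLe J N S η A (restr A φ)) ∧
      1 < pr A g φ) ≤ (Real.exp (η / 2 + θ) - 1 + 2 * ε₂) / (Real.exp t - 1) := by
    rw [le_div_iff₀ het]
    have h1 := step6 (g := g) hM f0S (fun x _ => g0 x) (Chn s (seeds S ∅ f)) (η := η) ht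
    have h2 := PrA_compl (J := J) (N := N) (S := S) (R := ∅) (f := f) (h := f)
      (P := fun A φ => Chn s (seeds S ∅ f) A ∧ FbLe J N S η A (restr A φ)) hM f0S
    have h3 : PrA J N S ∅ f f (fun A φ => ¬ (Chn s (seeds S ∅ f) A ∧
        FbLe J N S η A (restr A φ))) ≤ ε₂ + ε₂ := by
      refine le_trans (PrA_mono hM f0S (Q := fun A φ => NC s (seeds S ∅ f) A φ ∨
        FBad J N S s (seeds S ∅ f) η A φ) fun A _ ψ _ hp => ?_) ((PrA_or hM f0S).trans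
        (add_le_add p₂ q₂))
      by_cases h : Chn s (seeds S ∅ f) A
      · exact Or.inr ⟨h, fun h' => hp ⟨h, h'⟩⟩
      · exact Or.inl h
    have h4 : Real.exp (η / 2 + La (MM J N S) S (f + t • g) - La (MM J N S) S f) ≤
        Real.exp (η / 2 + θ) := Real.exp_le_exp.2 (by linarith)
    linarith
  -- Cauchy-Schwarz factors
  have cs2 : ∀ P : Finset W → (W → ℝ) → Prop, ∀ e : ℝ, PrA J N S ∅ f f P ≤ e →
      PrA J N S ∅ f (f + g) P ≤ Real.exp γ₂ * Real.sqrt e := fun P e he =>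
    (PrA_cs hM f0S f g).trans (mul_le_mul (Real.exp_le_exp.2 c₂) (Real.sqrt_le_sqrt he)
      (Real.sqrt_nonneg _) (Real.exp_pos _).le)
  have cs1 : ∀ P : Finset W → (W → ℝ) → Prop, ∀ e : ℝ, PrA J N S R 0 0 P ≤ e →
      PrA J N S R 0 f P ≤ Real.exp γ₁ * Real.sqrt e := fun P e he => by
    have h := PrA_cs (J := J) (N := N) (S := S) (R := R) (f := 0) (P := P) hM z0S 0 f
    rw [zero_add, zero_add, La_zero hFm hPd, add_zero] at h
    exact h.trans (mul_le_mul (Real.exp_le_exp.2 c₁) (Real.sqrt_le_sqrt he)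
      (Real.sqrt_nonneg _) (Real.exp_pos _).le)
  -- P_{f+g}(hits R)
  have H2 : PrA J N S ∅ f (f + g) (hits R) ≤ bd2 β₂ γ₂ θ η t ε₂ := by
    have h1 := split (R := ∅) hM f0S R (seeds S ∅ f) s η g (f + g)
    have h2 := ratio_bd (R := ∅) hM (Finset.empty_subset _) f0S R (seeds S ∅ f) s (η := η) g cut₂
    have h3 := cs2 _ _ p₂
    have h4 := cs2 _ _ q₂
    have h5 := cs2 _ _ G3f
    have h6 : Real.exp (1 + 1 / 2 * (Real.sqrt B₂ + Real.sqrt η) ^ 2 + La (MM J N S) S f -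
        La (MM J N S) S (f + g)) ≤ Real.exp β₂ := Real.exp_le_exp.2 b₂
    unfold bd2
    linarith
  -- E_f q'
  have H3 : Et (MM J N S) S f (fun ψ => qgh J S R f (emb S ψ)) ≤
      1 / K' + K' * Real.exp α₂ * bd2 β₂ γ₂ θ η t ε₂ := by
    have h1 := step4 (R := R) hM hR hY₂ hN₂ f0S hfY (fun x _ hx => hg x hx) (fun x _ => g0 x) hu₂ hK'
    refine h1.trans (add_le_add le_rfl ?_)
    have h2 : 0 ≤ PrA J N S ∅ f (f + g) (hits R) := PrA_nonneg hM f0S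
    exact mul_le_mul (mul_le_mul_of_nonneg_left (Real.exp_le_exp.2 a₂) hK'.le) H2 h2
      (by positivity)
  -- P_f(hits T)
  have H4 : PrA J N S R 0 f (hits T) ≤ bd1 β₁ γ₁ ε₁ K' α₂ (bd2 β₂ γ₂ θ η t ε₂) := by
    have h1 := split (R := R) hM z0S T (seeds S R 0) s η f f
    have h2 := ratio_bd (R := R) (f := 0) hM hR z0S T (seeds S R 0) s (η := η) f cut₁
    rw [zero_add, La_zero hFm hPd, add_zero] at h2
    have h3 := cs1 _ _ p₁
    have h4 := cs1 _ _ q₁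
    have h5 : PrA J N S R 0 f (fun A φ => (Chn s (seeds S R 0) A ∧
        FbLe J N S η A (restr A φ)) ∧ 1 < pr A f φ) ≤
        2 * (1 / K' + K' * Real.exp α₂ * bd2 β₂ γ₂ θ η t ε₂) :=
      (PrA_mono hM z0S fun A _ ψ _ hp => hp.2).trans
        ((step3 hM hR f0S).trans (mul_le_mul_of_nonneg_left H3 zero_le_two))
    have h6 : Real.exp (1 + 1 / 2 * (Real.sqrt B₁ + Real.sqrt η) ^ 2 -
        La (MM J N S) S f) ≤ Real.exp β₁ := Real.exp_le_exp.2 b₁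
    unfold bd1
    linarith
  have h1 := step0 hM hR hT hd
  have h2 := step1 hM hR hT hY₁ hN₁ (fun x _ hx => hf x hx) (fun x _ => f0 x) hu₁ hK
  have h3 := step2a hM hR hT f
  have h4 : K * Real.exp (2 * La (MM J N S) S f -
      (Qfr J S u₁ u₁ - 2 * En (Qfr J S) Y₁ u₁)) *
        Et (MM J N S) S f (fun ψ => qpos J S R T (emb S ψ)) ≤
      K * Real.exp α₁ * bd1 β₁ γ₁ ε₁ K' α₂ (bd2 β₂ γ₂ θ η t ε₂) :=
    mul_le_mul (mul_le_mul_of_nonneg_left (Real.exp_le_exp.2 a₁) hK.le) (h3.trans H4)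
      (Et_nonneg' hFm hPd f fun ψ => (qpos_mem hM.J0).1) (by positivity)
  linarith

end Pool.Agent.LR.Cr
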