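import Pool.Agent.LR.B7.CrLa
import Pool.Agent.LR.B5.Poinc
import Pool.Agent.LR.B3.QdSmp

/-! # 7.9: the numbers (helper94), asymptotics of `Λ` and of the dual norms -/

set_option autoImplicit false
set_option linter.unusedSectionVars false
set_option linter.unusedVariables false

noncomputable section

open scoped BigOperators Topology
open MeasureTheory Filter Set

namespace Pool.Agent.LR.Cr

/-- Profile data of the ring `a` at accuracy `η` (output of `profiles`). -/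
structure Prof (α β : ℝ) (z₀ : P) (ρ M δ c₂ C₁ : ℝ) (a : ℕ) (F : P → ℝ) (η : ℝ) (H : P → ℝ) :
    Prop where
  smooth : ContDiff ℝ 2 H
  comp : HasCompactSupport H
  nonneg : ∀ z, 0 ≤ H z
  supp : ∀ z ∈ tsupport H, a * ρ < lenP (z - z₀) ∧ lenP (z - z₀) < (a + 1) * ρ
  up : cc α β * Dir H ≤ C₁ * β
  low : c₂ * β ≤ cc α β * Dir H
  near : ∀ᶠ n : ℕ in atTop, ∀ φ : V → ℝ,
        |pr (SS z₀ ρ n) (chg F n) φ - MP α β z₀ ρ M δ n (smp H n) φ| ≤
          η * Real.sqrt (MP α β z₀ ρ M δ n φ φ)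
  cross : ∀ t : ℝ, t < 1 → ∀ᶠ n : ℕ in atTop, ∀ K : Finset V,
        (∃ x y, lenP (sc n x - z₀) ≤ a * ρ ∧ (a + 1) * ρ ≤ lenP (sc n y - z₀) ∧
          chainIn ((n : ℝ) ^ t) K x y) →
        ∀ φ : V → ℝ, (∀ x ∈ K, φ x = smp H n x) → c₂ * β ≤ MP α β z₀ ρ M δ n φ φ

variable {α β κ : ℝ} {z₀ : P} {ρ M δ : ℝ}

theorem mod_of_poinc (hβ : 0 < β) (hM : 0 ≤ M) {n : ℕ} (hn : 0 < n) {C : ℝ}
    (hp : ∀ φ : V → ℝ, (∑ x ∈ SS z₀ ρ n, φ x ^ 2) / (n : ℝ) ^ 2 ≤ C * MP α β z₀ ρ M δ n φ φ)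
    (hC : 0 < C) : Mod (JJ α β) (pinF z₀ ρ M δ n) (SS z₀ ρ n) where
  Js := JJ_symm α β
  J0 := JJ_nonneg hβ.le
  Nf := isForm_pinF z₀ ρ δ n hM
  pd := by
    intro f hf h0
    obtain ⟨x, hx⟩ := Function.ne_iff.1 h0
    have hxS : x ∈ SS z₀ ρ n := by
      by_contra h
      exact hx (hf x h)
    have hn' : (0 : ℝ) < n := by exact_mod_cast hn
    have h1 : 0 < ∑ y ∈ SS z₀ ρ n, f y ^ 2 :=
      Finset.sum_pos' (fun y _ => sq_nonneg _) ⟨x, hxS, by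
        have : f x ≠ 0 := hx
        positivity⟩
    have h2 : 0 < (∑ y ∈ SS z₀ ρ n, f y ^ 2) / (n : ℝ) ^ 2 := by positivity
    have h3 := lt_of_lt_of_le h2 (hp f)
    have h4 : MP α β z₀ ρ M δ n f f = (Qfr (JJ α β) (SS z₀ ρ n) + pinF z₀ ρ M δ n) f f := rfl
    rw [← h4]
    by_contra h5
    rw [not_lt] at h5
    nlinarith

/-- in the rings -/
def InR (z₀ : P) (ρ : ℝ) (z : P) : Prop :=
  (2 * ρ < lenP (z - z₀) ∧ lenP (z - z₀) < 3 * ρ) ∨ (4 * ρ < lenP (z - z₀) ∧ lenP (z - z₀) < 5 * ρ)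

theorem InR.lt (hρ : 0 < ρ) {z : P} (h : InR z₀ ρ z) : lenP (z - z₀) < 6 * ρ := by
  rcases h with h | h <;> nlinarith [h.2]

theorem smp_InR {H : P → ℝ} (hs : ∀ z ∈ tsupport H, InR z₀ ρ z) {n : ℕ} {x : V}
    (h : smp H n x ≠ 0) : InR z₀ ρ (sc n x) := hs _ (subset_tsupport _ h)

theorem supp_SS_smp (hρ : 0 < ρ) {H : P → ℝ} (hs : ∀ z ∈ tsupport H, InR z₀ ρ z) {n : ℕ}
    (hn : 0 < n) : Supp (SS z₀ ρ n) (smp H n) := by
  intro x hx
  by_contra h0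
  exact hx (mem_SS_of_lenP hn (((smp_InR hs h0).lt hρ).le.trans (by linarith)))

theorem mp_lim (hα : 4 < α) (hβ : 0 < β) (z₀ : P) (hρ : 0 < ρ) (hM : 1 ≤ M) (hδ : 0 < δ)
    (hδρ : δ ≤ ρ / 8) {H : P → ℝ} (hH : ContDiff ℝ 2 H) (hc : HasCompactSupport H)
    (hs : ∀ z ∈ tsupport H, InR z₀ ρ z) {ε : ℝ} (hε : 0 < ε) :
    ∀ᶠ n : ℕ in atTop,
      |MP α β z₀ ρ M δ n (smp H n) (smp H n) - cc α β * Dir H| ≤ ε := by
  obtain ⟨C, hC, hp⟩ := B5.poinc hα hβ z₀ hρ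
  have hp' := hp M δ hM hδ hδρ
  have hq := qd_smp hα hβ H hH hc (SS z₀ ρ)
    (by filter_upwards [eventually_gt_atTop 0] with n hn using supp_SS_smp hρ hs hn)
  set L := cc α β * Dir H with hL
  have hL1 : L < |L| + 1 := lt_of_le_of_lt (le_abs_self L) (by linarith)
  have hA : 0 < |L| + 1 := by positivity
  have hε' : 0 < ε / (2 * C * (|L| + 1)) := by positivity
  have hm := mass_small (z₀ := z₀) hα hβ hρ hε'
  have e1 : ∀ᶠ n in atTop, |QD α β (SS z₀ ρ n) (smp H n) (smp H n) - L| < ε / 2 := by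
    have := (Metric.tendsto_nhds.1 hq) (ε / 2) (by positivity)
    simpa only [Real.dist_eq] using this
  have e2 : ∀ᶠ n in atTop, QD α β (SS z₀ ρ n) (smp H n) (smp H n) < |L| + 1 :=
    hq.eventually_lt_const hL1
  filter_upwards [hp', hm, e1, e2, eventually_gt_atTop 0] with n h1 h2 h3 h4 hn
  have hpin : pinF z₀ ρ M δ n (smp H n) (smp H n) = 0 :=
    pinF_ring hρ hδ (fun x hx => smp_InR hs hx) _
  have hMP : MP α β z₀ ρ M δ n (smp H n) (smp H n) = QF α β (SS z₀ ρ n) (smp H n) (smp H n) := by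
    rw [MP_eq, LinearMap.add_apply, LinearMap.add_apply, hpin, add_zero]
    rfl
  have hQD : QD α β (SS z₀ ρ n) (smp H n) (smp H n) =
      QF α β (SS z₀ ρ n) (smp H n) (smp H n) +
        massF (SS z₀ ρ n) (kil α β (SS z₀ ρ n)) (smp H n) (smp H n) := rfl
  have hm0 : 0 ≤ massF (SS z₀ ρ n) (kil α β (SS z₀ ρ n)) (smp H n) (smp H n) :=
    (isForm_massF fun x _ => kil_nonneg hβ.le _ x).nonneg _
  have hm1 := h2 (smp H n) fun x hx => (smp_InR hs hx).lt hρ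
  have h5 := h1 (smp H n)
  have h6 : massF (SS z₀ ρ n) (kil α β (SS z₀ ρ n)) (smp H n) (smp H n) ≤ ε / 2 := by
    refine hm1.trans ?_
    have h7 : (∑ x ∈ SS z₀ ρ n, smp H n x ^ 2) / (n : ℝ) ^ 2 ≤ C * (|L| + 1) := by
      refine h5.trans (mul_le_mul_of_nonneg_left ?_ hC.le)
      rw [hMP]; linarith
    refine (mul_le_mul_of_nonneg_left h7 hε'.le).trans (le_of_eq ?_)
    field_simp
  rw [hMP]
  have h8 := abs_lt.1 h3
  rw [abs_le]
  constructor <;> linarith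

theorem pin_vanish (hδ : 0 < δ) (hρ : 0 < ρ) {H : P → ℝ} (hs : ∀ z ∈ tsupport H, InR z₀ ρ z) :
    ∀ i ∈ pin z₀ ρ δ, ∀ z ∈ cellP z₀ δ i, H z = 0 := by
  classical
  intro i hi z hz
  by_contra h0
  have h1 := hs z (subset_tsupport _ h0)
  have hi' : cellP z₀ δ i ⊆ shell z₀ ρ 1 ∨ cellP z₀ δ i ⊆ shell z₀ ρ 3 ∨
      cellP z₀ δ i ⊆ shell z₀ ρ 5 := by
    unfold pin at hi
    exact (Finset.mem_filter.1 hi).2
  rcases hi' with h | h | h <;> obtain ⟨h2, h3⟩ := h hz <;> push_cast at h2 h3 <;>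
    rcases h1 with h1 | h1 <;> nlinarith [h1.1, h1.2]

/-- The statement of 6.3 (exactness of the pinned model). -/
def ExactSpec (α β κ : ℝ) : Prop :=
  ∀ (z₀ : P) (ρ M δ : ℝ), 0 < ρ → 0 < M → 0 < δ → δ ≤ ρ / 8 →
    ∀ H : P → ℝ, ContDiff ℝ 2 H → HasCompactSupport H →
    (∀ z ∈ tsupport H, lenP (z - z₀) < 12 * ρ) →
    (∀ i ∈ pin z₀ ρ δ, ∀ z ∈ cellP z₀ δ i, H z = 0) →
    Tendsto (fun n => En (MP α β z₀ ρ M δ n) (SS z₀ ρ n) (smp H n)) atTop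
      (𝓝 (κ / 2 * Dir H))

theorem en_lim (hex : ExactSpec α β κ) (hα : 4 < α) (hβ : 0 < β) (hκ : KapSpec α β κ) (hlt : κ < cc α β) (z₀ : P)
    (hρ : 0 < ρ) (hM : 1 ≤ M) (hδ : 0 < δ)
    (hδρ : δ ≤ ρ / 8) {H : P → ℝ} (hH : ContDiff ℝ 2 H) (hc : HasCompactSupport H)
    (hs : ∀ z ∈ tsupport H, InR z₀ ρ z) {ε : ℝ} (hε : 0 < ε) :
    ∀ᶠ n : ℕ in atTop,
      |2 * En (MP α β z₀ ρ M δ n) (SS z₀ ρ n) (smp H n) - κ * Dir H| ≤ ε := by
  have h := hex z₀ ρ M δ hρ (by linarith : 0 < M) hδ hδρ H hH hc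
    (fun z hz => ((hs z hz).lt hρ).trans (by linarith)) (pin_vanish hδ hρ hs)
  have e1 := (Metric.tendsto_nhds.1 h) (ε / 2) (by positivity)
  filter_upwards [e1] with n hn
  rw [Real.dist_eq] at hn
  have h1 := abs_lt.1 hn
  rw [abs_le]
  constructor <;> linarith

variable {c₂ C₁ : ℝ} {F₂ F₄ : P → ℝ}

/-- Asymptotics of `Λ` and of the dual norm of the charge `x f + y g`. -/
theorem la_est (hex : ExactSpec α β κ) (hα : 4 < α) (hβ : 0 < β) (hκ : KapSpec α β κ) (hlt : κ < cc α β) (z₀ : P)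
    (hρ : 0 < ρ) (F₂ F₄ : P → ℝ) {C₁ : ℝ} (hC₁ : 0 < C₁) (c₂ : ℝ) (x y : ℝ) {ε : ℝ} (hε : 0 < ε) :
    ∃ η₀ > 0, ∀ η : ℝ, 0 < η → η ≤ η₀ → ∀ M δ : ℝ, 1 ≤ M → 0 < δ → δ ≤ ρ / 8 → ∀ H₂ H₄ : P → ℝ,
      Prof α β z₀ ρ M δ c₂ C₁ 2 F₂ η H₂ → Prof α β z₀ ρ M δ c₂ C₁ 4 F₄ η H₄ →
      ∀ᶠ n : ℕ in atTop,
        |nsq (MP α β z₀ ρ M δ n) (SS z₀ ρ n) (x • chg F₂ n + y • chg F₄ n) -
          (x ^ 2 * (cc α β * Dir H₂) + y ^ 2 * (cc α β * Dir H₄))| ≤ ε ∧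
        |La (MP α β z₀ ρ M δ n) (SS z₀ ρ n) (x • chg F₂ n + y • chg F₄ n) -
          (1 - κ / cc α β) / 2 *
            (x ^ 2 * (cc α β * Dir H₂) + y ^ 2 * (cc α β * Dir H₄))| ≤ ε := by
  have hcc : 0 < cc α β := lt_of_le_of_lt hκ.nonneg hlt
  set B : ℝ := x ^ 2 * (C₁ * β) + y ^ 2 * (C₁ * β) with hB
  have hB0 : 0 ≤ B := by positivity
  set Kc : ℝ := 2 * Real.sqrt (B + 1) + 2 with hKc
  have hKc0 : 0 < Kc := by positivity
  set s : ℝ := |x| + |y| + 1 with hs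
  have hs0 : 0 < s := by positivity
  refine ⟨min (1 / s) (ε / (Kc * s)), by positivity, fun η hη hηle M δ hM hδ hδρ H₂ H₄ P₂ P₄ => ?_⟩
  -- the accuracy
  set C : ℝ := s * η with hC
  have hC0 : 0 < C := by positivity
  have hC1 : C ≤ 1 := by
    have := hηle.trans (min_le_left _ _)
    calc C ≤ s * (1 / s) := mul_le_mul_of_nonneg_left this hs0.le
      _ = 1 := by field_simp
  have hC2 : C * Kc ≤ ε := by
    have := hηle.trans (min_le_right _ _)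
    calc C * Kc ≤ (s * (ε / (Kc * s))) * Kc :=
        mul_le_mul_of_nonneg_right (mul_le_mul_of_nonneg_left this hs0.le) hKc0.le
      _ = ε := by field_simp
  set H : P → ℝ := fun z => x * H₂ z + y * H₄ z with hH
  have hd : ∀ z, z ∈ tsupport H₂ → z ∉ tsupport H₄ := fun z h2 h4 => by
    have a1 := (P₂.supp z h2).2
    have a2 := (P₄.supp z h4).1
    push_cast at a1 a2
    nlinarith
  have hsup : ∀ z ∈ tsupport H, InR z₀ ρ z := fun z hz => by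
    by_contra hn
    have n2 : z ∉ tsupport H₂ := fun h => hn (Or.inl (by
      have := P₂.supp z h; push_cast at this; constructor <;> linarith [this.1, this.2]))
    have n4 : z ∉ tsupport H₄ := fun h => hn (Or.inr (by
      have := P₄.supp z h; push_cast at this; constructor <;> linarith [this.1, this.2]))
    have e2 := notMem_tsupport_iff_eventuallyEq.1 n2
    have e4 := notMem_tsupport_iff_eventuallyEq.1 n4
    have e : H =ᶠ[𝓝 z] 0 := by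
      filter_upwards [e2, e4] with w h2 h4
      simp only [hH, h2, h4, Pi.zero_apply, mul_zero, add_zero]
    exact (notMem_tsupport_iff_eventuallyEq.2 e) hz
  have hHs : ContDiff ℝ 2 H := by
    have h2 := P₂.smooth
    have h4 := P₄.smooth
    rw [hH]; fun_prop
  have hHc : HasCompactSupport H := by
    have h2 : HasCompactSupport (fun z => x * H₂ z) := P₂.comp.mul_left
    have h4 : HasCompactSupport (fun z => y * H₄ z) := P₄.comp.mul_left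
    exact h2.add h4
  have hDir : Dir H = x ^ 2 * Dir H₂ + y ^ 2 * Dir H₄ :=
    Dir_add P₂.smooth P₄.smooth P₂.comp P₄.comp hd x y
  set E : ℝ := x ^ 2 * (cc α β * Dir H₂) + y ^ 2 * (cc α β * Dir H₄) with hE
  have hE1 : cc α β * Dir H = E := by rw [hDir, hE]; ring
  have hEB : E ≤ B := add_le_add (mul_le_mul_of_nonneg_left P₂.up (sq_nonneg x))
    (mul_le_mul_of_nonneg_left P₄.up (sq_nonneg y))
  have hE0 : 0 ≤ E := by
    rw [← hE1]; exact mul_nonneg hcc.le (Dir_nonneg H)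
  have hE2 : κ * Dir H = κ / cc α β * E := by rw [← hE1]; field_simp
  have hκ1 : κ / cc α β ≤ 1 := (div_le_one hcc).2 hlt.le
  have hκ0 : 0 ≤ κ / cc α β := div_nonneg hκ.nonneg hcc.le
  obtain ⟨Cp, hCp, hp⟩ := B5.poinc hα hβ z₀ hρ
  filter_upwards [mp_lim hα hβ z₀ hρ hM hδ hδρ hHs hHc hsup hC0,
    en_lim hex hα hβ hκ hlt z₀ hρ hM hδ hδρ hHs hHc hsup hC0, P₂.near, P₄.near,
    hp M δ hM hδ hδρ, eventually_gt_atTop 0] with n h1 h2 h3 h4 h5 hn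
  have hMod := mod_of_poinc (δ := δ) hβ (by linarith : 0 ≤ M) hn h5 hCp
  have hF : IsForm (MP α β z₀ ρ M δ n) := by
    rw [MP_eq]
    exact (isForm_QF hβ.le _).add hMod.Nf
  have hPD : PDef (MP α β z₀ ρ M δ n) (SS z₀ ρ n) := hMod.pd
  obtain ⟨u, hu⟩ := exists_pot hF hPD (x • chg F₂ n + y • chg F₄ n)
  have hsm : smp H n = x • smp H₂ n + y • smp H₄ n := by
    funext v; simp [smp, hH]
  have hSupp : Supp (SS z₀ ρ n) (smp H n) := supp_SS_smp hρ hsup hn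
  have hclose : Real.sqrt (MP α β z₀ ρ M δ n (u - smp H n) (u - smp H n)) ≤ C := by
    refine pot_close hF hu hSupp hC0.le fun φ => ?_
    have e : pr (SS z₀ ρ n) (x • chg F₂ n + y • chg F₄ n) φ - MP α β z₀ ρ M δ n (smp H n) φ =
        x * (pr (SS z₀ ρ n) (chg F₂ n) φ - MP α β z₀ ρ M δ n (smp H₂ n) φ) +
        y * (pr (SS z₀ ρ n) (chg F₄ n) φ - MP α β z₀ ρ M δ n (smp H₄ n) φ) := by
      rw [hsm, pr_add_left, pr_smul_left, pr_smul_left]
      simp only [map_add, map_smul, LinearMap.add_apply, LinearMap.smul_apply, smul_eq_mul]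
      ring
    rw [e]
    refine (abs_add_le _ _).trans ?_
    rw [abs_mul, abs_mul]
    have r0 := Real.sqrt_nonneg (MP α β z₀ ρ M δ n φ φ)
    have m2 := mul_le_mul_of_nonneg_left (h3 φ) (abs_nonneg x)
    have m4 := mul_le_mul_of_nonneg_left (h4 φ) (abs_nonneg y)
    have : C * Real.sqrt (MP α β z₀ ρ M δ n φ φ) =
        |x| * (η * Real.sqrt (MP α β z₀ ρ M δ n φ φ)) +
        |y| * (η * Real.sqrt (MP α β z₀ ρ M δ n φ φ)) +
        η * Real.sqrt (MP α β z₀ ρ M δ n φ φ) := by rw [hC, hs]; ring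
    have : 0 ≤ η * Real.sqrt (MP α β z₀ ρ M δ n φ φ) := by positivity
    linarith
  have hnsq := hu.nsq_eq hF
  have hLa := La_eq hF hPD hu
  have b1 : |MP α β z₀ ρ M δ n u u - E| ≤ ε := by
    refine (sq_close (hF.nonneg _) (hF.nonneg (smp H n)) hEB hB0 hC0.le hC1
      ((abs_sqrt_sub hF u (smp H n)).trans hclose) ?_).trans hC2
    rw [← hE1]; exact h1
  have b2 : |2 * En (MP α β z₀ ρ M δ n) (SS z₀ ρ n) u - κ / cc α β * E| ≤ ε := by
    have hkE : κ / cc α β * E ≤ B := by nlinarith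
    refine (sq_close (mul_nonneg zero_le_two (En_nonneg hF hPD u))
      (mul_nonneg zero_le_two (En_nonneg hF hPD (smp H n))) hkE hB0 hC0.le hC1
      ((En_sqrt_lip hF hPD u (smp H n)).trans hclose) ?_).trans hC2
    rw [← hE2]; exact h2
  refine ⟨by rw [hnsq]; exact b1, ?_⟩
  rw [hLa, hnsq]
  have b1' := abs_le.1 b1
  have b2' := abs_le.1 b2
  rw [abs_le]
  constructor <;> linarith [b1'.1, b1'.2, b2'.1, b2'.2]

end Pool.Agent.LR.Cr
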