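import Pool.Agent.LR.B7.CrMaster

/-! # 7.9: choice of the constants (helper94) -/

set_option autoImplicit false
set_option linter.unusedSectionVars false
set_option linter.unusedVariables false

noncomputable section

open scoped BigOperators Topology
open MeasureTheory Filter Set

namespace Pool.Agent.LR.Cr

/-- small `exp` -/
theorem exists_exp_le {Y A B : ℝ} (hY : 0 < Y) (hA : 0 < A) (hB : 0 < B) :
    ∃ a > 0, A * Real.exp (3 - a ^ 2 * Y / 4) ≤ B := by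
  have h1 : Tendsto (fun a : ℝ => A * Real.exp (3 - a ^ 2 * Y / 4)) atTop (𝓝 (A * 0)) := by
    refine Tendsto.const_mul A (Real.tendsto_exp_atBot.comp ?_)
    have h2 : Tendsto (fun a : ℝ => a ^ 2 * Y / 4) atTop atTop := by
      have : Tendsto (fun a : ℝ => a ^ 2 * (Y / 4)) atTop atTop :=
        (tendsto_pow_atTop (by norm_num)).atTop_mul_const (by positivity)
      refine this.congr fun a => by ring
    exact tendsto_atBot_add_const_left _ 3 (tendsto_neg_atTop_atBot.comp h2)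
  rw [mul_zero] at h1
  have h3 := (h1.eventually_le_const hB).and (eventually_gt_atTop 0)
  obtain ⟨a, ha⟩ := h3.exists
  exact ⟨a, ha.2, ha.1⟩

/-- small square root -/
theorem exists_sqrt_le {A B : ℝ} (hA : 0 < A) (hB : 0 < B) :
    ∃ e > 0, A * Real.sqrt e ≤ B := by
  refine ⟨(B / A) ^ 2, by positivity, ?_⟩
  rw [Real.sqrt_sq (by positivity)]
  apply le_of_eq
  field_simp

theorem exp_sub_one_le {x : ℝ} (h0 : 0 ≤ x) (h1 : x ≤ 1) : Real.exp x - 1 ≤ 2 * x := by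
  have := Real.abs_exp_sub_one_le (x := x) (by rw [abs_of_nonneg h0]; exact h1)
  rw [abs_of_nonneg h0] at this
  exact (le_abs_self _).trans this

/-- The exponents. -/
def al (ε₀ X a : ℝ) : ℝ := ε₀ * (a ^ 2 * X) + 1
/-- The exponents. -/
def be (ε₀ X Y a : ℝ) : ℝ := 2 + 1 / 2 * (ε₀ * (a ^ 2 * X)) - 1 / 2 * (a ^ 2 * Y)
/-- The exponents. -/
def ga (X a : ℝ) : ℝ := a ^ 2 * X + 1
/-- The exponents. -/
def th (X b t e : ℝ) : ℝ := 1 / 2 * (t ^ 2 * (b ^ 2 * X)) + e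

theorem al_be {ε₀ X Y a : ℝ} (h : 6 * (ε₀ * X) ≤ Y) :
    al ε₀ X a + be ε₀ X Y a ≤ 3 - a ^ 2 * Y / 4 := by
  unfold al be
  nlinarith [mul_le_mul_of_nonneg_left h (sq_nonneg a)]

/-- Choice of the constants. -/
theorem params {ε₀ X Y η₀ : ℝ} (hX : 0 < X) (hY : 0 < Y) (h : 6 * (ε₀ * X) ≤ Y) (hη₀ : 0 < η₀) :
    ∃ K > 0, ∃ a > 0, ∃ ε₁ > 0, ∃ K' > 0, ∃ b > 0, ∃ t > 0, ∃ eθ > 0, ∃ η₁ > 0, ∃ ε₂ > 0,
      ∀ η : ℝ, 0 < η → η ≤ η₁ →
        2 * (1 / K + K * Real.exp (al ε₀ X a) * bd1 (be ε₀ X Y a) (ga X a) ε₁ K' (al ε₀ X b)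
          (bd2 (be ε₀ X Y b) (ga X b) (th X b t eθ) η t ε₂)) ≤ η₀ := by
  set K : ℝ := 8 / η₀ with hK
  have hK0 : 0 < K := by positivity
  obtain ⟨a, ha, h1⟩ := exists_exp_le hY (mul_pos two_pos hK0) (by positivity : 0 < η₀ / 8)
  set Ea : ℝ := Real.exp (al ε₀ X a) with hEa
  have hEa0 : 0 < Ea := Real.exp_pos _
  obtain ⟨ε₁, hε₁, h2⟩ := exists_sqrt_le (A := 4 * K * Ea * Real.exp (ga X a))
    (by positivity) (by positivity : 0 < η₀ / 8)
  set K' : ℝ := 32 * K * Ea / η₀ with hK'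
  have hK'0 : 0 < K' := by positivity
  obtain ⟨b, hb, h3⟩ := exists_exp_le hY (by positivity : 0 < 4 * K * Ea * K')
    (by positivity : 0 < η₀ / 8)
  set Eb : ℝ := Real.exp (al ε₀ X b) with hEb
  have hEb0 : 0 < Eb := Real.exp_pos _
  -- the last square root
  obtain ⟨q, hq, h4⟩ := exists_sqrt_le (A := 4 * K * Ea * K' * Eb * Real.exp (ga X b))
    (by positivity) (by positivity : 0 < η₀ / 8)
  set Z : ℝ := b ^ 2 * X with hZ
  have hZ0 : 0 < Z := by positivity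
  -- choose t
  set t : ℝ := min 1 (min (1 / (Z + 1)) (q / (2 * Z + 2))) with ht
  have ht0 : 0 < t := by positivity
  have ht1 : t ≤ 1 := min_le_left _ _
  have htZ : t * (Z + 1) ≤ 1 := by
    have : t ≤ 1 / (Z + 1) := (min_le_right _ _).trans (min_le_left _ _)
    rwa [le_div_iff₀ (by positivity)] at this
  have htq : t * (2 * Z + 2) ≤ q := by
    have : t ≤ q / (2 * Z + 2) := (min_le_right _ _).trans (min_le_right _ _)
    rwa [le_div_iff₀ (by positivity)] at this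
  have htZ2 : t ^ 2 * Z ≤ 1 := by nlinarith
  obtain ⟨ε₂', hε₂', h5⟩ := exists_sqrt_le (A := 8 * K * Ea * K' * Eb * Real.exp (ga X b))
    (by positivity) (by positivity : 0 < η₀ / 8)
  refine ⟨K, hK0, a, ha, ε₁, hε₁, K', hK'0, b, hb, t, ht0, 1 / 4 * (t ^ 2 * Z), by positivity,
    1 / 2 * (t ^ 2 * Z), by positivity, min ε₂' (t ^ 2), by positivity, fun η hη hηle => ?_⟩
  set ε₂ : ℝ := min ε₂' (t ^ 2) with hε₂
  have hε₂0 : 0 < ε₂ := by positivity
  have het : t ≤ Real.exp t - 1 := by have := Real.add_one_le_exp t; linarith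
  have het0 : 0 < Real.exp t - 1 := lt_of_lt_of_le ht0 het
  -- the quotient
  have hquo : (Real.exp (η / 2 + th X b t (1 / 4 * (t ^ 2 * Z))) - 1 + 2 * ε₂) /
      (Real.exp t - 1) ≤ q := by
    have k1 : η / 2 + th X b t (1 / 4 * (t ^ 2 * Z)) ≤ t ^ 2 * Z := by
      unfold th
      rw [← hZ]
      linarith
    have k2 : Real.exp (η / 2 + th X b t (1 / 4 * (t ^ 2 * Z))) - 1 ≤ 2 * (t ^ 2 * Z) :=
      (sub_le_sub_right (Real.exp_le_exp.2 k1) 1).trans (exp_sub_one_le (by positivity) htZ2)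
    have k3 : ε₂ ≤ t ^ 2 := min_le_right _ _
    have k4 : Real.exp (η / 2 + th X b t (1 / 4 * (t ^ 2 * Z))) - 1 + 2 * ε₂ ≤
        t * (t * (2 * Z + 2)) := by nlinarith
    rw [div_le_iff₀ het0]
    refine k4.trans ?_
    calc t * (t * (2 * Z + 2)) ≤ t * q := mul_le_mul_of_nonneg_left htq ht0.le
      _ ≤ (Real.exp t - 1) * q := mul_le_mul_of_nonneg_right het hq.le
      _ = q * (Real.exp t - 1) := by ring
  have hsq1 := Real.sqrt_le_sqrt hquo
  have hsq2 : Real.sqrt ε₂ ≤ Real.sqrt ε₂' := Real.sqrt_le_sqrt (min_le_left _ _)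
  -- term by term
  have T1 : 2 * (1 / K) = η₀ / 4 := by rw [hK]; field_simp; norm_num
  have T2 : 2 * K * (Ea * Real.exp (be ε₀ X Y a)) ≤ η₀ / 8 := by
    refine le_trans (mul_le_mul_of_nonneg_left ?_ (by positivity)) h1
    rw [hEa, ← Real.exp_add]
    exact Real.exp_le_exp.2 (al_be h)
  have T3 : 4 * K * Ea * Real.exp (ga X a) * Real.sqrt ε₁ ≤ η₀ / 8 := h2
  have T4 : 4 * K * Ea * (1 / K') = η₀ / 8 := by
    rw [hK']; field_simp; norm_num
  have T5 : 4 * K * Ea * K' * (Eb * Real.exp (be ε₀ X Y b)) ≤ η₀ / 8 := by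
    refine le_trans (mul_le_mul_of_nonneg_left ?_ (by positivity)) h3
    rw [hEb, ← Real.exp_add]
    exact Real.exp_le_exp.2 (al_be h)
  have T6 : 4 * K * Ea * K' * Eb * Real.exp (ga X b) * Real.sqrt
      ((Real.exp (η / 2 + th X b t (1 / 4 * (t ^ 2 * Z))) - 1 + 2 * ε₂) / (Real.exp t - 1)) ≤
      η₀ / 8 :=
    (mul_le_mul_of_nonneg_left hsq1 (by positivity)).trans h4
  have T7 : 8 * K * Ea * K' * Eb * Real.exp (ga X b) * Real.sqrt ε₂ ≤ η₀ / 8 :=
    (mul_le_mul_of_nonneg_left hsq2 (by positivity)).trans h5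
  have expand : 2 * (1 / K + K * Ea * bd1 (be ε₀ X Y a) (ga X a) ε₁ K' (al ε₀ X b)
      (bd2 (be ε₀ X Y b) (ga X b) (th X b t (1 / 4 * (t ^ 2 * Z))) η t ε₂)) =
      2 * (1 / K) + 2 * K * (Ea * Real.exp (be ε₀ X Y a)) +
      4 * K * Ea * Real.exp (ga X a) * Real.sqrt ε₁ + 4 * K * Ea * (1 / K') +
      4 * K * Ea * K' * (Eb * Real.exp (be ε₀ X Y b)) +
      4 * K * Ea * K' * Eb * Real.exp (ga X b) * Real.sqrt
        ((Real.exp (η / 2 + th X b t (1 / 4 * (t ^ 2 * Z))) - 1 + 2 * ε₂) / (Real.exp t - 1)) +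
      8 * K * Ea * K' * Eb * Real.exp (ga X b) * Real.sqrt ε₂ := by
    unfold bd1 bd2
    rw [← hEb]
    ring
  rw [expand]
  linarith

end Pool.Agent.LR.Cr
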