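import Pool.Agent.LR.B6.Ratio
import Pool.Agent.LR.B1.Rest
import Pool.Agent.LR.B7.Fkg

/-! # 7.9: single-model inequalities (helper94) -/

set_option autoImplicit false
set_option linter.unusedSectionVars false
set_option linter.unusedVariables false

noncomputable section

open scoped BigOperators Topology
open MeasureTheory Filter Set

namespace Pool.Agent.LR.Cr

variable {W : Type*} [DecidableEq W]

section Basic

variable {M : BF W} {O : Finset W}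

theorem Et_mono' (hM : IsForm M) (hP : PDef M O) (h : W → ℝ) {F G : (O → ℤ) → ℝ} (hF : Tame F)
    (hG : Tame G) (hle : ∀ ψ, F ψ ≤ G ψ) : Et M O h F ≤ Et M O h G := by
  obtain ⟨u, hu⟩ := exists_pot hM hP h
  rw [Et_eq_Ex hM hP hu, Et_eq_Ex hM hP hu]
  exact Ex_mono hM hP u hF hG hle

theorem Et_add' (hM : IsForm M) (hP : PDef M O) (h : W → ℝ) {F G : (O → ℤ) → ℝ} (hF : Tame F)
    (hG : Tame G) : Et M O h (fun ψ => F ψ + G ψ) = Et M O h F + Et M O h G := by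
  obtain ⟨u, hu⟩ := exists_pot hM hP h
  rw [Et_eq_Ex hM hP hu, Et_eq_Ex hM hP hu, Et_eq_Ex hM hP hu]
  exact Ex_add hM hP u hF hG

theorem Et_nonneg' (hM : IsForm M) (hP : PDef M O) (h : W → ℝ) {F : (O → ℤ) → ℝ}
    (hF : ∀ ψ, 0 ≤ F ψ) : 0 ≤ Et M O h F := by
  obtain ⟨u, hu⟩ := exists_pot hM hP h
  rw [Et_eq_Ex hM hP hu]
  exact Ex_nonneg _ _ u hF

theorem Et_const' (hM : IsForm M) (hP : PDef M O) (h : W → ℝ) (c : ℝ) :
    Et M O h (fun _ => c) = c := by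
  obtain ⟨u, hu⟩ := exists_pot hM hP h
  rw [Et_eq_Ex hM hP hu]
  exact Ex_const hM hP u c

theorem Et_le_one (hM : IsForm M) (hP : PDef M O) (h : W → ℝ) {F : (O → ℤ) → ℝ}
    (h0 : ∀ ψ, 0 ≤ F ψ) (h1 : ∀ ψ, F ψ ≤ 1) : Et M O h F ≤ 1 := by
  have := Et_mono' hM hP h (F := F) (G := fun _ => 1)
    (tame_bdd 1 (fun ψ => by rw [abs_of_nonneg (h0 ψ)]; exact h1 ψ)) (tame_const 1) h1
  rwa [Et_const' hM hP] at this

theorem Et_eq_div (hM : IsForm M) (hP : PDef M O) (f : W → ℝ) (F : (O → ℤ) → ℝ) :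
    Et M O f F = Ex M O 0 (fun ψ => Real.exp (pr O f (emb O ψ)) * F ψ) /
      Real.exp (La M O f) := by
  rw [Et_eq hM hP, Real.exp_neg, div_eq_mul_inv]
  congr 2
  funext ψ
  ring

/-- Symmetry. -/
theorem Et_zero_neg (f : W → ℝ) (F : (O → ℤ) → ℝ) :
    Et M O 0 (fun ψ => F (-ψ)) = Et M O 0 F := by
  unfold Et Su
  congr 1
  rw [← (Equiv.neg (O → ℤ)).tsum_eq (fun ψ => wt M O 0 ψ * Real.exp (pr O 0 (emb O ψ)) * F ψ)]
  refine tsum_congr fun ψ => ?_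
  simp only [Equiv.neg_apply, emb_neg, pr_zero_left, wt, sub_zero, map_neg, LinearMap.neg_apply,
    neg_neg]

/-- Cauchy-Schwarz for the passage between tilts. -/
theorem Et_cs (hM : IsForm M) (hP : PDef M O) (h k : W → ℝ) {X : (O → ℤ) → ℝ}
    (h0 : ∀ ψ, 0 ≤ X ψ) (h1 : ∀ ψ, X ψ ≤ 1) :
    Et M O (h + k) X ≤ Real.exp ((La M O (h + (2 : ℝ) • k) + La M O h) / 2 - La M O (h + k)) *
      Real.sqrt (Et M O h X) := by
  have hX : Tame X := tame_bdd 1 (fun ψ => by rw [abs_of_nonneg (h0 ψ)]; exact h1 ψ)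
  set F : (O → ℤ) → ℝ := fun ψ => Real.exp (pr O ((1 / 2 : ℝ) • (h + (2 : ℝ) • k)) (emb O ψ)) with hF
  set G : (O → ℤ) → ℝ := fun ψ => Real.exp (pr O ((1 / 2 : ℝ) • h) (emb O ψ)) * X ψ with hG
  have hcs := Ex_cs hM hP 0 (F := F) (G := G) (tame_exp_pr _) (Tame.mul (tame_exp_pr _) hX)
  have e1 : (fun ψ => F ψ * G ψ) = fun ψ : O → ℤ => Real.exp (pr O (h + k) (emb O ψ)) * X ψ := by
    funext ψ
    simp only [hF, hG]
    rw [← mul_assoc, ← Real.exp_add, ← pr_add_left]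
    congr 3
    module
  have e2 : (fun ψ => F ψ ^ 2) = fun ψ : O → ℤ => Real.exp (pr O (h + (2 : ℝ) • k) (emb O ψ)) := by
    funext ψ
    simp only [hF]
    rw [← Real.exp_nat_mul, pr_smul_left]
    congr 1
    push_cast; ring
  have e3 : Ex M O 0 (fun ψ => G ψ ^ 2) ≤ Ex M O 0 (fun ψ => Real.exp (pr O h (emb O ψ)) * X ψ) := by
    refine Ex_mono hM hP 0 (Tame.pow (Tame.mul (tame_exp_pr _) hX) 2) (Tame.mul (tame_exp_pr _) hX) fun ψ => ?_
    simp only [hG]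
    rw [mul_pow, ← Real.exp_nat_mul, pr_smul_left]
    have : ((2 : ℕ) : ℝ) * (1 / 2 * pr O h (emb O ψ)) = pr O h (emb O ψ) := by push_cast; ring
    rw [this]
    refine mul_le_mul_of_nonneg_left ?_ (Real.exp_pos _).le
    nlinarith [h0 ψ, h1 ψ]
  rw [e1, e2] at hcs
  set a := Ex M O 0 (fun ψ => Real.exp (pr O (h + k) (emb O ψ)) * X ψ) with ha
  set b := Ex M O 0 (fun ψ => Real.exp (pr O h (emb O ψ)) * X ψ) with hb
  have hb0 : 0 ≤ b := Ex_nonneg _ _ 0 fun ψ => mul_nonneg (Real.exp_pos _).le (h0 ψ)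
  have ha0 : 0 ≤ a := Ex_nonneg _ _ 0 fun ψ => mul_nonneg (Real.exp_pos _).le (h0 ψ)
  have h2 : a ^ 2 ≤ Real.exp (La M O (h + (2 : ℝ) • k)) * b := by
    rw [exp_La hM hP]
    exact hcs.trans (mul_le_mul_of_nonneg_left e3 (Ex_nonneg _ _ 0 fun ψ => (Real.exp_pos _).le))
  rw [Et_eq_div hM hP, Et_eq_div hM hP, div_le_iff₀ (Real.exp_pos _)]
  have h3 : a ≤ Real.sqrt (Real.exp (La M O (h + (2 : ℝ) • k)) * b) := Real.le_sqrt_of_sq_le h2
  refine h3.trans (le_of_eq ?_)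
  rw [Real.sqrt_mul (Real.exp_pos _).le, Real.sqrt_div' _ (Real.exp_pos _).le,
    Real.sqrt_eq_rpow (Real.exp _), Real.sqrt_eq_rpow (Real.exp (La M O h)), ← Real.exp_mul,
    ← Real.exp_mul]
  have : Real.exp ((La M O (h + (2 : ℝ) • k) + La M O h) / 2 - La M O (h + k)) =
      Real.exp (La M O (h + (2 : ℝ) • k) * (1 / 2)) * Real.exp (La M O h * (1 / 2)) /
        Real.exp (La M O (h + k)) := by
    rw [← Real.exp_add, ← Real.exp_sub]; congr 1; ring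
  rw [this]
  have p1 := (Real.exp_pos (La M O h * (1 / 2))).ne'
  have p2 := (Real.exp_pos (La M O (h + k))).ne'
  rw [← hb]
  field_simp

end Basic

/-! ### Events of the explored set and the field -/

open Classical in
/-- Probability of the event `P A φ` under the total tilt `h`. -/
def PrA (J : W → W → ℝ) (N : BF W) (S R : Finset W) (f h : W → ℝ)
    (P : Finset W → (W → ℝ) → Prop) : ℝ :=
  EtA J (MM J N S) S R f h (fun A φ => if P A φ then 1 else 0)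

open Classical in
/-- The conditional probability of the event given the field. -/
def XP (J : W → W → ℝ) (S R : Finset W) (f : W → ℝ) (P : Finset W → (W → ℝ) → Prop)
    (φ : W → ℝ) : ℝ :=
  ∑ A ∈ S.powerset, PA J S R f φ A * (if P A φ then 1 else 0)

variable {J : W → W → ℝ} {N : BF W} {S R T A : Finset W} {f g h l φ : W → ℝ}
  {P Q : Finset W → (W → ℝ) → Prop}

theorem PrA_eq (J : W → W → ℝ) (N : BF W) (S R : Finset W) (f h : W → ℝ)
    (P : Finset W → (W → ℝ) → Prop) :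
    PrA J N S R f h P = Et (MM J N S) S h (fun ψ => XP J S R f P (emb S ψ)) := rfl

theorem isF (hM : Mod J N S) : IsForm (MM J N S) := by
  have hQ : IsForm (Qfr J S) := by
    unfold Qfr
    refine IsForm.sum _ fun x _ => IsForm.sum _ fun y _ => isForm_rk ?_ _
    exact div_nonneg (hM.J0 x y) (by norm_num)
  exact hQ.add hM.Nf

theorem XP_nonneg (J0 : ∀ x y, 0 ≤ J x y) (f0 : ∀ x ∈ S, 0 ≤ f x) : 0 ≤ XP J S R f P φ := by
  classical
  unfold XP
  refine Finset.sum_nonneg fun A _ => mul_nonneg (PA_nonneg J0 f0) ?_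
  split_ifs <;> norm_num

theorem XP_le_one (J0 : ∀ x y, 0 ≤ J x y) (f0 : ∀ x ∈ S, 0 ≤ f x) : XP J S R f P φ ≤ 1 := by
  classical
  rw [← sum_PA (J := J) (S := S) (R := R) (f := f) (φ := φ)]
  unfold XP
  refine Finset.sum_le_sum fun A _ => ?_
  have := PA_nonneg (S := S) (R := R) (f := f) (φ := φ) (A := A) J0 f0
  split_ifs <;> simp [this]

theorem XP_mono (J0 : ∀ x y, 0 ≤ J x y) (f0 : ∀ x ∈ S, 0 ≤ f x)
    (h : ∀ A, A ⊆ S → PA J S R f φ A ≠ 0 → P A φ → Q A φ) : XP J S R f P φ ≤ XP J S R f Q φ := by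
  classical
  unfold XP
  refine Finset.sum_le_sum fun A hA => ?_
  by_cases h0 : PA J S R f φ A = 0
  · simp [h0]
  · have h1 := h A (Finset.mem_powerset.1 hA) h0
    refine mul_le_mul_of_nonneg_left ?_ (PA_nonneg J0 f0)
    by_cases hp : P A φ
    · simp [hp, h1 hp]
    · simp only [hp, if_false]; split_ifs <;> norm_num

theorem XP_or (J0 : ∀ x y, 0 ≤ J x y) (f0 : ∀ x ∈ S, 0 ≤ f x) :
    XP J S R f (fun A φ => P A φ ∨ Q A φ) φ ≤ XP J S R f P φ + XP J S R f Q φ := by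
  classical
  unfold XP
  rw [← Finset.sum_add_distrib]
  refine Finset.sum_le_sum fun A hA => ?_
  rw [← mul_add]
  refine mul_le_mul_of_nonneg_left ?_ (PA_nonneg J0 f0)
  by_cases hp : P A φ <;> by_cases hq : Q A φ <;> simp [hp, hq]

theorem tame_XP (J0 : ∀ x y, 0 ≤ J x y) (f0 : ∀ x ∈ S, 0 ≤ f x) :
    Tame (fun ψ : S → ℤ => XP J S R f P (emb S ψ)) :=
  tame_bdd 1 fun ψ => by rw [abs_of_nonneg (XP_nonneg J0 f0)]; exact XP_le_one J0 f0

theorem PrA_nonneg (hM : Mod J N S) (f0 : ∀ x ∈ S, 0 ≤ f x) : 0 ≤ PrA J N S R f h P :=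
  Et_nonneg' (isF hM) hM.pd h fun ψ => XP_nonneg hM.J0 f0

theorem PrA_le_one (hM : Mod J N S) (f0 : ∀ x ∈ S, 0 ≤ f x) : PrA J N S R f h P ≤ 1 :=
  Et_le_one (isF hM) hM.pd h (fun ψ => XP_nonneg hM.J0 f0) (fun ψ => XP_le_one hM.J0 f0)

theorem PrA_mono (hM : Mod J N S) (f0 : ∀ x ∈ S, 0 ≤ f x)
    (hPQ : ∀ A, A ⊆ S → ∀ ψ : S → ℤ, PA J S R f (emb S ψ) A ≠ 0 → P A (emb S ψ) → Q A (emb S ψ)) :
    PrA J N S R f h P ≤ PrA J N S R f h Q :=
  Et_mono' (isF hM) hM.pd h (tame_XP hM.J0 f0) (tame_XP hM.J0 f0) fun ψ =>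
    XP_mono hM.J0 f0 fun A hA h0 => hPQ A hA ψ h0

theorem PrA_or (hM : Mod J N S) (f0 : ∀ x ∈ S, 0 ≤ f x) :
    PrA J N S R f h (fun A φ => P A φ ∨ Q A φ) ≤ PrA J N S R f h P + PrA J N S R f h Q := by
  rw [PrA_eq, PrA_eq, PrA_eq, ← Et_add' (isF hM) hM.pd h (tame_XP hM.J0 f0) (tame_XP hM.J0 f0)]
  refine Et_mono' (isF hM) hM.pd h (tame_XP hM.J0 f0)
    (Tame.add (tame_XP hM.J0 f0) (tame_XP hM.J0 f0)) fun ψ => XP_or hM.J0 f0

theorem PrA_compl (hM : Mod J N S) (f0 : ∀ x ∈ S, 0 ≤ f x) :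
    1 ≤ PrA J N S R f h P + PrA J N S R f h (fun A φ => ¬ P A φ) := by
  have h1 : (1 : ℝ) = PrA J N S R f h (fun _ _ => True) := by
    classical
    rw [PrA_eq]
    have : (fun ψ : S → ℤ => XP J S R f (fun _ _ => True) (emb S ψ)) = fun _ => 1 := by
      funext ψ
      unfold XP
      simp only [if_true, mul_one]
      exact sum_PA
    rw [this, Et_const' (isF hM) hM.pd]
  rw [h1]
  refine le_trans ?_ (PrA_or hM f0)
  exact PrA_mono hM f0 fun A _ ψ _ _ => by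
    by_cases hp : P A (emb S ψ)
    · exact Or.inl hp
    · exact Or.inr hp

/-- Cauchy-Schwarz. -/
theorem PrA_cs (hM : Mod J N S) (f0 : ∀ x ∈ S, 0 ≤ f x) (h k : W → ℝ) :
    PrA J N S R f (h + k) P ≤
      Real.exp ((La (MM J N S) S (h + (2 : ℝ) • k) + La (MM J N S) S h) / 2 -
        La (MM J N S) S (h + k)) * Real.sqrt (PrA J N S R f h P) :=
  Et_cs (isF hM) hM.pd h k (fun ψ => XP_nonneg hM.J0 f0) (fun ψ => XP_le_one hM.J0 f0)

end Pool.Agent.LR.Cr
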