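import Pool.Agent.LR.B7.CrProb

/-! # 7.9: the six steps (helper94), single model -/

set_option autoImplicit false
set_option linter.unusedSectionVars false
set_option linter.unusedVariables false

noncomputable section

open scoped BigOperators Topology
open MeasureTheory Filter Set

namespace Pool.Agent.LR.Cr

variable {W : Type*} [DecidableEq W]
variable {J : W → W → ℝ} {N : BF W} {S R T A : Finset W} {f g h l φ : W → ℝ}
  {P Q : Finset W → (W → ℝ) → Prop}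

/-- the explored set meets `T` -/
def hits (T : Finset W) (A : Finset W) (_ : W → ℝ) : Prop := (A ∩ T).Nonempty

/-- step 0 -/
theorem step0 (hM : Mod J N S) (hR : R ⊆ S) (hT : T ⊆ S) (hd : Disjoint R T) :
    PrA J N S R 0 0 (hits T) ≤ 2 * Et (MM J N S) S 0 (fun ψ => qpos J S R T (emb S ψ)) := by
  classical
  have hb : ∀ F : (W → ℝ) → ℝ, (∀ φ, 0 ≤ F φ ∧ F φ ≤ 1) → Tame (fun ψ : S → ℤ => F (emb S ψ)) :=
    fun F hF => tame_bdd 1 fun ψ => by rw [abs_of_nonneg (hF _).1]; exact (hF _).2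
  have q1 : Tame (fun ψ : S → ℤ => qpos J S R T (emb S ψ)) := hb _ fun φ => qpos_mem hM.J0
  have q2 : Tame (fun ψ : S → ℤ => qpos J S R T (-emb S ψ)) :=
    hb (fun φ => qpos J S R T (-φ)) fun φ => qpos_mem hM.J0
  rw [PrA_eq]
  have h1 : Et (MM J N S) S 0 (fun ψ => qpos J S R T (-emb S ψ)) =
      Et (MM J N S) S 0 (fun ψ => qpos J S R T (emb S ψ)) := by
    rw [← Et_zero_neg (M := MM J N S) (O := S) (0 : W → ℝ) (fun ψ => qpos J S R T (emb S ψ))]
    congr 1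
    funext ψ
    rw [emb_neg]
  have h2 : Et (MM J N S) S 0 (fun ψ => XP J S R 0 (hits T) (emb S ψ)) ≤
      Et (MM J N S) S 0 (fun ψ => qpos J S R T (emb S ψ) + qpos J S R T (-emb S ψ)) := by
    refine Et_mono' (isF hM) hM.pd 0 (tame_XP hM.J0 fun x _ => le_rfl) (Tame.add q1 q2) fun ψ => ?_
    refine le_trans (le_of_eq ?_) (hit_le hM.J0 hR hT hd)
    unfold XP hits
    exact Finset.sum_congr rfl fun A _ => by congr
  rw [Et_add' (isF hM) hM.pd 0 q1 q2, h1] at h2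
  linarith

/-- step 1: 7.7 from tilt `0` to tilt `f` -/
theorem step1 (hM : Mod J N S) (hR : R ⊆ S) (hT : T ⊆ S) {Y : Finset W} (hY : Y ⊆ S)
    (hN : ∀ φ χ : W → ℝ, Supp Y φ → N φ χ = 0) {u : W → ℝ} (hf : ∀ x ∈ S, x ∉ Y → f x = 0)
    (hf0 : ∀ x ∈ Y, 0 ≤ f x) (hu : IsPot (Qfr J S) Y f u) {K : ℝ} (hK : 0 < K) :
    Et (MM J N S) S 0 (fun ψ => qpos J S R T (emb S ψ)) ≤ 1 / K + K * Real.exp
      (2 * La (MM J N S) S f - (Qfr J S u u - 2 * En (Qfr J S) Y u)) *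
        Et (MM J N S) S f (fun ψ => qpos J S R T (emb S ψ)) := by
  have := cond_fkg (J := J) (N := N) (S := S) (Y := Y) hM.J0 (isF hM) hM.pd hY hN (f := 0) (g := f)
    (u := u) (fun x _ => rfl) hf hf0 hu (fun φ => qpos J S R T φ) (fun φ => (qpos_mem hM.J0).1)
    (fun φ => (qpos_mem hM.J0).2) (fun φ φ' h => qpos_mono hM.J0 h) hK
  rw [zero_add, zero_sub, La_neg (isF hM) hM.pd, La_zero (isF hM) hM.pd] at this
  refine this.trans (le_of_eq ?_)
  congr 4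
  ring

/-- step 2a -/
theorem step2a (hM : Mod J N S) (hR : R ⊆ S) (hT : T ⊆ S) (f : W → ℝ) :
    Et (MM J N S) S f (fun ψ => qpos J S R T (emb S ψ)) ≤ PrA J N S R 0 f (hits T) := by
  classical
  rw [PrA_eq]
  refine Et_mono' (isF hM) hM.pd f (tame_bdd 1 fun ψ => ?_) (tame_XP hM.J0 fun x _ => le_rfl)
    fun ψ => ?_
  · rw [abs_of_nonneg (qpos_mem hM.J0).1]; exact (qpos_mem hM.J0).2
  · refine le_trans (qpos_le hM.J0 hR hT) (le_of_eq ?_)
    unfold XP hits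
    exact Finset.sum_congr rfl fun A _ => by congr

/-- step 3 -/
theorem step3 (hM : Mod J N S) (hR : R ⊆ S) (f0 : ∀ x ∈ S, 0 ≤ f x) :
    PrA J N S R 0 f (fun A φ => 1 < pr A f φ) ≤
      2 * Et (MM J N S) S f (fun ψ => qgh J S R f (emb S ψ)) := by
  classical
  have hq : Tame (fun ψ : S → ℤ => qgh J S R f (emb S ψ)) := tame_bdd 1 fun ψ => by
    rw [abs_of_nonneg (qgh_mem hM.J0 f0).1]; exact (qgh_mem hM.J0 f0).2
  have e2 : Real.exp (-2) ≤ 1 / 2 := by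
    have h1 : Real.exp (-2) = (Real.exp 2)⁻¹ := Real.exp_neg 2
    have h2 : (2 : ℝ) + 1 ≤ Real.exp 2 := Real.add_one_le_exp 2
    rw [h1, inv_le_comm₀ (Real.exp_pos _) (by norm_num)]
    norm_num; linarith
  have key : ∀ ψ : S → ℤ, XP J S R 0 (fun A φ => 1 < pr A f φ) (emb S ψ) ≤
      2 * qgh J S R f (emb S ψ) := fun ψ => by
    have h1 := big_le_qgh (J := J) (S := S) (R := R) (f := f) (φ := emb S ψ) hM.J0 f0 hR
    have h2 : XP J S R 0 (fun A φ => 1 < pr A f φ) (emb S ψ) =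
        ∑ A ∈ S.powerset, PA J S R 0 (emb S ψ) A * (if 1 < pr A f (emb S ψ) then 1 else 0) := by
      unfold XP
      exact Finset.sum_congr rfl fun A _ => by congr
    have h3 : 0 ≤ XP J S R 0 (fun A φ => 1 < pr A f φ) (emb S ψ) :=
      XP_nonneg hM.J0 fun x _ => le_rfl
    rw [← h2] at h1
    nlinarith
  rw [PrA_eq]
  have h4 := Et_mono' (isF hM) hM.pd f (tame_XP hM.J0 fun x _ => le_rfl) (Tame.smul hq 2) key
  refine h4.trans (le_of_eq ?_)
  obtain ⟨u, hu⟩ := exists_pot (isF hM) hM.pd f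
  rw [Et_eq_Ex (isF hM) hM.pd hu, Et_eq_Ex (isF hM) hM.pd hu, Ex_mul_left]

/-- step 4: 7.7 from tilt `f` to tilt `f + g` -/
theorem step4 (hM : Mod J N S) (hR : R ⊆ S) {Y : Finset W} (hY : Y ⊆ S)
    (hN : ∀ φ χ : W → ℝ, Supp Y φ → N φ χ = 0) {u : W → ℝ} (f0 : ∀ x ∈ S, 0 ≤ f x)
    (hfY : ∀ x ∈ Y, f x = 0) (hg : ∀ x ∈ S, x ∉ Y → g x = 0)
    (hg0 : ∀ x ∈ Y, 0 ≤ g x) (hu : IsPot (Qfr J S) Y g u) {K : ℝ} (hK : 0 < K) :
    Et (MM J N S) S f (fun ψ => qgh J S R f (emb S ψ)) ≤ 1 / K + K * Real.exp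
      (La (MM J N S) S (f + g) + La (MM J N S) S (f - g) - 2 * La (MM J N S) S f -
        (Qfr J S u u - 2 * En (Qfr J S) Y u)) *
        PrA J N S ∅ f (f + g) (hits R) := by
  classical
  have := cond_fkg (J := J) (N := N) (S := S) (Y := Y) hM.J0 (isF hM) hM.pd hY hN (f := f) (g := g)
    (u := u) hfY hg hg0 hu (fun φ => qgh J S R f φ) (fun φ => (qgh_mem hM.J0 f0).1)
    (fun φ => (qgh_mem hM.J0 f0).2) (fun φ φ' h => qgh_mono hM.J0 f0 h) hK
  refine this.trans (le_of_eq ?_)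
  congr 2
  rw [PrA_eq]
  congr 1
  funext ψ
  rw [← hit_eq_qgh hM.J0 f0 hR]
  unfold XP hits
  exact Finset.sum_congr rfl fun A _ => by congr

end Pool.Agent.LR.Cr
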