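import Pool.Agent.LR.B7.CrStep

/-! # 7.9: ratio bound and the bound of `P_f(ψ_C(g) > 1)` (helper94), single model -/

set_option autoImplicit false
set_option linter.unusedSectionVars false
set_option linter.unusedVariables false

noncomputable section

open scoped BigOperators Topology
open MeasureTheory Filter Set

namespace Pool.Agent.LR.Cr

variable {W : Type*} [DecidableEq W]
variable {J : W → W → ℝ} {N : BF W} {S R T A D : Finset W} {f g h l φ : W → ℝ}
  {P Q : Finset W → (W → ℝ) → Prop}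

/-- feedback at most `η` -/
def FbLe (J : W → W → ℝ) (N : BF W) (S : Finset W) (η : ℝ) (A : Finset W) (χ : W → ℝ) : Prop :=
  nsq (MM J N S) (S \ A) (fb N χ) ≤ η

/-- no chain -/
def NC (s : W → W → Prop) (D : Finset W) (A : Finset W) (_ : W → ℝ) : Prop := ¬ Chn s D A

/-- chain, but large feedback -/
def FBad (J : W → W → ℝ) (N : BF W) (S : Finset W) (s : W → W → Prop) (D : Finset W) (η : ℝ)
    (A : Finset W) (φ : W → ℝ) : Prop :=
  Chn s D A ∧ ¬ FbLe J N S η A (restr A φ)

theorem pr_restr (A : Finset W) (g φ : W → ℝ) : pr A g (restr A φ) = pr A g φ := by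
  unfold pr restr
  exact Finset.sum_congr rfl fun x hx => by simp [hx]

theorem restr_restr (A : Finset W) (φ : W → ℝ) : restr A (restr A φ) = restr A φ := by
  funext x; unfold restr; by_cases hx : x ∈ A <;> simp [hx]

theorem restr_emb (A : Finset W) (ψ : A → ℤ) : restr A (emb A ψ) = emb A ψ := by
  funext x
  by_cases hx : x ∈ A
  · simp [restr, hx]
  · simp [restr, hx, emb_apply_not hx]

theorem split (hM : Mod J N S) (f0 : ∀ x ∈ S, 0 ≤ f x) (T D : Finset W) (s : W → W → Prop) (η : ℝ)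
    (g h : W → ℝ) :
    PrA J N S R f h (hits T) ≤ PrA J N S R f h (NC s D) + PrA J N S R f h (FBad J N S s D η) +
      PrA J N S R f h (fun A φ => (A ∩ T).Nonempty ∧ Chn s D A ∧ FbLe J N S η A (restr A φ) ∧
        pr A g (restr A φ) ≤ 1) +
      PrA J N S R f h (fun A φ => (Chn s D A ∧ FbLe J N S η A (restr A φ)) ∧ 1 < pr A g φ) := by
  refine le_trans (PrA_mono hM f0 (Q := fun A φ => ((NC s D A φ ∨ FBad J N S s D η A φ) ∨
    ((A ∩ T).Nonempty ∧ Chn s D A ∧ FbLe J N S η A (restr A φ) ∧ pr A g (restr A φ) ≤ 1)) ∨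
    ((Chn s D A ∧ FbLe J N S η A (restr A φ)) ∧ 1 < pr A g φ)) fun A _ ψ _ hp => ?_) ?_
  · by_cases h1 : Chn s D A
    · by_cases h2 : FbLe J N S η A (restr A (emb S ψ))
      · by_cases h3 : 1 < pr A g (emb S ψ)
        · exact Or.inr ⟨⟨h1, h2⟩, h3⟩
        · exact Or.inl (Or.inr ⟨hp, h1, h2, by rw [pr_restr]; exact not_lt.1 h3⟩)
      · exact Or.inl (Or.inl (Or.inr ⟨h1, h2⟩))
    · exact Or.inl (Or.inl (Or.inl h1))
  · refine (PrA_or hM f0).trans (add_le_add_left ?_ _)
    refine (PrA_or hM f0).trans (add_le_add_left ?_ _)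
    exact PrA_or hM f0

/-- the ratio bound -/
theorem ratio_bd (hM : Mod J N S) (hR : R ⊆ S) (f0 : ∀ x ∈ S, 0 ≤ f x) (T D : Finset W)
    (s : W → W → Prop) {η Bd : ℝ} (g : W → ℝ)
    (hB : ∀ A, A ⊆ S → (A ∩ T).Nonempty → Chn s D A → nsq (MM J N S) (S \ A) g ≤ Bd) :
    PrA J N S R f (f + g) (fun A φ => (A ∩ T).Nonempty ∧ Chn s D A ∧
      FbLe J N S η A (restr A φ) ∧ pr A g (restr A φ) ≤ 1) ≤
      Real.exp (1 + 1 / 2 * (Real.sqrt Bd + Real.sqrt η) ^ 2 + La (MM J N S) S f -
        La (MM J N S) S (f + g)) := by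
  classical
  have key := expl_ratio (J := J) (N := N) (S := S) (R := R) (f := f) (g := g) hM hR f0
    (fun A χ => (A ∩ T).Nonempty ∧ Chn s D A ∧ FbLe J N S η A χ ∧ pr A g χ ≤ 1)
    (1 + 1 / 2 * (Real.sqrt Bd + Real.sqrt η) ^ 2) (fun A hA _ ψA hP => by
      obtain ⟨h1, h2, h3, h4⟩ := hP
      have hPD : PDef (MM J N S) (S \ A) := PDef.mono Finset.sdiff_subset hM.pd
      have h5 := nsq_add_le (isF hM) hPD g (fb N (emb A ψA))
      have h6 := nsq_nonneg (isF hM) hPD (g + fb N (emb A ψA))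
      have h7 : Real.sqrt (nsq (MM J N S) (S \ A) (g + fb N (emb A ψA))) ≤
          Real.sqrt Bd + Real.sqrt η :=
        h5.trans (add_le_add (Real.sqrt_le_sqrt (hB A hA h1 h2)) (Real.sqrt_le_sqrt h3))
      have h8 : nsq (MM J N S) (S \ A) (g + fb N (emb A ψA)) ≤
          (Real.sqrt Bd + Real.sqrt η) ^ 2 := by
        rw [← Real.sq_sqrt h6]
        exact pow_le_pow_left₀ (Real.sqrt_nonneg _) h7 2
      linarith)
  refine le_trans (le_of_eq ?_) key
  unfold PrA
  congr 1

/-- lower bound of the rest sum -/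
theorem SuR_low (hM : Mod J N S) (hA : A ⊆ S) (f0 : ∀ x ∈ S, 0 ≤ f x) (φA g : W → ℝ) :
    SuR J (MM J N S) N S f 0 A φA (fun _ => 1) ≤
      Real.exp (nsq (MM J N S) (S \ A) (fb N φA) / 2) *
        SuR J (MM J N S) N S f g A φA (fun _ => 1) := by
  rw [SuR_one, SuR_one, zero_add]
  have hPD := pd_rest (A := A) hM f0 φA
  have h1 := Su_le hM.form (hM.pdO A) (fb N φA) hPD
  have h2 := Su_zero_le hM.form (hM.pdO A) (g + fb N φA) hPD (fun ψ => (Frest_pos ψ).le)
  exact h1.trans (mul_le_mul_of_nonneg_left h2 (Real.exp_pos _).le)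

/-- step 6: exponential Chebyshev inequality for the explored part, base tilt `f` -/
theorem step6 (hM : Mod J N S) (f0 : ∀ x ∈ S, 0 ≤ f x) (g0 : ∀ x ∈ S, 0 ≤ g x)
    (Pc : Finset W → Prop) {η s : ℝ} (hs : 0 < s) :
    (Real.exp s - 1) * PrA J N S ∅ f f
        (fun A φ => (Pc A ∧ FbLe J N S η A (restr A φ)) ∧ 1 < pr A g φ) +
      PrA J N S ∅ f f (fun A φ => Pc A ∧ FbLe J N S η A (restr A φ)) ≤
    Real.exp (η / 2 + La (MM J N S) S (f + s • g) - La (MM J N S) S f) := by
  classical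
  set G : Finset W → (W → ℝ) → Prop := fun A χ => Pc A ∧ FbLe J N S η A χ with hG
  set Ξ : Finset W → (W → ℝ) → ℝ := fun A φ =>
    (if G A (restr A φ) then 1 else 0) * Real.exp (pr A (s • g) φ) with hΞ
  set Υ : Finset W → (W → ℝ) → ℝ := fun A φ =>
    Real.exp (η / 2) * (if G A (restr A φ) then 1 else 0) with hΥ
  have hb1 : ∀ A : Finset W, Adm S (fun φ => if G A (restr A φ) then (1 : ℝ) else 0) := fun A =>
    Adm.of_bdd (C := 1) fun φ => by split_ifs <;> simp
  have aΞ : ∀ A, A ⊆ S → Adm S (Ξ A) := fun A hA => Adm.mul (hb1 A) (Adm.exp_prA A (s • g))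
  have aΥ : ∀ A, A ⊆ S → Adm S (Υ A) := fun A hA => Adm.mul (Adm.const _) (hb1 A)
  -- restriction of a glued field
  have hre : ∀ (A : Finset W) (ψA : A → ℤ) (ψO : (S \ A : Finset W) → ℤ),
      restr A (emb A ψA + emb (S \ A) ψO) = emb A ψA := fun A ψA ψO => by
    funext x
    by_cases hx : x ∈ A
    · simp [restr, hx, emb_apply_not (O := S \ A) (ψ := ψO) (x := x) (by simp [hx])]
    · simp [restr, hx, emb_apply_not hx]
  have hprA : ∀ (A : Finset W) (ψA : A → ℤ) (ψO : (S \ A : Finset W) → ℤ) (k : W → ℝ),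
      pr A k (emb A ψA + emb (S \ A) ψO) = pr A k (emb A ψA) := fun A ψA ψO k => by
    rw [← pr_restr, hre]
  -- comparison
  have hcomp := SuA_comp (J := J) (N := N) (S := S) (R := ∅) (f := f) (g₁ := 0) (g₂ := s • g)
    (Ξ := Ξ) (Υ := Υ) hM (Finset.empty_subset _) f0 aΞ aΥ (fun A hA _ ψA => by
      have e1 : SuR J (MM J N S) N S f 0 A (emb A ψA) (Ξ A) =
          (if G A (emb A ψA) then 1 else 0) * Real.exp (pr A (s • g) (emb A ψA)) *
            SuR J (MM J N S) N S f 0 A (emb A ψA) (fun _ => 1) := by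
        unfold SuR Su
        rw [← tsum_mul_left]
        refine tsum_congr fun ψO => ?_
        simp only [hΞ, hre, hprA]
        ring
      have e2 : SuR J (MM J N S) N S f (s • g) A (emb A ψA) (Υ A) =
          Real.exp (η / 2) * (if G A (emb A ψA) then 1 else 0) *
            SuR J (MM J N S) N S f (s • g) A (emb A ψA) (fun _ => 1) := by
        unfold SuR Su
        rw [← tsum_mul_left]
        refine tsum_congr fun ψO => ?_
        simp only [hΥ, hre]
        ring
      rw [e1, e2, pr_zero_left, Real.exp_zero, one_mul]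
      by_cases hg' : G A (emb A ψA)
      · simp only [hg', if_true, one_mul, mul_one]
        have h1 := SuR_low hM hA f0 (emb A ψA) (s • g)
        have h2 : nsq (MM J N S) (S \ A) (fb N (emb A ψA)) ≤ η := hg'.2
        have h3 : 0 ≤ SuR J (MM J N S) N S f (s • g) A (emb A ψA) (fun _ => 1) := by
          unfold SuR Su
          refine tsum_nonneg fun ψO => ?_
          unfold wt Frest
          positivity
        have h4 : SuR J (MM J N S) N S f 0 A (emb A ψA) (fun _ => 1) ≤ Real.exp (η / 2) *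
            SuR J (MM J N S) N S f (s • g) A (emb A ψA) (fun _ => 1) := by
          refine h1.trans (mul_le_mul_of_nonneg_right (Real.exp_le_exp.2 ?_) h3)
          linarith
        exact mul_le_mul_of_nonneg_left h4 (Real.exp_pos _).le
      · simp [hg'])
  -- upper bound of the right hand side
  have hup : SuA J (MM J N S) S ∅ f (f + s • g) Υ ≤
      Real.exp (η / 2) * Su (MM J N S) S (f + s • g) (fun _ => 1) := by
    have h1 : SuA J (MM J N S) S ∅ f (f + s • g) Υ / Su (MM J N S) S (f + s • g) (fun _ => 1) ≤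
        Real.exp (η / 2) := by
      have h2 : EtA J (MM J N S) S ∅ f (f + s • g) Υ = Real.exp (η / 2) *
          PrA J N S ∅ f (f + s • g) (fun A φ => G A (restr A φ)) := by
        rw [PrA, ← EtA_const_mul]
        congr!
      have h3 : PrA J N S ∅ f (f + s • g) (fun A φ => G A (restr A φ)) ≤ 1 := PrA_le_one hM f0
      change EtA J (MM J N S) S ∅ f (f + s • g) Υ ≤ _
      rw [h2]
      calc _ ≤ Real.exp (η / 2) * 1 := mul_le_mul_of_nonneg_left h3 (Real.exp_pos _).le
        _ = _ := mul_one _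
    have h0 : 0 < Su (MM J N S) S (f + s • g) (fun _ => 1) := by
      rw [Su_eq_Ex (isF hM) hM.pd]
      simp only [one_mul]
      rw [← exp_La (isF hM) hM.pd]
      exact mul_pos (Th_pos (isF hM) hM.pd 0) (Real.exp_pos _)
    rwa [div_le_iff₀ h0] at h1
  -- lower bound of the left hand side
  have hZ : ∀ k : W → ℝ, Su (MM J N S) S k (fun _ => 1) =
      Th (MM J N S) S 0 * Real.exp (La (MM J N S) S k) := fun k => by
    rw [Su_eq_Ex (isF hM) hM.pd]
    simp only [one_mul]
    rw [← exp_La (isF hM) hM.pd]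
  have hT0 := Th_pos (isF hM) hM.pd (0 : W → ℝ)
  have hmain : EtA J (MM J N S) S ∅ f f Ξ ≤
      Real.exp (η / 2 + La (MM J N S) S (f + s • g) - La (MM J N S) S f) := by
    have h1 : SuA J (MM J N S) S ∅ f f Ξ ≤
        Real.exp (η / 2) * Su (MM J N S) S (f + s • g) (fun _ => 1) := by
      have := hcomp.trans hup
      rwa [add_zero] at this
    unfold EtA
    rw [hZ] at h1
    rw [hZ f, div_le_iff₀ (mul_pos hT0 (Real.exp_pos _))]
    refine h1.trans (le_of_eq ?_)
    have : Real.exp (η / 2 + La (MM J N S) S (f + s • g) - La (MM J N S) S f) =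
        Real.exp (η / 2) * Real.exp (La (MM J N S) S (f + s • g)) /
          Real.exp (La (MM J N S) S f) := by
      rw [← Real.exp_add, ← Real.exp_sub]
    rw [this]
    have p2 := (Real.exp_pos (La (MM J N S) S f)).ne'
    field_simp
  refine le_trans ?_ hmain
  have hcl : (Real.exp s - 1) * PrA J N S ∅ f f
        (fun A φ => (Pc A ∧ FbLe J N S η A (restr A φ)) ∧ 1 < pr A g φ) +
      PrA J N S ∅ f f (fun A φ => Pc A ∧ FbLe J N S η A (restr A φ)) =
      EtA J (MM J N S) S ∅ f f (fun A φ => (Real.exp s - 1) *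
        (if (Pc A ∧ FbLe J N S η A (restr A φ)) ∧ 1 < pr A g φ then 1 else 0) +
        (if G A (restr A φ) then 1 else 0)) := by
    rw [EtA_add hM f0 (fun A hA => Adm.mul (Adm.const _) (Adm.of_bdd (C := 1) fun φ => by
      split_ifs <;> simp)) (fun A hA => hb1 A), EtA_const_mul]
    unfold PrA
    congr!
  rw [hcl]
  refine EtA_mono hM f0 (fun A hA => Adm.add (Adm.mul (Adm.const _) (Adm.of_bdd (C := 1) fun φ => by
      split_ifs <;> simp)) (hb1 A)) aΞ fun A hA ψ hPA => ?_
  have hpos := PA_pos hM.J0 f0 hPA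
  have hpr : 0 ≤ pr A (s • g) (emb S ψ) := by
    unfold pr
    exact Finset.sum_nonneg fun x hx => mul_nonneg (by
      simpa using mul_nonneg hs.le (g0 x (hA hx))) (hpos x hx).le
  by_cases hG' : G A (restr A (emb S ψ))
  · have hG'' : Pc A ∧ FbLe J N S η A (restr A (emb S ψ)) := hG'
    by_cases h1 : 1 < pr A g (emb S ψ)
    · simp only [hΞ, hG', hG'', h1, if_true, and_self, mul_one, one_mul]
      have : s ≤ pr A (s • g) (emb S ψ) := by
        rw [pr_smul_left]; nlinarith
      have := Real.exp_le_exp.2 this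
      linarith
    · simp only [hΞ, hG', h1, if_true, and_false, if_false, mul_zero, zero_add, one_mul]
      exact Real.one_le_exp hpr
  · have hG'' : ¬ (Pc A ∧ FbLe J N S η A (restr A (emb S ψ))) := hG'
    simp only [hΞ, hG', hG'', false_and, if_false, mul_zero, zero_mul, add_zero, le_refl]

end Pool.Agent.LR.Cr
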