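import Pool.Agent.LR.B7.CrFin
import Pool.Agent.LR.B5.Profiles
import Pool.Agent.LR.B4.Exact

/-! # 7.9: the crossing estimate (helper94) -/

set_option autoImplicit false
set_option linter.unusedSectionVars false
set_option linter.unusedVariables false

noncomputable section

open scoped BigOperators Topology
open MeasureTheory Filter Set

namespace Pool.Agent.LR

namespace Cr

open Classical in
theorem PrA_NC {W : Type*} [DecidableEq W] {J : W → W → ℝ} {N : BF W} {S R : Finset W}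
    {f h : W → ℝ} (s : W → W → Prop) (D : Finset W) :
    PrA J N S R f h (NC s D) =
      EtA J (MM J N S) S R f h (fun A _ => if Chn s D A then 0 else 1) := by
  unfold PrA NC
  congr 1
  funext A φ
  by_cases hc : Chn s D A <;> simp [hc]

open Classical in
theorem PrA_FBad {W : Type*} [DecidableEq W] {J : W → W → ℝ} {N : BF W} {S R : Finset W}
    {f h : W → ℝ} (s : W → W → Prop) (D : Finset W) (η : ℝ) :
    PrA J N S R f h (FBad J N S s D η) =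
      EtA J (MM J N S) S R f h (fun A φ => if Chn s D A ∧
        η < nsq (MM J N S) (S \ A) (fb N (restr A φ)) then 1 else 0) := by
  unfold PrA FBad FbLe
  congr 1
  funext A φ
  by_cases hc : Chn s D A <;>
    by_cases hd : η < nsq (MM J N S) (S \ A) (fb N (restr A φ)) <;> simp [hc, hd, not_le.2, not_lt.1]

/-- crossing of the first ring -/
theorem cut1_of {z₀ : P} {ρ : ℝ} (hρ : 0 < ρ) {n : ℕ} {tt B : ℝ} {Φ : Finset V → ℝ}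
    (e : ∀ A : Finset V, (∃ v w, lenP (sc n v - z₀) ≤ ((2 : ℕ) : ℝ) * ρ ∧
      (((2 : ℕ) : ℝ) + 1) * ρ ≤ lenP (sc n w - z₀) ∧ chainIn ((n : ℝ) ^ tt) A v w) → Φ A ≤ B)
    (A : Finset V) (hAT : (A ∩ inR z₀ ρ n).Nonempty)
    (hC : Chn (fun u v => len (u - v) ≤ (n : ℝ) ^ tt) (seeds (SS z₀ ρ n) (outR z₀ ρ n) 0) A) :
    Φ A ≤ B := by
  obtain ⟨x, hx⟩ := hAT
  rw [Finset.mem_inter] at hx
  obtain ⟨y, hyA, hyD, hch⟩ := hC x hx.1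
  have hyR : y ∈ outR z₀ ρ n := by
    unfold seeds at hyD
    rcases Finset.mem_union.1 hyD with h | h
    · exact h
    · exact absurd rfl (Finset.mem_filter.1 h).2
  have h1 := (Finset.mem_filter.1 hx.2).2
  have h2 := (Finset.mem_filter.1 hyR).2
  have hch' : chainIn ((n : ℝ) ^ tt) A y x := hch
  refine e A ⟨x, y, ?_, ?_, B5.chain_symm hch'⟩
  · push_cast; exact h1
  · push_cast; nlinarith

/-- crossing of the second ring -/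
theorem cut2_of {z₀ : P} {ρ : ℝ} (hρ : 0 < ρ) {n : ℕ} {tt B : ℝ} {Φ : Finset V → ℝ} {f : V → ℝ}
    (hf : Supp (ringL z₀ ρ 2 n) f)
    (e : ∀ A : Finset V, (∃ v w, lenP (sc n v - z₀) ≤ ((4 : ℕ) : ℝ) * ρ ∧
      (((4 : ℕ) : ℝ) + 1) * ρ ≤ lenP (sc n w - z₀) ∧ chainIn ((n : ℝ) ^ tt) A v w) → Φ A ≤ B)
    (A : Finset V) (hAT : (A ∩ outR z₀ ρ n).Nonempty)
    (hC : Chn (fun u v => len (u - v) ≤ (n : ℝ) ^ tt) (seeds (SS z₀ ρ n) ∅ f) A) :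
    Φ A ≤ B := by
  obtain ⟨x, hx⟩ := hAT
  rw [Finset.mem_inter] at hx
  obtain ⟨y, hyA, hyD, hch⟩ := hC x hx.1
  have hyf : f y ≠ 0 := by
    unfold seeds at hyD
    rw [Finset.empty_union] at hyD
    exact (Finset.mem_filter.1 hyD).2
  have hyr : y ∈ ringL z₀ ρ 2 n := by
    by_contra hc
    exact hyf (hf y hc)
  have h1 := (Finset.mem_filter.1 hx.2).2
  have h2 := (mem_ringL.1 hyr).2.2
  push_cast at h2
  refine e A ⟨y, x, ?_, ?_, hch⟩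
  · push_cast; nlinarith
  · push_cast; linarith

open Classical in
/-- everything at fixed `n` -/
theorem final_n {α β κ : ℝ} (hα : 4 < α) (hβ : 0 < β) (hκ : KapSpec α β κ) (hlt : κ < cc α β)
    {ε₀ : ℝ} (hkap : κ ≤ ε₀ * cc α β) {z₀ : P} {ρ M δ : ℝ} (hρ : 0 < ρ) {n : ℕ} (hn : 0 < n)
    (hδ : 0 < δ) {C₁ c₂ : ℝ} (hY0 : 0 < c₂ * β) (hε₀ : 0 ≤ ε₀) {F₂ F₄ H₂ H₄ : P → ℝ}
    (F20 : ∀ z, 0 ≤ F₂ z)
    (F2r : ∀ z, F₂ z ≠ 0 → (((2 : ℕ) : ℝ) + 1 / 4) * ρ < lenP (z - z₀) ∧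
      lenP (z - z₀) < (((2 : ℕ) : ℝ) + 3 / 4) * ρ)
    (F40 : ∀ z, 0 ≤ F₄ z)
    (F4r : ∀ z, F₄ z ≠ 0 → (((4 : ℕ) : ℝ) + 1 / 4) * ρ < lenP (z - z₀) ∧
      lenP (z - z₀) < (((4 : ℕ) : ℝ) + 3 / 4) * ρ) {w : ℝ}
    (P₂ : Prof α β z₀ ρ M δ c₂ C₁ 2 F₂ w H₂) (P₄ : Prof α β z₀ ρ M δ c₂ C₁ 4 F₄ w H₄)
    (hMod : Mod (JJ α β) (pinF z₀ ρ M δ n) (SS z₀ ρ n))
    {K K' a b t η ε₁ ε₂ e eθ Bb η₀ tt : ℝ} (hK : 0 < K) (hK' : 0 < K') (hη : 0 < η)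
    (ha : 0 ≤ a) (hb : 0 ≤ b) (ht : 0 < t) (he0 : 0 < e) (he8 : e ≤ 1 / 8)
    (heθ : 2 * e ≤ eθ) (hBb : a ^ 2 * (C₁ * β) + b ^ 2 * (C₁ * β) + 1 ≤ Bb)
    (hηB : η ≤ 1 / (16 * (Bb + 1)))
    (e₁ : |La (MP α β z₀ ρ M δ n) (SS z₀ ρ n) (a • chg F₂ n + (0 : ℝ) • chg F₄ n) -
      (1 - κ / cc α β) / 2 * (a ^ 2 * (cc α β * Dir H₂) + 0 ^ 2 * (cc α β * Dir H₄))| ≤ e)
    (e₂ : |La (MP α β z₀ ρ M δ n) (SS z₀ ρ n) ((2 * a) • chg F₂ n + (0 : ℝ) • chg F₄ n) -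
      (1 - κ / cc α β) / 2 * ((2 * a) ^ 2 * (cc α β * Dir H₂) + 0 ^ 2 * (cc α β * Dir H₄))| ≤ e)
    (e₃ : |La (MP α β z₀ ρ M δ n) (SS z₀ ρ n) (a • chg F₂ n + b • chg F₄ n) -
      (1 - κ / cc α β) / 2 * (a ^ 2 * (cc α β * Dir H₂) + b ^ 2 * (cc α β * Dir H₄))| ≤ e)
    (e₄ : |La (MP α β z₀ ρ M δ n) (SS z₀ ρ n) (a • chg F₂ n + (-b) • chg F₄ n) -
      (1 - κ / cc α β) / 2 * (a ^ 2 * (cc α β * Dir H₂) + (-b) ^ 2 * (cc α β * Dir H₄))| ≤ e)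
    (e₅ : |La (MP α β z₀ ρ M δ n) (SS z₀ ρ n) (a • chg F₂ n + (2 * b) • chg F₄ n) -
      (1 - κ / cc α β) / 2 * (a ^ 2 * (cc α β * Dir H₂) + (2 * b) ^ 2 * (cc α β * Dir H₄))| ≤ e)
    (e₆ : |La (MP α β z₀ ρ M δ n) (SS z₀ ρ n) (a • chg F₂ n + (t * b) • chg F₄ n) -
      (1 - κ / cc α β) / 2 * (a ^ 2 * (cc α β * Dir H₂) + (t * b) ^ 2 * (cc α β * Dir H₄))| ≤ e)
    (e₇ : ∀ u : V → ℝ, IsPot (QF α β (SS z₀ ρ n)) (ringL z₀ ρ 2 n) (a • chg F₂ n) u →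
        (1 - ε₀) * (a ^ 2 * (cc α β * Dir H₂)) - e ≤
          QF α β (SS z₀ ρ n) u u - 2 * En (QF α β (SS z₀ ρ n)) (ringL z₀ ρ 2 n) u)
    (e₈ : ∀ u : V → ℝ, IsPot (QF α β (SS z₀ ρ n)) (ringL z₀ ρ 4 n) (b • chg F₄ n) u →
        (1 - ε₀) * (b ^ 2 * (cc α β * Dir H₄)) - e ≤
          QF α β (SS z₀ ρ n) u u - 2 * En (QF α β (SS z₀ ρ n)) (ringL z₀ ρ 4 n) u)
    (e₉ : ∀ A : Finset V,
        (∃ v w, lenP (sc n v - z₀) ≤ ((2 : ℕ) : ℝ) * ρ ∧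
          (((2 : ℕ) : ℝ) + 1) * ρ ≤ lenP (sc n w - z₀) ∧ chainIn ((n : ℝ) ^ tt) A v w) →
        nsq (MP α β z₀ ρ M δ n) (SS z₀ ρ n \ A) (a • chg F₂ n) ≤
          a ^ 2 * (cc α β * Dir H₂ - c₂ * β) + e)
    (e₀ : ∀ A : Finset V,
        (∃ v w, lenP (sc n v - z₀) ≤ ((4 : ℕ) : ℝ) * ρ ∧
          (((4 : ℕ) : ℝ) + 1) * ρ ≤ lenP (sc n w - z₀) ∧ chainIn ((n : ℝ) ^ tt) A v w) →
        nsq (MP α β z₀ ρ M δ n) (SS z₀ ρ n \ A) (b • chg F₄ n) ≤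
          b ^ 2 * (cc α β * Dir H₄ - c₂ * β) + e)
    (q₁ : EtA (JJ α β) (MP α β z₀ ρ M δ n) (SS z₀ ρ n) (outR z₀ ρ n) 0 0
      (fun A _ => if Chn (fun u v => len (u - v) ≤ (n : ℝ) ^ tt)
        (seeds (SS z₀ ρ n) (outR z₀ ρ n) 0) A then 0 else 1) ≤ ε₁)
    (q₂ : EtA (JJ α β) (MP α β z₀ ρ M δ n) (SS z₀ ρ n) ∅ (a • chg F₂ n) (a • chg F₂ n)
      (fun A _ => if Chn (fun u v => len (u - v) ≤ (n : ℝ) ^ tt)
        (seeds (SS z₀ ρ n) ∅ (a • chg F₂ n)) A then 0 else 1) ≤ ε₂)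
    (q₃ : EtA (JJ α β) (MP α β z₀ ρ M δ n) (SS z₀ ρ n) (outR z₀ ρ n) 0 0
        (fun A φ => if Chn (fun u v => len (u - v) ≤ (n : ℝ) ^ tt)
            (seeds (SS z₀ ρ n) (outR z₀ ρ n) 0) A ∧
            η < nsq (MP α β z₀ ρ M δ n) (SS z₀ ρ n \ A) (fb (pinF z₀ ρ M δ n) (restr A φ))
          then 1 else 0) ≤ ε₁)
    (q₄ : EtA (JJ α β) (MP α β z₀ ρ M δ n) (SS z₀ ρ n) ∅ (a • chg F₂ n) (a • chg F₂ n)
        (fun A φ => if Chn (fun u v => len (u - v) ≤ (n : ℝ) ^ tt)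
            (seeds (SS z₀ ρ n) ∅ (a • chg F₂ n)) A ∧
            η < nsq (MP α β z₀ ρ M δ n) (SS z₀ ρ n \ A) (fb (pinF z₀ ρ M δ n) (restr A φ))
          then 1 else 0) ≤ ε₂)
    (hfin : 2 * (1 / K + K * Real.exp (al ε₀ (C₁ * β) a) * bd1 (be ε₀ (C₁ * β) (c₂ * β) a)
      (ga (C₁ * β) a) ε₁ K' (al ε₀ (C₁ * β) b) (bd2 (be ε₀ (C₁ * β) (c₂ * β) b) (ga (C₁ * β) b)
        (th (C₁ * β) b t eθ) η t ε₂)) ≤ η₀) :
    PrA (JJ α β) (pinF z₀ ρ M δ n) (SS z₀ ρ n) (outR z₀ ρ n) 0 0 (hits (inR z₀ ρ n)) ≤ η₀ := by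
  have hcc : 0 < cc α β := lt_of_le_of_lt hκ.nonneg hlt
  have fS : Supp (ringL z₀ ρ 2 n) (a • chg F₂ n) := (supp_chg hn hρ (by norm_num) F2r).smul a
  have gS : Supp (ringL z₀ ρ 4 n) (b • chg F₄ n) := (supp_chg hn hρ (by norm_num) F4r).smul b
  have fY : ∀ x ∈ ringL z₀ ρ 4 n, (a • chg F₂ n) x = 0 := fun x hx => by
    refine fS x fun hx' => ?_
    have h1 := (mem_ringL.1 hx).2.1
    have h2 := (mem_ringL.1 hx').2.2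
    push_cast at h1 h2
    nlinarith
  have hFQ : IsForm (Qfr (JJ α β) (SS z₀ ρ n)) := isForm_QF hβ.le _
  have hPDr : ∀ c : ℕ, c = 2 ∨ c = 4 → PDef (Qfr (JJ α β) (SS z₀ ρ n)) (ringL z₀ ρ c n) :=
    fun c hc φ hφ hne => by
      have h1 := hMod.pd φ (hφ.mono ringL_sub) hne
      have h2 : pinF z₀ ρ M δ n φ φ = 0 := pinF_ringL hρ hδ hc hφ φ
      rw [LinearMap.add_apply, LinearMap.add_apply, h2, add_zero] at h1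
      exact h1
  obtain ⟨u₁, hu₁⟩ := exists_pot hFQ (hPDr 2 (Or.inl rfl)) (a • chg F₂ n)
  obtain ⟨u₂, hu₂⟩ := exists_pot hFQ (hPDr 4 (Or.inr rfl)) (b • chg F₄ n)
  have hRS : outR z₀ ρ n ⊆ SS z₀ ρ n := Finset.filter_subset _ _
  have hTS : inR z₀ ρ n ⊆ SS z₀ ρ n := Finset.filter_subset _ _
  have hdis : Disjoint (outR z₀ ρ n) (inR z₀ ρ n) := by
    rw [Finset.disjoint_left]
    intro x h1 h2
    have h3 := (Finset.mem_filter.1 h1).2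
    have h4 := (Finset.mem_filter.1 h2).2
    nlinarith
  have z₁ : a • chg F₂ n + (0 : ℝ) • chg F₄ n = a • chg F₂ n := by rw [zero_smul, add_zero]
  have z₂ : (2 * a) • chg F₂ n + (0 : ℝ) • chg F₄ n = (2 : ℝ) • (a • chg F₂ n) := by
    rw [zero_smul, add_zero, smul_smul]
  have z₄ : a • chg F₂ n + (-b) • chg F₄ n = a • chg F₂ n - b • chg F₄ n := by
    rw [neg_smul, ← sub_eq_add_neg]
  have z₅ : a • chg F₂ n + (2 * b) • chg F₄ n = a • chg F₂ n + (2 : ℝ) • (b • chg F₄ n) := by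
    rw [smul_smul]
  have z₆ : a • chg F₂ n + (t * b) • chg F₄ n = a • chg F₂ n + t • (b • chg F₄ n) := by
    rw [smul_smul]
  rw [z₁] at e₁
  rw [z₂] at e₂
  rw [z₄] at e₄
  rw [z₅] at e₅
  rw [z₆] at e₆
  have r₁ : a ^ 2 * (cc α β * Dir H₂) + (0 : ℝ) ^ 2 * (cc α β * Dir H₄) =
      a ^ 2 * (cc α β * Dir H₂) := by ring
  have r₂ : (2 * a) ^ 2 * (cc α β * Dir H₂) + (0 : ℝ) ^ 2 * (cc α β * Dir H₄) =
      4 * (a ^ 2 * (cc α β * Dir H₂)) := by ring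
  have r₄ : a ^ 2 * (cc α β * Dir H₂) + (-b) ^ 2 * (cc α β * Dir H₄) =
      a ^ 2 * (cc α β * Dir H₂) + b ^ 2 * (cc α β * Dir H₄) := by ring
  have r₅ : a ^ 2 * (cc α β * Dir H₂) + (2 * b) ^ 2 * (cc α β * Dir H₄) =
      a ^ 2 * (cc α β * Dir H₂) + 4 * (b ^ 2 * (cc α β * Dir H₄)) := by ring
  have r₆ : a ^ 2 * (cc α β * Dir H₂) + (t * b) ^ 2 * (cc α β * Dir H₄) =
      a ^ 2 * (cc α β * Dir H₂) + t ^ 2 * (b ^ 2 * (cc α β * Dir H₄)) := by ring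
  rw [r₁] at e₁
  rw [r₂] at e₂
  rw [r₄] at e₄
  rw [r₅] at e₅
  rw [r₆] at e₆
  have s₉ : a ^ 2 * (cc α β * Dir H₂ - c₂ * β) + e =
      a ^ 2 * (cc α β * Dir H₂) - a ^ 2 * (c₂ * β) + e := by ring
  have s₀ : b ^ 2 * (cc α β * Dir H₄ - c₂ * β) + e =
      b ^ 2 * (cc α β * Dir H₄) - b ^ 2 * (c₂ * β) + e := by ring
  rw [s₉] at e₉
  rw [s₀] at e₀
  refine master_num (J := JJ α β) (N := pinF z₀ ρ M δ n) (S := SS z₀ ρ n) (R := outR z₀ ρ n)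
    (T := inR z₀ ρ n) (f := a • chg F₂ n) (g := b • chg F₄ n) hMod hRS hTS hdis
    (Y₁ := ringL z₀ ρ 2 n) (Y₂ := ringL z₀ ρ 4 n) ringL_sub ringL_sub
    (fun φ χ h => pinF_ringL hρ hδ (Or.inl rfl) h χ)
    (fun φ χ h => pinF_ringL hρ hδ (Or.inr rfl) h χ) fS gS
    (fun x => mul_nonneg ha (chg_nonneg F20 n x)) (fun x => mul_nonneg hb (chg_nonneg F40 n x))
    fY hu₁ hu₂ (fun u v => len (u - v) ≤ (n : ℝ) ^ tt) (k := κ / cc α β) (e := e) (eθ := eθ)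
    (p := a ^ 2 * (cc α β * Dir H₂)) (q := b ^ 2 * (cc α β * Dir H₄)) (X := C₁ * β)
    (Y := c₂ * β) (Bb := Bb)
    hK hK' hη ht (div_nonneg hκ.nonneg hcc.le) ((div_le_iff₀ hcc).2 hkap) hε₀ he0.le he8 heθ
    (mul_le_mul_of_nonneg_left P₂.up (sq_nonneg a)) (mul_le_mul_of_nonneg_left P₄.up (sq_nonneg b))
    (mul_le_mul_of_nonneg_left P₂.low (sq_nonneg a))
    (mul_le_mul_of_nonneg_left P₄.low (sq_nonneg b)) hY0.le hBb hηB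
    (fun A _ => cut1_of hρ e₉ A) (fun A _ => cut2_of hρ fS e₀ A)
    e₁ e₂ e₃ e₄ e₅ e₆ (e₇ u₁ hu₁) (e₈ u₂ hu₂) ?_ ?_ ?_ ?_ hfin
  · rw [PrA_NC]; exact q₁
  · rw [PrA_FBad]; exact q₃
  · rw [PrA_NC]; exact q₂
  · rw [PrA_FBad]; exact q₄

end Cr

open Cr

open Classical in
/-- 7.9 crossing estimate: the explored set of the outer region does not meet the inner region. -/
theorem crossing_of {α : ℝ} (hα : 4 < α) : ∃ ε₀ > 0, ∀ (β κ : ℝ), 0 < β → KapSpec α β κ →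
    κ < cc α β → ExactSpec α β κ →
    (∀ (Λ : Finset V) (h : V → ℝ), Supp Λ h → En (QD α β Λ) Λ h ≤ ε₀ / 2 * QD α β Λ h h) →
    ∀ (z₀ : P) (ρ : ℝ), 0 < ρ → ∀ η > 0, ∃ M₀ ≥ 1, ∀ M ≥ M₀, ∃ δ₀ > 0, ∀ δ : ℝ, 0 < δ → δ ≤ δ₀ →
      ∀ᶠ n : ℕ in atTop,
        EtA (JJ α β) (MP α β z₀ ρ M δ n) (SS z₀ ρ n) (outR z₀ ρ n) 0 0
          (fun A _ => if (A ∩ inR z₀ ρ n).Nonempty then 1 else 0) ≤ η := by
  obtain ⟨C₁, hC₁, c₂, hc₂, hprof⟩ := B5.profiles hα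
  set ε₀ : ℝ := min 1 (c₂ / (6 * C₁)) with hε₀
  have hε₀0 : 0 < ε₀ := by positivity
  have hε₀1 : ε₀ ≤ 1 := min_le_left _ _
  refine ⟨ε₀, hε₀0, fun β κ hβ hκ hlt hex hT z₀ ρ hρ η₀ hη₀ => ?_⟩
  have hcc : 0 < cc α β := lt_of_le_of_lt hκ.nonneg hlt
  obtain ⟨F₂, F2c, F2s, F20, F2r, hP2⟩ := hprof β hβ z₀ ρ hρ 2 (Or.inl rfl)
  obtain ⟨F₄, F4c, F4s, F40, F4r, hP4⟩ := hprof β hβ z₀ ρ hρ 4 (Or.inr rfl)
  -- `κ ≤ ε₀ c`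
  have hkap : κ ≤ ε₀ * cc α β := by
    obtain ⟨M', hM', h⟩ := hP2 1 one_pos
    obtain ⟨δ', hδ', h⟩ := h M' le_rfl
    obtain ⟨H, hs, hc, h0, hsp, hu, hl, -⟩ := h δ' hδ' le_rfl
    refine kap_le_eps hα hβ hκ hT z₀ hρ hs hc (fun z hz => ?_) ?_
    · have := hsp z hz
      left; push_cast at this; constructor <;> linarith [this.1, this.2]
    · have : 0 < c₂ * β := by positivity
      by_contra hn
      rw [not_lt] at hn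
      nlinarith
  set X : ℝ := C₁ * β with hX
  set Y : ℝ := c₂ * β with hY
  have hX0 : 0 < X := by positivity
  have hY0 : 0 < Y := by positivity
  have h6 : 6 * (ε₀ * X) ≤ Y := by
    have h1 : ε₀ ≤ c₂ / (6 * C₁) := min_le_right _ _
    rw [le_div_iff₀ (by positivity)] at h1
    rw [hX, hY]
    nlinarith
  obtain ⟨K, hK, a, ha, ε₁, hε₁, K', hK', b, hb, t, ht, eθ, heθ, η₁, hη₁, ε₂, hε₂, hfin⟩ :=
    params hX0 hY0 h6 hη₀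
  set e : ℝ := min (1 / 8) (eθ / 2) with he
  have he0 : 0 < e := by positivity
  have he8 : e ≤ 1 / 8 := min_le_left _ _
  have heθ' : 2 * e ≤ eθ := by have : e ≤ eθ / 2 := min_le_right _ _; linarith
  set Bb : ℝ := a ^ 2 * X + b ^ 2 * X + 1 with hBb
  have hBb0 : 0 ≤ Bb := by positivity
  set η : ℝ := min η₁ (1 / (16 * (Bb + 1))) with hη
  have hη0 : 0 < η := by positivity
  have hηB : η ≤ 1 / (16 * (Bb + 1)) := min_le_right _ _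
  set tt : ℝ := (2 / (α - 2) + 1) / 2 with htt
  have hfr : 2 / (α - 2) < 1 := by rw [div_lt_one (by linarith)]; linarith
  have htt1 : 2 / (α - 2) < tt := by rw [htt]; linarith
  have htt2 : tt < 1 := by rw [htt]; linarith
  -- accuracies
  obtain ⟨w₁, hw₁, L₁⟩ := la_est hex hα hβ hκ hlt z₀ hρ F₂ F₄ hC₁ c₂ a 0 he0
  obtain ⟨w₂, hw₂, L₂⟩ := la_est hex hα hβ hκ hlt z₀ hρ F₂ F₄ hC₁ c₂ (2 * a) 0 he0
  obtain ⟨w₃, hw₃, L₃⟩ := la_est hex hα hβ hκ hlt z₀ hρ F₂ F₄ hC₁ c₂ a b he0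
  obtain ⟨w₄, hw₄, L₄⟩ := la_est hex hα hβ hκ hlt z₀ hρ F₂ F₄ hC₁ c₂ a (-b) he0
  obtain ⟨w₅, hw₅, L₅⟩ := la_est hex hα hβ hκ hlt z₀ hρ F₂ F₄ hC₁ c₂ a (2 * b) he0
  obtain ⟨w₆, hw₆, L₆⟩ := la_est hex hα hβ hκ hlt z₀ hρ F₂ F₄ hC₁ c₂ a (t * b) he0
  obtain ⟨w₇, hw₇, L₇⟩ := ring_est hα hβ z₀ hρ hε₀0.le hε₀1 hT hC₁ c₂ (Or.inl rfl) F2r a he0
  obtain ⟨w₈, hw₈, L₈⟩ := ring_est hα hβ z₀ hρ hε₀0.le hε₀1 hT hC₁ c₂ (Or.inr rfl) F4r b he0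
  obtain ⟨w₉, hw₉, L₉⟩ := cut_est hα hβ z₀ hρ hC₁ hc₂ (Or.inl rfl) (F := F₂) ha he0 htt2
  obtain ⟨w₀, hw₀, L₀⟩ := cut_est hα hβ z₀ hρ hC₁ hc₂ (Or.inr rfl) (F := F₄) hb he0 htt2
  set w : ℝ := min (min (min w₁ w₂) (min w₃ w₄)) (min (min w₅ w₆) (min (min w₇ w₈) (min w₉ w₀)))
    with hw
  have hw' : 0 < w := by positivity
  have k₁ : w ≤ w₁ := (min_le_left _ _).trans ((min_le_left _ _).trans (min_le_left _ _))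
  have k₂ : w ≤ w₂ := (min_le_left _ _).trans ((min_le_left _ _).trans (min_le_right _ _))
  have k₃ : w ≤ w₃ := (min_le_left _ _).trans ((min_le_right _ _).trans (min_le_left _ _))
  have k₄ : w ≤ w₄ := (min_le_left _ _).trans ((min_le_right _ _).trans (min_le_right _ _))
  have k₅ : w ≤ w₅ := (min_le_right _ _).trans ((min_le_left _ _).trans (min_le_left _ _))
  have k₆ : w ≤ w₆ := (min_le_right _ _).trans ((min_le_left _ _).trans (min_le_right _ _))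
  have k₇ : w ≤ w₇ := (min_le_right _ _).trans ((min_le_right _ _).trans
    ((min_le_left _ _).trans (min_le_left _ _)))
  have k₈ : w ≤ w₈ := (min_le_right _ _).trans ((min_le_right _ _).trans
    ((min_le_left _ _).trans (min_le_right _ _)))
  have k₉ : w ≤ w₉ := (min_le_right _ _).trans ((min_le_right _ _).trans
    ((min_le_right _ _).trans (min_le_left _ _)))
  have k₀ : w ≤ w₀ := (min_le_right _ _).trans ((min_le_right _ _).trans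
    ((min_le_right _ _).trans (min_le_right _ _)))
  obtain ⟨M₂, hM₂, G₂⟩ := hP2 w hw'
  obtain ⟨M₄, hM₄, G₄⟩ := hP4 w hw'
  refine ⟨max M₂ M₄, le_max_of_le_left hM₂, fun M hM => ?_⟩
  have hM2' : M ≥ M₂ := (le_max_left _ _).trans hM
  have hM4' : M ≥ M₄ := (le_max_right _ _).trans hM
  have hM1 : 1 ≤ M := hM₂.trans hM2'
  obtain ⟨d₂, hd₂, G₂⟩ := G₂ M hM2'
  obtain ⟨d₄, hd₄, G₄⟩ := G₄ M hM4'
  -- the explorations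
  have hX1 := expl_out z₀ hρ
  have hX2 : Expl z₀ ρ (fun _ => ∅) (fun n => a • chg F₂ n) := by
    refine expl_ghost z₀ hρ (fun n x => ?_) ?_ (fun n x hx => ?_)
    · exact mul_nonneg ha.le (chg_nonneg F20 n x)
    · obtain ⟨Cb, hCb⟩ := F2s.exists_bound_of_continuous F2c
      have hCb0 : 0 ≤ Cb := (norm_nonneg _).trans (hCb 0)
      refine ⟨a * Cb, by positivity, fun n x => ?_⟩
      have h1 : F₂ (sc n x) ≤ Cb := (Real.le_norm_self _).trans (hCb _)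
      have h2 : (a • chg F₂ n) x = a * F₂ (sc n x) / (n : ℝ) ^ 2 := by
        simp only [Pi.smul_apply, smul_eq_mul, chg]; ring
      rw [h2]
      exact div_le_div_of_nonneg_right (mul_le_mul_of_nonneg_left h1 ha.le) (sq_nonneg _)
    · have h1 : F₂ (sc n x) ≠ 0 := by
        intro h0
        apply hx
        simp [chg, h0]
      have := F2r _ h1
      push_cast at this
      exact this
  obtain ⟨d₅, hd₅, B₁⟩ := feedback hα hβ z₀ hρ htt2 hX1 hM1 hε₁ hη0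
  obtain ⟨d₆, hd₆, B₂⟩ := feedback hα hβ z₀ hρ htt2 hX2 hM1 hε₂ hη0
  refine ⟨min (min d₂ d₄) (min (min d₅ d₆) (ρ / 32)), by positivity, fun δ hδ hδle => ?_⟩
  have l₂ : δ ≤ d₂ := hδle.trans ((min_le_left _ _).trans (min_le_left _ _))
  have l₄ : δ ≤ d₄ := hδle.trans ((min_le_left _ _).trans (min_le_right _ _))
  have l₅ : δ ≤ d₅ := hδle.trans ((min_le_right _ _).trans ((min_le_left _ _).trans (min_le_left _ _)))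
  have l₆ : δ ≤ d₆ := hδle.trans ((min_le_right _ _).trans ((min_le_left _ _).trans (min_le_right _ _)))
  have l₇ : δ ≤ ρ / 32 := hδle.trans ((min_le_right _ _).trans (min_le_right _ _))
  have l₈ : δ ≤ ρ / 8 := l₇.trans (by linarith)
  obtain ⟨H₂, s1, s2, s3, s4, s5, s6, -, s7, s8⟩ := G₂ δ hδ l₂
  obtain ⟨H₄, r1, r2, r3, r4, r5, r6, -, r7, r8⟩ := G₄ δ hδ l₄
  have P₂ : Prof α β z₀ ρ M δ c₂ C₁ 2 F₂ w H₂ := ⟨s1, s2, s3, s4, s5, s6, s7, s8⟩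
  have P₄ : Prof α β z₀ ρ M δ c₂ C₁ 4 F₄ w H₄ := ⟨r1, r2, r3, r4, r5, r6, r7, r8⟩
  obtain ⟨Cp, hCp, hp⟩ := B5.poinc hα hβ z₀ hρ
  filter_upwards [L₁ w hw' k₁ M δ hM1 hδ l₈ H₂ H₄ P₂ P₄, L₂ w hw' k₂ M δ hM1 hδ l₈ H₂ H₄ P₂ P₄,
    L₃ w hw' k₃ M δ hM1 hδ l₈ H₂ H₄ P₂ P₄, L₄ w hw' k₄ M δ hM1 hδ l₈ H₂ H₄ P₂ P₄,
    L₅ w hw' k₅ M δ hM1 hδ l₈ H₂ H₄ P₂ P₄, L₆ w hw' k₆ M δ hM1 hδ l₈ H₂ H₄ P₂ P₄,
    L₇ w hw' k₇ M δ hM1 hδ l₈ H₂ P₂, L₈ w hw' k₈ M δ hM1 hδ l₈ H₄ P₄,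
    L₉ w hw' k₉ M δ hM1 hδ l₈ H₂ P₂, L₀ w hw' k₀ M δ hM1 hδ l₈ H₄ P₄,
    no_long hα hβ z₀ hρ htt1 hX1 hM1 hδ l₇ hε₁, no_long hα hβ z₀ hρ htt1 hX2 hM1 hδ l₇ hε₂,
    B₁ δ hδ l₅, B₂ δ hδ l₆, hp M δ hM1 hδ l₈, eventually_gt_atTop 0]
    with n e₁ e₂ e₃ e₄ e₅ e₆ e₇ e₈ e₉ e₀ q₁ q₂ q₃ q₄ hpn hn
  have hMod := mod_of_poinc (δ := δ) hβ (by linarith : 0 ≤ M) hn hpn hCp
  refine le_trans (le_of_eq ?_) (final_n hα hβ hκ hlt hkap hρ hn hδ hY0 hε₀0.le F20 F2r F40 F4r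
    P₂ P₄ hMod hK hK' hη0 ha.le hb.le ht he0 he8 heθ' le_rfl hηB e₁.2 e₂.2 e₃.2 e₄.2 e₅.2 e₆.2
    e₇ e₈ e₉ e₀ q₁ q₂ q₃ q₄ (hfin η hη0 (min_le_left _ _)))
  unfold PrA hits
  congr!

open Classical in
/-- 7.9 crossing estimate, final form. -/
theorem crossing {α : ℝ} (hα : 4 < α) : ∃ ε₀ > 0, ∀ (β κ : ℝ), 0 < β → KapSpec α β κ →
    κ < cc α β →
    (∀ (Λ : Finset V) (h : V → ℝ), Supp Λ h → En (QD α β Λ) Λ h ≤ ε₀ / 2 * QD α β Λ h h) →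
    ∀ (z₀ : P) (ρ : ℝ), 0 < ρ → ∀ η > 0, ∃ M₀ ≥ 1, ∀ M ≥ M₀, ∃ δ₀ > 0, ∀ δ : ℝ, 0 < δ → δ ≤ δ₀ →
      ∀ᶠ n : ℕ in atTop,
        EtA (JJ α β) (MP α β z₀ ρ M δ n) (SS z₀ ρ n) (outR z₀ ρ n) 0 0
          (fun A _ => if (A ∩ inR z₀ ρ n).Nonempty then 1 else 0) ≤ η := by
  obtain ⟨ε₀, h0, h⟩ := crossing_of hα
  exact ⟨ε₀, h0, fun β κ hβ hκ hlt hT => h β κ hβ hκ hlt
    (fun z₀ ρ M δ hρ hM hδ hδρ H hH hc hs hv =>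
      exact hα hβ hκ hlt z₀ hρ hM hδ hδρ H hH hc hs hv) hT⟩

end Pool.Agent.LR
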