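import Mathlib

/-!
# B7: the four functions theorem for sums over an infinite distributive lattice
-/

set_option autoImplicit false

noncomputable section

open scoped BigOperators Topology
open Filter

namespace Pool.Agent.LR.B7

theorem four_tsum {α : Type*} [DistribLattice α] (f₁ f₂ f₃ f₄ : α → ℝ)
    (h₁ : ∀ a, 0 ≤ f₁ a) (h₂ : ∀ a, 0 ≤ f₂ a) (h₃ : ∀ a, 0 ≤ f₃ a) (h₄ : ∀ a, 0 ≤ f₄ a)
    (s₁ : Summable f₁) (s₂ : Summable f₂) (s₃ : Summable f₃) (s₄ : Summable f₄)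
    (h : ∀ a b, f₁ a * f₂ b ≤ f₃ (a ⊓ b) * f₄ (a ⊔ b)) :
    (∑' a, f₁ a) * (∑' a, f₂ a) ≤ (∑' a, f₃ a) * (∑' a, f₄ a) := by
  classical
  have t1 : Tendsto (fun s : Finset α => ∑ a ∈ s, f₁ a) atTop (𝓝 (∑' a, f₁ a)) := s₁.hasSum
  have t2 : Tendsto (fun s : Finset α => ∑ a ∈ s, f₂ a) atTop (𝓝 (∑' a, f₂ a)) := s₂.hasSum
  have ht : Tendsto (fun s : Finset α => (∑ a ∈ s, f₁ a) * (∑ a ∈ s, f₂ a)) atTop
      (𝓝 ((∑' a, f₁ a) * (∑' a, f₂ a))) := t1.mul t2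
  refine le_of_tendsto' ht fun s => ?_
  refine (four_functions_theorem f₁ f₂ f₃ f₄ h₁ h₂ h₃ h₄ h s s).trans ?_
  exact mul_le_mul (s₃.sum_le_tsum _ fun a _ => h₃ a) (s₄.sum_le_tsum _ fun a _ => h₄ a)
    (Finset.sum_nonneg fun a _ => h₄ a) (tsum_nonneg h₃)

/-- FKG inequality for a log-supermodular weight on an infinite distributive lattice. -/
theorem fkg_tsum {α : Type*} [DistribLattice α] (w F G : α → ℝ)
    (hw : ∀ a, 0 ≤ w a) (hF0 : ∀ a, 0 ≤ F a) (hG0 : ∀ a, 0 ≤ G a)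
    (hF : Monotone F) (hG : Monotone G)
    (hlat : ∀ a b, w a * w b ≤ w (a ⊓ b) * w (a ⊔ b))
    (s₀ : Summable w) (s₁ : Summable fun a => w a * F a) (s₂ : Summable fun a => w a * G a)
    (s₃ : Summable fun a => w a * (F a * G a)) :
    (∑' a, w a * F a) * (∑' a, w a * G a) ≤ (∑' a, w a) * (∑' a, w a * (F a * G a)) := by
  refine four_tsum _ _ _ _ (fun a => mul_nonneg (hw a) (hF0 a))
    (fun a => mul_nonneg (hw a) (hG0 a)) hw
    (fun a => mul_nonneg (hw a) (mul_nonneg (hF0 a) (hG0 a))) s₁ s₂ s₀ s₃ fun a b => ?_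
  have h1 : w a * F a * (w b * G b) = w a * w b * (F a * G b) := by ring
  have h2 : w (a ⊓ b) * (w (a ⊔ b) * (F (a ⊔ b) * G (a ⊔ b))) =
      w (a ⊓ b) * w (a ⊔ b) * (F (a ⊔ b) * G (a ⊔ b)) := by ring
  rw [h1, h2]
  exact mul_le_mul (hlat a b)
    (mul_le_mul (hF le_sup_left) (hG le_sup_right) (hG0 _) (hF0 _))
    (mul_nonneg (hF0 _) (hG0 _)) (mul_nonneg (hw _) (hw _))

end Pool.Agent.LR.B7
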