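import Pool.Agent.LR.B7.Four
import Pool.Agent.LR.B1.Gau

/-!
# B7: the weights of a ferromagnetic free form are log-supermodular
-/

set_option autoImplicit false
set_option linter.unusedSectionVars false

noncomputable section

open scoped BigOperators Topology
open Filter

namespace Pool.Agent.LR.B7

variable {W : Type*} [DecidableEq W]

theorem Qfr_apply (J : W → W → ℝ) (S : Finset W) (f g : W → ℝ) :
    Qfr J S f g = ∑ x ∈ S, ∑ y ∈ S, J x y / 2 * (f x - f y) * (g x - g y) := by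
  simp [Qfr, rk_apply, ev, LinearMap.sum_apply]

theorem Qfr_form {J : W → W → ℝ} (J0 : ∀ x y, 0 ≤ J x y) (S : Finset W) : IsForm (Qfr J S) :=
  IsForm.sum _ fun x _ => IsForm.sum _ fun y _ => isForm_rk (by have := J0 x y; linarith) _

private theorem sq_lat (a b c d : ℝ) :
    (min a c - min b d) ^ 2 + (max a c - max b d) ^ 2 ≤ (a - b) ^ 2 + (c - d) ^ 2 := by
  rcases le_total a c with h | h <;> rcases le_total b d with h' | h' <;>
    simp only [min_eq_left, min_eq_right, max_eq_left, max_eq_right, h, h'] <;>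
    nlinarith [mul_nonneg (sub_nonneg.2 h) (sub_nonneg.2 h')]

theorem Qfr_lat {J : W → W → ℝ} (J0 : ∀ x y, 0 ≤ J x y) (S : Finset W) (f g : W → ℝ) :
    Qfr J S (f ⊓ g) (f ⊓ g) + Qfr J S (f ⊔ g) (f ⊔ g) ≤ Qfr J S f f + Qfr J S g g := by
  simp only [Qfr_apply, ← Finset.sum_add_distrib]
  refine Finset.sum_le_sum fun x _ => Finset.sum_le_sum fun y _ => ?_
  have h := sq_lat (f x) (f y) (g x) (g y)
  have hJ := J0 x y
  simp only [Pi.inf_apply, Pi.sup_apply]
  have e : ∀ a : ℝ, J x y / 2 * a * a = J x y / 2 * a ^ 2 := fun a => by ring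
  rw [e, e, e, e, ← mul_add, ← mul_add]
  exact mul_le_mul_of_nonneg_left h (by linarith)

theorem emb_inf (O : Finset W) (η θ : O → ℤ) (h : W → ℝ) :
    emb O (η ⊓ θ) - h = (emb O η - h) ⊓ (emb O θ - h) := by
  funext x
  simp only [Pi.inf_apply, Pi.sub_apply]
  by_cases hx : x ∈ O
  · rw [emb_apply_mem hx, emb_apply_mem hx, emb_apply_mem hx, Pi.inf_apply]
    rw [min_sub_sub_right]
    push_cast
    rfl
  · rw [emb_apply_not hx, emb_apply_not hx, emb_apply_not hx, min_self]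

theorem emb_sup (O : Finset W) (η θ : O → ℤ) (h : W → ℝ) :
    emb O (η ⊔ θ) - h = (emb O η - h) ⊔ (emb O θ - h) := by
  funext x
  simp only [Pi.sup_apply, Pi.sub_apply]
  by_cases hx : x ∈ O
  · rw [emb_apply_mem hx, emb_apply_mem hx, emb_apply_mem hx, Pi.sup_apply]
    rw [max_sub_sub_right]
    push_cast
    rfl
  · rw [emb_apply_not hx, emb_apply_not hx, emb_apply_not hx, max_self]

theorem emb_le {O : Finset W} {η θ : O → ℤ} (h : η ≤ θ) (x : W) : emb O η x ≤ emb O θ x := by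
  by_cases hx : x ∈ O
  · rw [emb_apply_mem hx, emb_apply_mem hx]
    exact_mod_cast h ⟨x, hx⟩
  · rw [emb_apply_not hx, emb_apply_not hx]

theorem wt_lat {J : W → W → ℝ} (J0 : ∀ x y, 0 ≤ J x y) (S O : Finset W) (h : W → ℝ)
    (η θ : O → ℤ) :
    wt (Qfr J S) O h η * wt (Qfr J S) O h θ ≤
      wt (Qfr J S) O h (η ⊓ θ) * wt (Qfr J S) O h (η ⊔ θ) := by
  simp only [wt]
  rw [← Real.exp_add, ← Real.exp_add, Real.exp_le_exp, emb_inf, emb_sup]
  have := Qfr_lat J0 S (emb O η - h) (emb O θ - h)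
  linarith

theorem pr_mono {O : Finset W} {g : W → ℝ} (hg : ∀ x ∈ O, 0 ≤ g x) {φ χ : W → ℝ}
    (h : ∀ x, φ x ≤ χ x) : pr O g φ ≤ pr O g χ :=
  Finset.sum_le_sum fun x hx => mul_le_mul_of_nonneg_left (h x) (hg x hx)

/-- FKG for the model on `O` with a ferromagnetic form `Qfr J S` and any shift `h`:
an increasing `F` with values in `[0,1]` and `exp ⟨g, ·⟩`, `g ≥ 0`. -/
theorem fkg_exp {J : W → W → ℝ} (J0 : ∀ x y, 0 ≤ J x y) {S O : Finset W}
    (hP : PDef (Qfr J S) O) (h g : W → ℝ) (hg : ∀ x ∈ O, 0 ≤ g x) (F : (O → ℤ) → ℝ)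
    (hF0 : ∀ η, 0 ≤ F η) (hF1 : ∀ η, F η ≤ 1) (hF : Monotone F) :
    (∑' η, wt (Qfr J S) O h η * F η) *
        (∑' η, wt (Qfr J S) O h η * Real.exp (pr O g (emb O η))) ≤
      (∑' η, wt (Qfr J S) O h η) *
        (∑' η, wt (Qfr J S) O h η * (F η * Real.exp (pr O g (emb O η)))) := by
  have hM := Qfr_form J0 S
  have hFt : Tame F := tame_bdd 1 fun ψ => by rw [abs_of_nonneg (hF0 ψ)]; exact hF1 ψ
  refine fkg_tsum (wt (Qfr J S) O h) F (fun η => Real.exp (pr O g (emb O η)))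
    (fun η => (wt_pos _ _ _ _).le) hF0 (fun η => (Real.exp_pos _).le) hF
    (fun η θ hle => Real.exp_le_exp.2 (pr_mono hg (emb_le hle))) (wt_lat J0 S O h)
    (summable_wt hM hP h) (summable_wt_mul hM hP h hFt)
    (summable_wt_mul hM hP h (tame_exp_pr g))
    (summable_wt_mul hM hP h (Tame.mul hFt (tame_exp_pr g)))

end Pool.Agent.LR.B7
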