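import Pool.Agent.LR.B7.Lat

/-!
# B7: splitting the field into the part off `Y` and the part in `Y`
-/

set_option autoImplicit false
set_option linter.unusedSectionVars false

noncomputable section

open scoped BigOperators Topology
open Filter

namespace Pool.Agent.LR.B7

variable {W : Type*} [DecidableEq W]

/-- Fields on `S` = fields on `S \ Y` and fields on `Y`. -/
def splitE {S Y : Finset W} (hY : Y ⊆ S) :
    (((S \ Y : Finset W) → ℤ) × (Y → ℤ)) ≃ (S → ℤ) where
  toFun p x := if h : x.1 ∈ Y then p.2 ⟨x.1, h⟩ else p.1 ⟨x.1, Finset.mem_sdiff.2 ⟨x.2, h⟩⟩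
  invFun ψ := (fun x => ψ ⟨x.1, (Finset.mem_sdiff.1 x.2).1⟩, fun x => ψ ⟨x.1, hY x.2⟩)
  left_inv p := by
    refine Prod.ext (funext fun x => ?_) (funext fun x => ?_)
    · have hx : x.1 ∉ Y := (Finset.mem_sdiff.1 x.2).2
      simp [hx]
    · have hx : x.1 ∈ Y := x.2
      simp [hx]
  right_inv ψ := by
    funext x
    by_cases hx : x.1 ∈ Y
    · simp [hx]
    · simp [hx]

theorem emb_split {S Y : Finset W} (hY : Y ⊆ S)
    (p : ((S \ Y : Finset W) → ℤ) × (Y → ℤ)) :
    emb S (splitE hY p) = emb (S \ Y) p.1 + emb Y p.2 := by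
  funext x
  simp only [Pi.add_apply]
  by_cases hx : x ∈ Y
  · have h1 : x ∉ S \ Y := fun h => (Finset.mem_sdiff.1 h).2 hx
    rw [emb_apply_mem (hY hx), emb_apply_not h1, emb_apply_mem hx, zero_add]
    simp [splitE, hx]
  · by_cases hS : x ∈ S
    · have h1 : x ∈ S \ Y := Finset.mem_sdiff.2 ⟨hS, hx⟩
      rw [emb_apply_mem hS, emb_apply_mem h1, emb_apply_not hx, add_zero]
      simp [splitE, hx]
    · have h1 : x ∉ S \ Y := fun h => hS (Finset.mem_sdiff.1 h).1
      rw [emb_apply_not hS, emb_apply_not h1, emb_apply_not hx, add_zero]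

/-- Sums over fields as iterated sums. -/
theorem tsum_split {S Y : Finset W} (hY : Y ⊆ S) (F : (S → ℤ) → ℝ) (hF : Summable F) :
    ∑' ψ, F ψ = ∑' b : (S \ Y : Finset W) → ℤ, ∑' η : Y → ℤ, F (splitE hY (b, η)) := by
  rw [← (splitE hY).tsum_eq F]
  exact ((splitE hY).summable_iff.2 hF).tsum_prod

theorem summable_split {S Y : Finset W} (hY : Y ⊆ S) (F : (S → ℤ) → ℝ) (hF : Summable F) :
    Summable fun b : (S \ Y : Finset W) → ℤ => ∑' η : Y → ℤ, F (splitE hY (b, η)) :=
  ((splitE hY).summable_iff.2 hF).prod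

theorem summable_fiber {S Y : Finset W} (hY : Y ⊆ S) (F : (S → ℤ) → ℝ) (hF : Summable F)
    (b : (S \ Y : Finset W) → ℤ) : Summable fun η : Y → ℤ => F (splitE hY (b, η)) :=
  ((splitE hY).summable_iff.2 hF).prod_factor b

end Pool.Agent.LR.B7
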